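import Pool.Agent.Helper38.AutStruct

/-!
# Admissible primes
-/

set_option autoImplicit false

namespace Pool.Agent.Helper38.AutTower

open scoped IsMulCommutative

theorem isUnit_two {n : ℕ} (h : Odd n) : IsUnit (2 : ZMod n) := by
  have h1 : IsUnit ((2 : ℕ) : ZMod n) :=
    (ZMod.isUnit_iff_coprime 2 n).2 (Nat.coprime_two_left.2 h)
  simpa using h1

section gen

variable {n : ℕ} {P : Type} [Group P]

theorem psi_pow_right (X : Psi n P) (k : ℕ) : (X ^ k).right = X.right ^ k :=
  map_pow (SemidirectProduct.rightHom : Psi n P →* MulAut P) X k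

/-- If an element of `Psi` commutes with the homomorphism part then it fixes the centre. -/
theorem fix_center (hrich : ∀ z ∈ Subgroup.center P, ∃ (γ : Gam n P) (w : (ZMod n)ˣ),
    (γ w : P) = z) (X : Psi n P)
    (hX : ∀ γ : Gam n P, X * SemidirectProduct.inl γ = SemidirectProduct.inl γ * X) :
    ∀ z ∈ Subgroup.center P, X.right z = z := by
  intro z hz
  obtain ⟨γ, w, hγ⟩ := hrich z hz
  have h1 := congrArg SemidirectProduct.left (hX γ)
  rw [SemidirectProduct.mul_left, SemidirectProduct.mul_left, SemidirectProduct.left_inl,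
    SemidirectProduct.right_inl, map_one, MulAut.one_apply, mul_comm γ X.left] at h1
  have h2 := mul_left_cancel h1
  have h3 := congrArg (fun γ' : Gam n P => ((γ' w : Subgroup.center P) : P)) h2
  simp only [gamAct_apply] at h3
  rw [hγ] at h3
  exact h3

theorem gamAct_eq_one (a : MulAut P) (ha : ∀ z ∈ Subgroup.center P, a z = z) :
    gamAct n P a = 1 := by
  refine MulEquiv.ext fun γ => ?_
  refine MonoidHom.ext fun w => Subtype.ext ?_
  rw [gamAct_apply, ha _ (γ w).2]
  rfl

theorem conj_fix_center (x : P) : ∀ z ∈ Subgroup.center P, MulAut.conj x z = z := by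
  intro z hz
  rw [MulAut.conj_apply, (Subgroup.mem_center_iff.1 hz x), mul_assoc, mul_inv_cancel, mul_one]

/-- A central automorphism which fixes the centre has an order dividing the exponent. -/
theorem pow_of_central {m : ℕ} (a : MulAut P) (ha : ∀ z ∈ Subgroup.center P, a z = z)
    (hc : ∀ x, a x * x⁻¹ ∈ Subgroup.center P) (hm : ∀ z ∈ Subgroup.center P, z ^ m = 1) :
    a ^ m = 1 := by
  have h1 : ∀ (k : ℕ) (x : P), (a ^ k) x = (a x * x⁻¹) ^ k * x := by
    intro k
    induction k with
    | zero => intro x; simp
    | succ k ih =>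
      intro x
      have h2 : (a ^ (k + 1)) x = a ((a ^ k) x) := by rw [pow_succ', MulAut.mul_apply]
      have h3 : a ((a x * x⁻¹) ^ k) = (a x * x⁻¹) ^ k := ha _ (Subgroup.pow_mem _ (hc x) k)
      rw [h2, ih, map_mul, h3, pow_succ]
      group
  refine MulEquiv.ext fun x => ?_
  rw [h1, hm _ (hc x), one_mul, MulAut.one_apply]

theorem central_of_conj {x : P} (h : MulAut.conj x = 1) : x ∈ Subgroup.center P := by
  rw [Subgroup.mem_center_iff]
  intro g
  have h1 : MulAut.conj x g = g := by rw [h, MulAut.one_apply]
  rw [MulAut.conj_apply, mul_inv_eq_iff_eq_mul] at h1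
  exact h1.symm

theorem conj_aut (a : MulAut P) (x : P) : a * MulAut.conj x * a⁻¹ = MulAut.conj (a x) := by
  refine MulEquiv.ext fun y => ?_
  rw [MulAut.mul_apply, MulAut.mul_apply, MulAut.conj_apply, MulAut.conj_apply, map_mul, map_mul,
    map_inv]
  have h1 : a (a⁻¹ y) = y := by rw [← MulAut.mul_apply, mul_inv_cancel, MulAut.one_apply]
  rw [h1]

/-- Admissibility is inherited. -/
theorem adm_psi {q : ℕ} [Finite P]
    (hrich : ∀ z ∈ Subgroup.center P, ∃ (γ : Gam n P) (w : (ZMod n)ˣ), (γ w : P) = z)
    (h : Adm q P) : Adm q (Psi n P) := by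
  obtain ⟨hq, hq2, hexp, hnor⟩ := h
  have : Fact q.Prime := ⟨hq⟩
  have hgexp : ∀ γ : Gam n P, γ ^ (q - 1) = 1 := by
    intro γ
    refine MonoidHom.ext fun w => Subtype.ext ?_
    rw [MonoidHom.pow_apply, SubmonoidClass.coe_pow, hexp _ (γ w).2]
    rfl
  have hone : ∀ {G : Type} [Group G] (g : G), g ^ q = 1 → g ^ (q - 1) = 1 → g = 1 := by
    intro G _ g h1 h2
    have h3 : g ^ q = g ^ (q - 1) * g := by
      rw [← pow_succ, Nat.sub_add_cancel hq.one_lt.le]
    rw [h1, h2, one_mul] at h3
    exact h3.symm
  refine ⟨hq, hq2, ?_, ?_⟩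
  · intro X hX
    rw [Subgroup.mem_center_iff] at hX
    have hfix := fix_center hrich X (fun γ => (hX _).symm)
    have hcen : ∀ x, X.right x * x⁻¹ ∈ Subgroup.center P := by
      intro x
      have h1 := congrArg SemidirectProduct.right (hX (SemidirectProduct.inr (MulAut.conj x)))
      rw [SemidirectProduct.mul_right, SemidirectProduct.mul_right,
        SemidirectProduct.right_inr] at h1
      have h2 : X.right * MulAut.conj x * X.right⁻¹ = MulAut.conj x := by
        rw [← h1, mul_assoc, mul_inv_cancel, mul_one]
      rw [conj_aut] at h2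
      refine central_of_conj ?_
      rw [map_mul, h2, map_inv, mul_inv_cancel]
    have hpow : ∀ k : ℕ, (X ^ k).left = X.left ^ k := by
      intro k
      induction k with
      | zero => simp
      | succ k ih =>
        rw [pow_succ, SemidirectProduct.mul_left, psi_pow_right, ih, map_pow,
          gamAct_eq_one _ hfix, one_pow, MulAut.one_apply, pow_succ]
    refine SemidirectProduct.ext ?_ ?_
    · rw [hpow, hgexp]; rfl
    · rw [psi_pow_right, pow_of_central _ hfix hcen hexp]; rfl
  · intro N hN hcard
    have hgq : ∀ g ∈ N, g ^ q = 1 := by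
      intro g hg
      have h1 : (⟨g, hg⟩ : N) ^ q = 1 := by rw [← hcard]; exact pow_card_eq_one'
      exact congrArg Subtype.val h1
    -- (i)
    have hi : ∀ g ∈ N, g.right = 1 → g = 1 := by
      intro g hg hr
      have h1 : g = SemidirectProduct.inl g.left := by
        refine SemidirectProduct.ext ?_ ?_
        · rw [SemidirectProduct.left_inl]
        · rw [SemidirectProduct.right_inl, hr]
      have h2 : g ^ (q - 1) = 1 := by
        rw [h1, ← map_pow, hgexp, map_one]
      exact hone g (hgq g hg) h2
    -- (ii)
    have hii : ∀ g ∈ N, ∀ z ∈ Subgroup.center P, g.right z = z := by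
      intro g hg
      refine fix_center hrich g fun γ => ?_
      have h1 : g * SemidirectProduct.inl γ * g⁻¹ * (SemidirectProduct.inl γ)⁻¹ ∈ N := by
        have h2 : SemidirectProduct.inl γ * g⁻¹ * (SemidirectProduct.inl γ)⁻¹ ∈ N :=
          hN.conj_mem _ (N.inv_mem hg) _
        have h3 := N.mul_mem hg h2
        have h4 : g * SemidirectProduct.inl γ * g⁻¹ * (SemidirectProduct.inl γ)⁻¹
            = g * (SemidirectProduct.inl γ * g⁻¹ * (SemidirectProduct.inl γ)⁻¹) := by group
        rw [h4]; exact h3
      have h2 : (g * SemidirectProduct.inl γ * g⁻¹ * (SemidirectProduct.inl γ)⁻¹).right = 1 := by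
        simp
      have h3 := hi _ h1 h2
      exact mul_inv_eq_iff_eq_mul.1 (mul_inv_eq_one.1 h3)
    -- (iii)
    have hiii : ∀ g ∈ N, ∀ x : P,
        (SemidirectProduct.inr (MulAut.conj (g.right x * x⁻¹)) : Psi n P) ∈ N := by
      intro g hg x
      have h1 : g * SemidirectProduct.inr (MulAut.conj x) * g⁻¹
          * (SemidirectProduct.inr (MulAut.conj x))⁻¹ ∈ N := by
        have h2 : SemidirectProduct.inr (MulAut.conj x) * g⁻¹
            * (SemidirectProduct.inr (MulAut.conj x))⁻¹ ∈ N :=
          hN.conj_mem _ (N.inv_mem hg) _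
        have h3 := N.mul_mem hg h2
        have h4 : g * SemidirectProduct.inr (MulAut.conj x) * g⁻¹
            * (SemidirectProduct.inr (MulAut.conj x))⁻¹
            = g * (SemidirectProduct.inr (MulAut.conj x) * g⁻¹
              * (SemidirectProduct.inr (MulAut.conj x))⁻¹) := by group
        rw [h4]; exact h3
      have h5 : g * SemidirectProduct.inr (MulAut.conj x) * g⁻¹
          * (SemidirectProduct.inr (MulAut.conj x))⁻¹
          = SemidirectProduct.inr (MulAut.conj (g.right x * x⁻¹)) := by
        have ha := gamAct_eq_one (n := n) g.right (hii g hg)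
        have hk := gamAct_eq_one (n := n) (MulAut.conj x) (conj_fix_center x)
        have ha' : gamAct n P g.right⁻¹ = 1 := by rw [map_inv, ha, inv_one]
        refine SemidirectProduct.ext ?_ ?_
        · rw [← map_inv (SemidirectProduct.inr : MulAut P →* Psi n P), SemidirectProduct.left_inr,
            SemidirectProduct.mul_left, SemidirectProduct.left_inr, map_one, mul_one,
            SemidirectProduct.mul_left, SemidirectProduct.mul_left, SemidirectProduct.left_inr,
            map_one, mul_one, SemidirectProduct.mul_right, SemidirectProduct.right_inr, map_mul,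
            ha, hk, SemidirectProduct.inv_left, ha', one_mul, MulAut.one_apply,
            MulAut.one_apply, mul_inv_cancel]
        · rw [← map_inv (SemidirectProduct.inr : MulAut P →* Psi n P), SemidirectProduct.right_inr,
            SemidirectProduct.mul_right, SemidirectProduct.right_inr,
            SemidirectProduct.mul_right, SemidirectProduct.mul_right,
            SemidirectProduct.right_inr, SemidirectProduct.inv_right, conj_aut, map_mul,
            map_inv]
      rw [h5] at h1; exact h1
    by_cases hA : ∀ g ∈ N, ∀ x : P, MulAut.conj (g.right x * x⁻¹) = 1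
    · -- all of `N` consists of central automorphisms
      have h1 : ∀ g ∈ N, g = 1 := by
        intro g hg
        refine hi g hg ?_
        have h2 := pow_of_central g.right (hii g hg) (fun x => central_of_conj (hA g hg x)) hexp
        have h3 : g.right ^ q = 1 := by
          rw [← psi_pow_right, hgq g hg]; rfl
        exact hone _ h3 h2
      have h2 : N = ⊥ := (Subgroup.eq_bot_iff_forall N).2 h1
      rw [h2, Subgroup.card_bot] at hcard
      exact hq.one_lt.ne hcard
    · push Not at hA
      obtain ⟨g, hg, x, hy⟩ := hA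
      let y : P := g.right x * x⁻¹
      have hyN : (SemidirectProduct.inr (MulAut.conj y) : Psi n P) ∈ N := hiii g hg x
      have hy1 : MulAut.conj y ≠ 1 := hy
      have hyq : MulAut.conj (y ^ q) = 1 := by
        have h1 := hgq _ hyN
        rw [← map_pow, ← map_pow] at h1
        have h2 := congrArg SemidirectProduct.right h1
        rw [SemidirectProduct.right_inr] at h2
        exact h2
      have hyc := central_of_conj hyq
      let s : P := y ^ (q - 1)
      have hsq : s ^ q = 1 := by
        show (y ^ (q - 1)) ^ q = 1
        rw [← pow_mul, mul_comm, pow_mul, hexp _ hyc]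
      have hs1 : MulAut.conj s ≠ 1 := by
        intro h1
        have h2 : MulAut.conj y ^ (q - 1) = 1 := by rw [← map_pow]; exact h1
        have h3 : MulAut.conj y ^ q = 1 := by rw [← map_pow]; exact hyq
        exact hy1 (hone _ h3 h2)
      have hsne : s ≠ 1 := by
        intro h1
        exact hs1 (by rw [h1, map_one])
      have hord : orderOf s = q := orderOf_eq_prime hsq hsne
      have hsN : (SemidirectProduct.inr (MulAut.conj s) : Psi n P) ∈ N := by
        have h1 := N.pow_mem hyN (q - 1)
        rw [← map_pow, ← map_pow] at h1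
        exact h1
      refine hnor (Subgroup.zpowers s) ?_ (by rw [Nat.card_zpowers, hord])
      constructor
      intro t ht p
      obtain ⟨k, hk⟩ := Subgroup.mem_zpowers_iff.1 ht
      have h1 : p * s * p⁻¹ ∈ Subgroup.zpowers s := by
        have h2 : (SemidirectProduct.inr (MulAut.conj (p * s * p⁻¹)) : Psi n P) ∈ N := by
          have h3 := hN.conj_mem _ hsN (SemidirectProduct.inr (MulAut.conj p))
          rw [← map_inv, ← map_mul, ← map_mul, ← map_inv, ← map_mul, ← map_mul] at h3
          exact h3
        have h3 : (⟨_, h2⟩ : N) ∈ Subgroup.zpowers (⟨_, hsN⟩ : N) := by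
          refine mem_zpowers_of_prime_card hcard ?_
          intro h4
          have h5 := congrArg Subtype.val h4
          have h6 := congrArg SemidirectProduct.right h5
          exact hs1 h6
        obtain ⟨j, hj⟩ := Subgroup.mem_zpowers_iff.1 h3
        have h4 : (SemidirectProduct.inr (MulAut.conj s) : Psi n P) ^ j
            = SemidirectProduct.inr (MulAut.conj (p * s * p⁻¹)) := by
          have h5 := congrArg Subtype.val hj
          simpa using h5
        rw [← map_zpow, ← map_zpow] at h4
        have h5 := congrArg SemidirectProduct.right h4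
        rw [SemidirectProduct.right_inr, SemidirectProduct.right_inr] at h5
        have hz : p * s * p⁻¹ * (s ^ j)⁻¹ ∈ Subgroup.center P := by
          refine central_of_conj ?_
          rw [map_mul, map_inv, h5, mul_inv_cancel]
        have hzc := Subgroup.mem_center_iff.1 hz
        have he : p * s * p⁻¹ = (p * s * p⁻¹ * (s ^ j)⁻¹) * s ^ j := by group
        have heq : (p * s * p⁻¹) ^ q = 1 := by
          rw [conj_pow, hsq]; group
        have hsj : (s ^ j) ^ q = 1 := by
          rw [← zpow_natCast, ← zpow_mul, mul_comm, zpow_mul, zpow_natCast, hsq, one_zpow]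
        have hzq : (p * s * p⁻¹ * (s ^ j)⁻¹) ^ q = 1 := by
          have h6 : ((p * s * p⁻¹ * (s ^ j)⁻¹) * s ^ j) ^ q
              = (p * s * p⁻¹ * (s ^ j)⁻¹) ^ q * (s ^ j) ^ q :=
            Commute.mul_pow (hzc (s ^ j)).symm q
          rw [← he, heq, hsj, mul_one] at h6
          exact h6.symm
        have hz1 := hone _ hzq (hexp _ hz)
        rw [he, hz1, one_mul]
        exact Subgroup.zpow_mem_zpowers s j
      have h2 : p * t * p⁻¹ = (p * s * p⁻¹) ^ k := by rw [← hk, conj_zpow]
      rw [h2]
      exact Subgroup.zpow_mem _ h1 k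

end gen

end Pool.Agent.Helper38.AutTower
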