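import Pool.Agent.Helper38.AutAdm

/-!
# Orders
-/

set_option autoImplicit false

namespace Pool.Agent.Helper38.AutTower

open scoped IsMulCommutative

/-- A generator of the units modulo a prime. -/
theorem exists_gen {q : ℕ} (hq : q.Prime) :
    ∃ g : (ZMod q)ˣ, (∀ x, x ∈ Subgroup.zpowers g) ∧ orderOf g = q - 1 := by
  have : Fact q.Prime := ⟨hq⟩
  obtain ⟨g, hg⟩ := IsCyclic.exists_generator (α := (ZMod q)ˣ)
  refine ⟨g, hg, ?_⟩
  rw [orderOf_eq_card_of_forall_mem_zpowers hg, Nat.card_eq_fintype_card, ZMod.card_units]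

/-- The homomorphisms from the units modulo a prime. -/
theorem hom_equiv {q : ℕ} (hq : q.Prime) {A : Type} [CommGroup A] (hA : ∀ z : A, z ^ (q - 1) = 1) :
    Nonempty (((ZMod q)ˣ →* A) ≃* A) := by
  obtain ⟨g, hg, hord⟩ := exists_gen hq
  have hdvd : ∀ z : A, orderOf z ∣ orderOf g := fun z => by
    rw [hord]; exact orderOf_dvd_of_pow_eq_one (hA z)
  refine ⟨MulEquiv.ofBijective (MonoidHom.eval g : ((ZMod q)ˣ →* A) →* A) ⟨?_, ?_⟩⟩
  · intro f f' h
    exact (MonoidHom.eq_iff_eq_on_generator hg f f').2 h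
  · intro z
    exact ⟨monoidHomOfForallMemZpowers hg (hdvd z),
      monoidHomOfForallMemZpowers_apply_gen hg (hdvd z)⟩

/-- Richness: every central element is a value. -/
theorem rich {n q : ℕ} (hn : n ≠ 0) (hqn : q ∣ n) {P : Type} [Group P] (h : Adm q P) :
    ∀ z ∈ Subgroup.center P, ∃ (γ : Gam n P) (w : (ZMod n)ˣ), (γ w : P) = z := by
  intro z hz
  have : NeZero n := ⟨hn⟩
  obtain ⟨g, hg, hord⟩ := exists_gen h.1
  have hdvd : orderOf (⟨z, hz⟩ : Subgroup.center P) ∣ orderOf g := by
    rw [hord]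
    refine orderOf_dvd_of_pow_eq_one (Subtype.ext ?_)
    rw [SubmonoidClass.coe_pow]
    exact h.2.2.1 z hz
  obtain ⟨w, hw⟩ := ZMod.unitsMap_surjective hqn g
  refine ⟨(monoidHomOfForallMemZpowers hg hdvd).comp (ZMod.unitsMap hqn), w, ?_⟩
  rw [MonoidHom.comp_apply, hw, monoidHomOfForallMemZpowers_apply_gen]

theorem center_exp {q : ℕ} {P : Type} [Group P] (h : Adm q P) :
    ∀ z : Subgroup.center P, z ^ (q - 1) = 1 := fun z => Subtype.ext (by
  rw [SubmonoidClass.coe_pow]
  exact h.2.2.1 z z.2)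

/-- homomorphisms on a product -/
def homProd (M N A : Type) [Group M] [Group N] [CommGroup A] :
    (M × N →* A) ≃ (M →* A) × (N →* A) where
  toFun f := (f.comp (MonoidHom.inl M N), f.comp (MonoidHom.inr M N))
  invFun p := p.1.coprod p.2
  left_inv f := MonoidHom.coprod_unique f
  right_inv p := by simp

section inn

variable (P : Type) [Group P]

instance finiteMulAut [Finite P] : Finite (MulAut P) :=
  Finite.of_injective (fun a : MulAut P => (a : P → P)) (fun _ _ h => MulEquiv.ext (congrFun h))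

theorem ker_conj : (MulAut.conj : P →* MulAut P).ker = Subgroup.center P := by
  ext x
  rw [MonoidHom.mem_ker]
  refine ⟨central_of_conj, fun hx => ?_⟩
  refine MulEquiv.ext fun y => ?_
  rw [MulAut.conj_apply, MulAut.one_apply, ← Subgroup.mem_center_iff.1 hx y, mul_assoc,
    mul_inv_cancel, mul_one]

theorem card_mulAut [Finite P] :
    Nat.card (Subgroup.center P) * Nat.card (MulAut P) = Nat.card P * outCard P := by
  have h1 := Subgroup.card_mul_index (MulAut.conj : P →* MulAut P).range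
  have h2 := Subgroup.card_mul_index (MulAut.conj : P →* MulAut P).ker
  rw [Subgroup.index_ker, ker_conj] at h2
  rw [← h1, ← mul_assoc, h2]
  rfl

theorem outCard_pos [Finite P] : 0 < outCard P :=
  Nat.pos_of_ne_zero Subgroup.FiniteIndex.index_ne_zero

theorem inner_of_outCard (h : outCard P = 1) (a : MulAut P) : ∃ x, a = MulAut.conj x := by
  have h1 : (MulAut.conj : P →* MulAut P).range = ⊤ := Subgroup.index_eq_one.1 h
  have h2 : a ∈ (MulAut.conj : P →* MulAut P).range := by rw [h1]; exact Subgroup.mem_top a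
  obtain ⟨x, hx⟩ := h2
  exact ⟨x, hx.symm⟩

theorem outCard_of_inner (h : ∀ a : MulAut P, ∃ x, a = MulAut.conj x) : outCard P = 1 := by
  refine Subgroup.index_eq_one.2 ?_
  rw [eq_top_iff]
  intro a _
  obtain ⟨x, hx⟩ := h a
  exact ⟨x, hx.symm⟩

end inn

theorem card_psi {n : ℕ} {P : Type} [Group P] :
    Nat.card (Psi n P) = Nat.card (Gam n P) * Nat.card (MulAut P) := SemidirectProduct.card

instance finitePsi {n : ℕ} [NeZero n] {P : Type} [Group P] [Finite P] : Finite (Psi n P) := by
  have h1 : Finite (Gam n P) := DFunLike.finite _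
  exact Finite.of_equiv _ (SemidirectProduct.equivProd (φ := gamAct n P)).symm

/-- There are infinitely many admissible primes. -/
theorem infinite_adm (P : Type) [Group P] [Finite P] : {q | Adm q P}.Infinite := by
  rw [Set.infinite_iff_exists_gt]
  intro m
  obtain ⟨q, hq, hlt, hmod⟩ := Nat.exists_prime_gt_modEq_one (max m (max 2 (Nat.card P)))
    (k := Nat.card P) Nat.card_pos.ne'
  have h1 : m < q := lt_of_le_of_lt (le_max_left _ _) hlt
  have h2 : 2 < q := lt_of_le_of_lt ((le_max_left _ _).trans (le_max_right _ _)) hlt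
  have h3 : Nat.card P < q := lt_of_le_of_lt ((le_max_right _ _).trans (le_max_right _ _)) hlt
  refine ⟨q, ⟨hq, h2.ne', ?_, ?_⟩, h1⟩
  · intro z _
    have h4 : Nat.card P ∣ q - 1 := (Nat.modEq_iff_dvd' hq.one_lt.le).1 hmod.symm
    obtain ⟨k, hk⟩ := h4
    rw [hk, pow_mul, pow_card_eq_one', one_pow]
  · intro N _ hN
    have h4 : Nat.card N ≤ Nat.card P := Subgroup.card_le_card_group N
    omega

end Pool.Agent.Helper38.AutTower
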