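import Mathlib

/-!
# The definitions used in the statement
-/

set_option autoImplicit false

namespace Pool.Agent.Helper38.AutTower

open scoped IsMulCommutative

/-- The holomorph of the cyclic group `Z/n`, as the group of the affine maps `x ↦ u x + a` of
`Z/n`; `u` runs through the units of `Z/n`. -/
@[ext] structure Hol (n : ℕ) where
  /-- the translation part -/
  a : ZMod n
  /-- the linear part -/
  u : (ZMod n)ˣ

namespace Hol

variable {n : ℕ}

instance : Mul (Hol n) := ⟨fun x y => ⟨x.a + (x.u : ZMod n) * y.a, x.u * y.u⟩⟩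

instance : One (Hol n) := ⟨⟨0, 1⟩⟩

instance : Inv (Hol n) := ⟨fun x => ⟨-(((x.u⁻¹ : (ZMod n)ˣ) : ZMod n) * x.a), x.u⁻¹⟩⟩

@[simp] theorem mul_a (x y : Hol n) : (x * y).a = x.a + (x.u : ZMod n) * y.a := rfl
@[simp] theorem mul_u (x y : Hol n) : (x * y).u = x.u * y.u := rfl
@[simp] theorem one_a : (1 : Hol n).a = 0 := rfl
@[simp] theorem one_u : (1 : Hol n).u = 1 := rfl
@[simp] theorem inv_a (x : Hol n) : (x⁻¹).a = -(((x.u⁻¹ : (ZMod n)ˣ) : ZMod n) * x.a) := rfl
@[simp] theorem inv_u (x : Hol n) : (x⁻¹).u = x.u⁻¹ := rfl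

instance : Group (Hol n) := Group.ofLeftAxioms
  (by
    intro x y z
    ext
    · simp only [mul_a, mul_u, Units.val_mul]; ring
    · simp only [mul_u, mul_assoc])
  (by
    intro x
    ext
    · simp
    · simp)
  (by
    intro x
    ext
    · simp
    · simp)

end Hol

/-- the group of the homomorphisms from the units of `Z/n` to the centre of `P` -/
abbrev Gam (n : ℕ) (P : Type) [Group P] : Type := (ZMod n)ˣ →* Subgroup.center P

/-- an automorphism of `P` acts on the homomorphisms to the centre -/
def gamEquiv (n : ℕ) {P : Type} [Group P] (δ : MulAut P) : MulAut (Gam n P) where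
  toFun γ := (Subgroup.centerCongr δ).toMonoidHom.comp γ
  invFun γ := (Subgroup.centerCongr δ).symm.toMonoidHom.comp γ
  left_inv γ := by ext w; simp
  right_inv γ := by ext w; simp
  map_mul' γ γ' := by ext w; simp

theorem gamEquiv_apply (n : ℕ) {P : Type} [Group P] (δ : MulAut P) (γ : Gam n P) (w : (ZMod n)ˣ) :
    ((gamEquiv n δ γ w : Subgroup.center P) : P) = δ (γ w) := rfl

/-- the action of `Aut P` on the homomorphisms to the centre -/
def gamAct (n : ℕ) (P : Type) [Group P] : MulAut P →* MulAut (Gam n P) where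
  toFun δ := gamEquiv n δ
  map_one' := by ext γ w; rfl
  map_mul' δ δ' := by ext γ w; rfl

theorem gamAct_apply (n : ℕ) {P : Type} [Group P] (δ : MulAut P) (γ : Gam n P) (w : (ZMod n)ˣ) :
    ((gamAct n P δ γ w : Subgroup.center P) : P) = δ (γ w) := rfl

/-- `Psi n P` is the semidirect product of `Hom ((Z/n)ˣ, Z(P))` with `Aut P`. -/
abbrev Psi (n : ℕ) (P : Type) [Group P] : Type := Gam n P ⋊[gamAct n P] MulAut P

/-- The prime `q` is admissible for the group `P`: it is odd, the exponent of the centre of `P`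
divides `q - 1`, and `P` has no normal subgroup of order `q`. -/
def Adm (q : ℕ) (P : Type) [Group P] : Prop :=
  q.Prime ∧ q ≠ 2 ∧ (∀ z ∈ Subgroup.center P, z ^ (q - 1) = 1) ∧
    ∀ N : Subgroup P, N.Normal → Nat.card N ≠ q

/-- the index of the inner automorphisms: the order of the outer automorphism group -/
noncomputable def outCard (P : Type) [Group P] : ℕ := (MulAut.conj : P →* MulAut P).range.index

/-- A group is complete if its centre is trivial and all its automorphisms are inner. -/
def IsComplete (Q : Type) [Group Q] : Prop :=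
  Subgroup.center Q = ⊥ ∧ ∀ a : MulAut Q, ∃ x, a = MulAut.conj x

/-- `A` is the automorphism tower of `G`: `A 0 = G` and `A (i + 1) = Aut (A i)`. -/
def IsTower (A : ℕ → Type) [∀ i, Group (A i)] (G : Type) [Group G] : Prop :=
  Nonempty (A 0 ≃* G) ∧ ∀ i, Nonempty (A (i + 1) ≃* MulAut (A i))

/-- The groups `A i` take infinitely many isomorphism types (beyond every stage there is a group
which is not isomorphic to an earlier one). -/
def InfinitelyMany (A : ℕ → Type) [∀ i, Group (A i)] : Prop :=
  ∀ m : ℕ, ∃ n : ℕ, m < n ∧ ∀ k : ℕ, k ≤ m → IsEmpty (A n ≃* A k)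

end Pool.Agent.Helper38.AutTower
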