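import Pool.Agent.Helper38.AutDefs

/-!
# The holomorph of a cyclic group of odd order
-/

set_option autoImplicit false

namespace Pool.Agent.Helper38.AutTower

namespace Hol

variable {n : ℕ}

/-- as a set the holomorph is the product -/
def equivProd : Hol n ≃ ZMod n × (ZMod n)ˣ where
  toFun x := (x.a, x.u)
  invFun p := ⟨p.1, p.2⟩
  left_inv _ := rfl
  right_inv _ := rfl

instance [NeZero n] : Finite (Hol n) := Finite.of_equiv _ equivProd.symm

theorem card_hol : Nat.card (Hol n) = Nat.card (ZMod n) * Nat.card (ZMod n)ˣ := by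
  rw [Nat.card_congr equivProd, Nat.card_prod]

/-- The linear part is a homomorphism. -/
def lin : Hol n →* (ZMod n)ˣ where
  toFun x := x.u
  map_one' := rfl
  map_mul' _ _ := rfl

@[simp] theorem lin_apply (x : Hol n) : lin x = x.u := rfl

theorem mk_eq (b : ZMod n) (v : (ZMod n)ˣ) : (⟨b, v⟩ : Hol n) = ⟨b, 1⟩ * ⟨0, v⟩ := by
  ext <;> simp

theorem conj_trans (x : Hol n) (b : ZMod n) :
    x * ⟨b, 1⟩ * x⁻¹ = ⟨(x.u : ZMod n) * b, 1⟩ := by
  ext
  · simp only [mul_a, mul_u, inv_a, mul_one]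
    have h : (x.u : ZMod n) * -(((x.u⁻¹ : (ZMod n)ˣ) : ZMod n) * x.a) = -x.a := by
      rw [mul_neg, ← mul_assoc, Units.mul_inv, one_mul]
    rw [h]
    ring
  · simp

/-- The translations are self-centralising. -/
theorem u_eq_one_of_commute {x : Hol n} (h : x * ⟨1, 1⟩ = ⟨1, 1⟩ * x) : x.u = 1 := by
  have h1 := congrArg Hol.a h
  simp only [mul_a, mul_one, Units.val_one, one_mul] at h1
  have h2 : (x.u : ZMod n) = 1 := by
    have h3 : x.a + (x.u : ZMod n) = x.a + 1 := by rw [h1]; ring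
    exact add_left_cancel h3
  exact Units.ext h2

theorem trans_commute {x y : Hol n} (hx : x.u = 1) (hy : y.u = 1) : x * y = y * x := by
  ext
  · simp only [mul_a, hx, hy, Units.val_one, one_mul]; ring
  · simp [hx, hy]

/-- For odd `n` the holomorph has trivial centre. -/
theorem eq_one_of_central (hn : IsUnit (2 : ZMod n)) {x : Hol n} (h : ∀ y, x * y = y * x) :
    x = 1 := by
  have hu := u_eq_one_of_commute (h ⟨1, 1⟩)
  have h1 := congrArg Hol.a (h ⟨0, -1⟩)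
  simp only [mul_a, mul_zero, add_zero, Units.val_neg, Units.val_one, neg_mul, one_mul,
    zero_add] at h1
  have h2 : (2 : ZMod n) * x.a = 0 := by
    have h3 : x.a + x.a = 0 := by nth_rewrite 1 [h1]; ring
    rw [two_mul]; exact h3
  have h4 : x.a = 0 := by
    obtain ⟨w, hw⟩ := hn
    rw [← hw] at h2
    have h5 := congrArg (fun t => ((w⁻¹ : (ZMod n)ˣ) : ZMod n) * t) h2
    simpa [← mul_assoc] using h5
  ext
  · simpa using h4
  · simp [hu]

/-- Automorphisms which keep the translations are inner (`n` odd). -/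
theorem inner_of_trans [NeZero n] (hn : IsUnit (2 : ZMod n)) (α : MulAut (Hol n))
    (hα : ∀ x : Hol n, x.u = 1 → (α x).u = 1) (hα' : ∀ x : Hol n, x.u = 1 → (α⁻¹ x).u = 1) :
    ∃ h : Hol n, α = MulAut.conj h := by
  -- the effect on translations
  have hadd : ∀ b c : ZMod n, (α ⟨b + c, 1⟩).a = (α ⟨b, 1⟩).a + (α ⟨c, 1⟩).a := by
    intro b c
    have h1 : (⟨b + c, 1⟩ : Hol n) = ⟨b, 1⟩ * ⟨c, 1⟩ := by ext <;> simp
    rw [h1, map_mul]
    simp only [mul_a]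
    rw [hα ⟨b, 1⟩ rfl]
    simp
  let f : ZMod n →+ ZMod n := AddMonoidHom.mk' (fun b => (α ⟨b, 1⟩).a) hadd
  have hf : ∀ b : ZMod n, (α ⟨b, 1⟩).a = b * (α ⟨1, 1⟩).a := by
    intro b
    have h1 : f b = b * f 1 := by
      have h2 : f ((b.val : ℕ) • (1 : ZMod n)) = (b.val : ℕ) • f 1 := map_nsmul f _ _
      have h3 : ((b.val : ℕ) • (1 : ZMod n)) = b := by
        rw [nsmul_eq_mul, mul_one, ZMod.natCast_zmod_val]
      rw [h3, nsmul_eq_mul, ZMod.natCast_zmod_val] at h2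
      exact h2
    exact h1
  have hfull : ∀ b : ZMod n, α ⟨b, 1⟩ = ⟨b * (α ⟨1, 1⟩).a, 1⟩ := by
    intro b
    ext
    · exact hf b
    · rw [hα ⟨b, 1⟩ rfl]
  -- the multiplier is a unit
  have hv : ∃ v : (ZMod n)ˣ, (v : ZMod n) = (α ⟨1, 1⟩).a := by
    have h1 : ∃ b : ZMod n, b * (α ⟨1, 1⟩).a = 1 := by
      refine ⟨(α⁻¹ ⟨1, 1⟩).a, ?_⟩
      have h2 : α (α⁻¹ ⟨1, 1⟩) = ⟨1, 1⟩ := by
        rw [← MulAut.mul_apply, mul_inv_cancel, MulAut.one_apply]
      have h3 : (α⁻¹ ⟨1, 1⟩ : Hol n) = ⟨(α⁻¹ ⟨1, 1⟩).a, 1⟩ := by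
        ext
        · rfl
        · rw [hα' ⟨1, 1⟩ rfl]
      rw [h3, hfull] at h2
      exact congrArg Hol.a h2
    obtain ⟨b, hb⟩ := h1
    have h2 : IsUnit (α ⟨1, 1⟩).a := IsUnit.of_mul_eq_one b (by rw [mul_comm]; exact hb)
    exact ⟨h2.unit, h2.unit_spec⟩
  obtain ⟨v, hv⟩ := hv
  rw [← hv] at hfull
  -- the linear part is preserved
  have hlin : ∀ w : (ZMod n)ˣ, (α ⟨0, w⟩).u = w := by
    intro w
    have h1 : (⟨0, w⟩ : Hol n) * ⟨1, 1⟩ * (⟨0, w⟩ : Hol n)⁻¹ = ⟨(w : ZMod n) * 1, 1⟩ :=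
      conj_trans ⟨0, w⟩ 1
    have h2 := congrArg α h1
    rw [map_mul, map_mul, map_inv, hfull, hfull] at h2
    rw [conj_trans] at h2
    have h3 := congrArg Hol.a h2
    simp only [one_mul, mul_one] at h3
    have h4 : ((α ⟨0, w⟩).u : ZMod n) = (w : ZMod n) := by
      have h5 := congrArg (fun t => t * ((v⁻¹ : (ZMod n)ˣ) : ZMod n)) h3
      simpa [mul_assoc] using h5
    exact Units.ext h4
  -- the cocycle
  have hc : ∀ w w' : (ZMod n)ˣ,
      (α ⟨0, w * w'⟩).a = (α ⟨0, w⟩).a + (w : ZMod n) * (α ⟨0, w'⟩).a := by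
    intro w w'
    have h1 : (⟨0, w * w'⟩ : Hol n) = ⟨0, w⟩ * ⟨0, w'⟩ := by ext <;> simp
    rw [h1, map_mul, mul_a, hlin]
  obtain ⟨two, htwo⟩ := hn
  let t : ZMod n := ((two⁻¹ : (ZMod n)ˣ) : ZMod n) * (α ⟨0, -1⟩).a
  have ht : (2 : ZMod n) * t = (α ⟨0, -1⟩).a := by
    show (2 : ZMod n) * (((two⁻¹ : (ZMod n)ˣ) : ZMod n) * (α ⟨0, -1⟩).a) = _
    rw [← mul_assoc, ← htwo, Units.mul_inv, one_mul]
  have hcob : ∀ w : (ZMod n)ˣ, (α ⟨0, w⟩).a = t - (w : ZMod n) * t := by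
    intro w
    have h1 := hc (-1) w
    have h2 := hc w (-1)
    rw [mul_comm (-1 : (ZMod n)ˣ) w, h2] at h1
    simp only [Units.val_neg, Units.val_one, neg_mul, one_mul] at h1
    have h3 : (2 : ZMod n) * (α ⟨0, w⟩).a = 2 * (t - (w : ZMod n) * t) := by
      have h4 : (2 : ZMod n) * (α ⟨0, w⟩).a
          = (α ⟨0, -1⟩).a - (w : ZMod n) * (α ⟨0, -1⟩).a := by
        linear_combination h1
      rw [h4, ← ht]; ring
    have h5 := congrArg (fun s => ((two⁻¹ : (ZMod n)ˣ) : ZMod n) * s) h3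
    simp only [← mul_assoc] at h5
    rw [← htwo, Units.inv_mul] at h5
    simpa using h5
  refine ⟨⟨t, v⟩, ?_⟩
  ext x
  · have h1 : x = ⟨x.a, 1⟩ * ⟨0, x.u⟩ := by ext <;> simp
    conv_lhs => rw [h1, map_mul, hfull]
    simp only [mul_a, Units.val_one, one_mul, MulAut.conj_apply, inv_a, mul_u, Units.val_mul]
    rw [hcob]
    have h2 : (v : ZMod n) * (x.u : ZMod n) * -(((v⁻¹ : (ZMod n)ˣ) : ZMod n) * t)
        = -((x.u : ZMod n) * t) := by
      have h3 : (v : ZMod n) * ((v⁻¹ : (ZMod n)ˣ) : ZMod n) = 1 := Units.mul_inv v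
      linear_combination (-(x.u : ZMod n) * t) * h3
    rw [h2]; ring
  · have h1 : x = ⟨x.a, 1⟩ * ⟨0, x.u⟩ := by ext <;> simp
    conv_lhs => rw [h1, map_mul, hfull]
    simp only [mul_u, one_mul, MulAut.conj_apply, inv_u]
    rw [hlin, mul_comm v x.u, mul_assoc, mul_inv_cancel, mul_one]

end Hol

end Pool.Agent.Helper38.AutTower
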