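import Pool.Agent.Helper38.AutCard

/-!
# Squarefree numbers
-/

set_option autoImplicit false

namespace Pool.Agent.Helper38.AutTower

open scoped IsMulCommutative

theorem card_hom_sq (n : ℕ) : ∀ (_ : Squarefree n) {A : Type} [CommGroup A]
    (_ : ∀ q ∈ n.primeFactors, ∀ z : A, z ^ (q - 1) = 1),
    Nat.card ((ZMod n)ˣ →* A) = Nat.card A ^ n.primeFactors.card := by
  induction n using Nat.recOnPosPrimePosCoprime with
  | prime_pow p k hp hk =>
    intro hs A _ hA
    have hk1 : k = 1 := by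
      rcases (Nat.squarefree_pow_iff hp.ne_one hk.ne').1 hs with ⟨_, h⟩
      exact h
    subst hk1
    rw [pow_one] at hA ⊢
    obtain ⟨e⟩ := hom_equiv hp (A := A) (hA p (by rw [Nat.Prime.primeFactors hp]; simp))
    rw [Nat.Prime.primeFactors hp, Finset.card_singleton, pow_one]
    exact Nat.card_congr e.toEquiv
  | zero =>
    intro hs
    exact absurd hs not_squarefree_zero
  | one =>
    intro _ A _ _
    rw [Nat.primeFactors_one, Finset.card_empty, pow_zero]
    have : Subsingleton (ZMod 1)ˣ := inferInstance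
    refine Nat.card_eq_one_iff_unique.2 ⟨⟨fun f g => ?_⟩, ⟨1⟩⟩
    refine MonoidHom.ext fun x => ?_
    rw [Subsingleton.elim x 1, map_one, map_one]
  | coprime a b ha hb hcop iha ihb =>
    intro hs A _ hA
    have hs' := (Nat.squarefree_mul hcop).1 hs
    have ha0 : a ≠ 0 := by omega
    have hb0 : b ≠ 0 := by omega
    have hpf : (a * b).primeFactors = a.primeFactors ∪ b.primeFactors :=
      Nat.primeFactors_mul ha0 hb0
    let e : (ZMod (a * b))ˣ ≃* (ZMod a)ˣ × (ZMod b)ˣ :=
      (Units.mapEquiv (ZMod.chineseRemainder hcop).toMulEquiv).trans MulEquiv.prodUnits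
    have e1 : ((ZMod (a * b))ˣ →* A) ≃ ((ZMod a)ˣ × (ZMod b)ˣ →* A) :=
      { toFun := fun f => f.comp e.symm.toMonoidHom
        invFun := fun f => f.comp e.toMonoidHom
        left_inv := fun f => by ext x; simp
        right_inv := fun f => by
          refine MonoidHom.ext fun x => ?_
          show f (e (e.symm x)) = f x
          rw [MulEquiv.apply_symm_apply] }
    rw [Nat.card_congr (e1.trans (homProd _ _ _)), Nat.card_prod,
      iha hs'.1 (fun q hq => hA q (by rw [hpf]; exact Finset.mem_union_left _ hq)),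
      ihb hs'.2 (fun q hq => hA q (by rw [hpf]; exact Finset.mem_union_right _ hq)),
      ← pow_add, hpf, Finset.card_union_of_disjoint hcop.disjoint_primeFactors]

/-- Sums of elements of prime order. -/
theorem closure_sq {n : ℕ} (hn : Squarefree n) (K : AddSubgroup (ZMod n))
    (hK : ∀ q ∈ n.primeFactors, ∀ b : ZMod n, (q : ZMod n) * b = 0 → b ∈ K) : K = ⊤ := by
  have hn0 : n ≠ 0 := hn.ne_zero
  obtain ⟨d, hd⟩ := Int.subgroup_cyclic (K.comap (Int.castAddHom (ZMod n)))
  have hmem : ∀ x : ℤ, (x : ZMod n) ∈ K ↔ d ∣ x := by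
    intro x
    have h1 : x ∈ K.comap (Int.castAddHom (ZMod n)) ↔ d ∣ x := by
      rw [hd, AddSubgroup.mem_closure_singleton]
      constructor
      · rintro ⟨k, hk⟩
        exact ⟨k, by rw [← hk, smul_eq_mul, mul_comm]⟩
      · rintro ⟨k, hk⟩
        exact ⟨k, by rw [hk, smul_eq_mul, mul_comm]⟩
    rw [← h1, AddSubgroup.mem_comap]
    rfl
  have hdn : d ∣ n := by
    rw [← hmem]
    simp [K.zero_mem]
  have hd1 : d.natAbs = 1 := by
    by_contra hne
    obtain ⟨p, hp, hpd⟩ := Nat.exists_prime_and_dvd hne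
    have hpn : p ∣ n := hpd.trans (Int.natAbs_dvd_natAbs.2 hdn)
    obtain ⟨m, hm⟩ := hpn
    have h1 : ((m : ℕ) : ZMod n) ∈ K := by
      refine hK p (Nat.mem_primeFactors.2 ⟨hp, ⟨m, hm⟩, hn0⟩) _ ?_
      rw [← Nat.cast_mul, ← hm, ZMod.natCast_self]
    have h2 : d ∣ (m : ℤ) := by
      rw [← hmem]
      exact_mod_cast h1
    have h3 : p ∣ m := hpd.trans (Int.natAbs_dvd_natAbs.2 h2)
    obtain ⟨l, hl⟩ := h3
    have h4 : p * p ∣ n := ⟨l, by rw [hm, hl]; ring⟩
    exact hp.one_lt.ne' (Nat.isUnit_iff.1 (hn p h4))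
  rw [eq_top_iff]
  intro x _
  have h1 : ((x.cast : ℤ) : ZMod n) ∈ K := by
    rw [hmem]
    exact (Int.isUnit_iff_natAbs_eq.2 hd1).dvd
  rwa [ZMod.intCast_zmod_cast] at h1

/-- The automorphism group of the product. -/
theorem aut_equiv_sq {n : ℕ} (hn : Squarefree n) {P : Type} [Group P] [Finite P]
    (hadm : ∀ q ∈ n.primeFactors, Adm q P) :
    Nonempty (MulAut (Hol n × P) ≃* Hol n × Psi n P) := by
  have hn0 : n ≠ 0 := hn.ne_zero
  have : NeZero n := ⟨hn0⟩
  have h2 : IsUnit (2 : ZMod n) := by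
    refine isUnit_two (Nat.not_even_iff_odd.1 fun h => ?_)
    exact (hadm 2 (Nat.mem_primeFactors.2 ⟨Nat.prime_two, h.two_dvd, hn0⟩)).2.1 rfl
  have htr : ∀ (φ : MulAut (Hol n × P)) (x : Hol n), x.u = 1 →
      (φ (x, 1)).1.u = 1 ∧ (φ (x, 1)).2 = 1 := by
    intro φ x hx
    let K : AddSubgroup (ZMod n) :=
      { carrier := {b | (φ (⟨b, 1⟩, 1)).1.u = 1 ∧ (φ (⟨b, 1⟩, 1)).2 = 1}
        zero_mem' := by
          have h5 : ((⟨0, 1⟩, 1) : Hol n × P) = 1 := rfl
          show (φ (⟨0, 1⟩, 1)).1.u = 1 ∧ (φ (⟨0, 1⟩, 1)).2 = 1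
          rw [h5, map_one]
          exact ⟨rfl, rfl⟩
        add_mem' := by
          intro b c hb hc
          have h5 : ((⟨b + c, 1⟩, 1) : Hol n × P) = (⟨b, 1⟩, 1) * (⟨c, 1⟩, 1) := by
            refine Prod.ext ?_ ?_
            · ext
              · simp
              · simp
            · simp
          show (φ (⟨b + c, 1⟩, 1)).1.u = 1 ∧ (φ (⟨b + c, 1⟩, 1)).2 = 1
          rw [h5, map_mul]
          refine ⟨?_, ?_⟩
          · rw [Prod.fst_mul, Hol.mul_u, hb.1, hc.1, mul_one]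
          · rw [Prod.snd_mul, hb.2, hc.2, mul_one]
        neg_mem' := by
          intro b hb
          have h5 : ((⟨-b, 1⟩, 1) : Hol n × P) = ((⟨b, 1⟩, 1) : Hol n × P)⁻¹ := by
            refine Prod.ext ?_ ?_
            · ext
              · simp
              · simp
            · simp
          show (φ (⟨-b, 1⟩, 1)).1.u = 1 ∧ (φ (⟨-b, 1⟩, 1)).2 = 1
          rw [h5, map_inv]
          refine ⟨?_, ?_⟩
          · rw [Prod.fst_inv, Hol.inv_u, hb.1, inv_one]
          · rw [Prod.snd_inv, hb.2, inv_one] }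
    have hK : K = ⊤ := closure_sq hn K fun q hq b hb =>
      trans_image (hadm q hq).1 (hadm q hq).2.2.2 φ b hb
    have h6 : x.a ∈ K := by rw [hK]; exact AddSubgroup.mem_top _
    have h7 : x = ⟨x.a, 1⟩ := by ext <;> simp [hx]
    rw [h7]
    exact h6
  have hbij : Function.Bijective (thetaHom n P) :=
    ⟨thetaHom_injective h2, fun φ => exists_theta h2 φ (htr φ) (htr φ⁻¹)⟩
  exact ⟨(MulEquiv.ofBijective (thetaHom n P) hbij).symm⟩

/-- Orders. -/
theorem card_psi_sq {n : ℕ} (hn : Squarefree n) (hn1 : n ≠ 1) {P : Type} [Group P] [Finite P]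
    (hadm : ∀ q ∈ n.primeFactors, Adm q P) :
    Nat.card (Psi n P) = Nat.card P
      * (Nat.card (Subgroup.center P) ^ (n.primeFactors.card - 1) * outCard P) := by
  have h1 : 0 < n.primeFactors.card := by
    rw [Finset.card_pos, Nat.nonempty_primeFactors]
    have := Nat.pos_of_ne_zero hn.ne_zero
    omega
  obtain ⟨r, hr⟩ : ∃ r, n.primeFactors.card = r + 1 := ⟨n.primeFactors.card - 1, by omega⟩
  rw [card_psi, card_hom_sq n hn (fun q hq => center_exp (hadm q hq)), hr, pow_succ, mul_assoc,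
    card_mulAut, Nat.add_sub_cancel]
  ring

end Pool.Agent.Helper38.AutTower
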