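import Pool.Agent.Helper38.AutStable
import Pool.Agent.Helper38.AutSq

/-!
# Automorphism towers
-/

set_option autoImplicit false

namespace Pool.Agent.Helper38.AutTower

open scoped IsMulCommutative

/-- a bundled finite group -/
structure FG where
  /-- the carrier -/
  α : Type
  /-- the group structure -/
  grp : Group α
  /-- finiteness -/
  fin : Finite α

attribute [instance] FG.grp FG.fin

/-- one step -/
def FG.psi (n : ℕ) [NeZero n] (G : FG) : FG := ⟨Psi n G.α, inferInstance, inferInstance⟩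

/-- the tower of the second factors -/
def FG.seq (n : ℕ) [NeZero n] (G : FG) : ℕ → FG
  | 0 => G
  | i + 1 => FG.psi n (FG.seq n G i)

/-- one step of the automorphism tower -/
def FG.aut (G : FG) : FG := ⟨MulAut G.α, inferInstance, inferInstance⟩

/-- the automorphism tower -/
def FG.autSeq (G : FG) : ℕ → FG
  | 0 => G
  | i + 1 => FG.aut (FG.autSeq G i)

/-- The automorphism tower exists. -/
theorem exists_tower (G : Type) [hG : Group G] [hF : Finite G] :
    ∃ (A : ℕ → Type) (_ : ∀ i, Group (A i)), IsTower A G :=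
  ⟨fun i => ((⟨G, hG, hF⟩ : FG).autSeq i).α, fun i => ((⟨G, hG, hF⟩ : FG).autSeq i).grp,
    ⟨MulEquiv.refl _⟩, fun _ => ⟨MulEquiv.refl _⟩⟩

theorem infinitelyMany_of_card (A : ℕ → Type) [∀ i, Group (A i)] (d : ℕ) (hd : 0 < d)
    (hpos : ∀ i, 0 < Nat.card (A i))
    (hdvd : ∀ i, Nat.card (A i) ∣ Nat.card (A (i + 1)))
    (h2 : ∀ i, 2 * Nat.card (A i) ≤ Nat.card (A (i + d))) : InfinitelyMany A := by
  have hmono : Monotone (fun i => Nat.card (A i)) :=
    monotone_nat_of_le_succ fun i => Nat.le_of_dvd (hpos _) (hdvd i)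
  intro m
  refine ⟨m + d, by omega, fun k hk => ⟨fun e => ?_⟩⟩
  have h3 : Nat.card (A (m + d)) = Nat.card (A k) := Nat.card_congr e.toEquiv
  have h4 : Nat.card (A k) ≤ Nat.card (A m) := hmono hk
  have h5 := h2 m
  have h6 := hpos m
  omega

theorem tower_const (A : ℕ → Type) [∀ i, Group (A i)] {G : Type} [Group G] (hA : IsTower A G)
    (N : ℕ) (h : Nonempty (A (N + 1) ≃* A N)) : ∀ i, N ≤ i → Nonempty (A i ≃* A N) := by
  have hstep : ∀ k, Nonempty (A (N + k + 1) ≃* A (N + k)) := by
    intro k
    induction k with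
    | zero => exact h
    | succ k ih =>
      obtain ⟨e⟩ := ih
      obtain ⟨e1⟩ := hA.2 (N + k + 1)
      obtain ⟨e2⟩ := hA.2 (N + k)
      exact ⟨(e1.trans (MulAut.congr e)).trans e2.symm⟩
  intro i hi
  obtain ⟨k, rfl⟩ := Nat.exists_eq_add_of_le hi
  induction k with
  | zero => exact ⟨MulEquiv.refl _⟩
  | succ k ih =>
    obtain ⟨e⟩ := hstep k
    obtain ⟨e1⟩ := ih (Nat.le_add_right _ _)
    exact ⟨e.trans e1⟩

/-- The tower of the product. -/
theorem tower_struct {n : ℕ} [NeZero n] (hn : Squarefree n) (hn1 : n ≠ 1) (P : FG)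
    (hadm : ∀ q ∈ n.primeFactors, Adm q P.α) (A : ℕ → Type) [∀ i, Group (A i)]
    (hA : IsTower A (Hol n × P.α)) (i : ℕ) :
    (∀ q ∈ n.primeFactors, Adm q (FG.seq n P i).α) ∧
      Nonempty (A i ≃* Hol n × (FG.seq n P i).α) := by
  induction i with
  | zero => exact ⟨hadm, hA.1⟩
  | succ i ih =>
    obtain ⟨h1, ⟨e⟩⟩ := ih
    refine ⟨fun q hq => adm_psi
      (rich hn.ne_zero (Nat.dvd_of_mem_primeFactors hq) (h1 q hq)) (h1 q hq), ?_⟩
    obtain ⟨e1⟩ := hA.2 i
    obtain ⟨e2⟩ := aut_equiv_sq hn h1
    exact ⟨(e1.trans (MulAut.congr e)).trans e2⟩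

theorem center_prod_bot {G Q : Type} [Group G] [Group Q] (hG : Subgroup.center G = ⊥)
    (hQ : Subgroup.center Q = ⊥) : Subgroup.center (G × Q) = ⊥ := by
  rw [Subgroup.eq_bot_iff_forall]
  intro x hx
  rw [Subgroup.mem_center_iff] at hx
  have h1 : x.1 ∈ Subgroup.center G := by
    rw [Subgroup.mem_center_iff]
    intro g
    exact congrArg Prod.fst (hx (g, 1))
  have h2 : x.2 ∈ Subgroup.center Q := by
    rw [Subgroup.mem_center_iff]
    intro g
    exact congrArg Prod.snd (hx (1, g))
  rw [hG, Subgroup.mem_bot] at h1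
  rw [hQ, Subgroup.mem_bot] at h2
  exact Prod.ext h1 h2

theorem center_hol {n : ℕ} (hn : IsUnit (2 : ZMod n)) : Subgroup.center (Hol n) = ⊥ := by
  rw [Subgroup.eq_bot_iff_forall]
  intro x hx
  rw [Subgroup.mem_center_iff] at hx
  exact Hol.eq_one_of_central hn fun y => (hx y).symm

/-- The centre of one step. -/
theorem mem_center_psi {n : ℕ} {P : Type} [Group P]
    (hrich : ∀ z ∈ Subgroup.center P, ∃ (γ : Gam n P) (w : (ZMod n)ˣ), (γ w : P) = z)
    (X : Psi n P) : X ∈ Subgroup.center (Psi n P) ↔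
      (∀ (a : MulAut P) (w : (ZMod n)ˣ), a (X.left w : P) = X.left w) ∧
      X.right ∈ Subgroup.center (MulAut P) ∧ ∀ z ∈ Subgroup.center P, X.right z = z := by
  constructor
  · intro hX
    rw [Subgroup.mem_center_iff] at hX
    refine ⟨fun a w => ?_, ?_, fix_center hrich X (fun γ => (hX _).symm)⟩
    · have h1 := congrArg SemidirectProduct.left (hX (SemidirectProduct.inr a))
      rw [SemidirectProduct.mul_left, SemidirectProduct.mul_left, SemidirectProduct.left_inr,
        SemidirectProduct.right_inr, one_mul, map_one, mul_one] at h1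
      have h2 := congrArg (fun γ : Gam n P => ((γ w : Subgroup.center P) : P)) h1
      simp only [gamAct_apply] at h2
      exact h2
    · rw [Subgroup.mem_center_iff]
      intro a
      have h1 := congrArg SemidirectProduct.right (hX (SemidirectProduct.inr a))
      rw [SemidirectProduct.mul_right, SemidirectProduct.mul_right,
        SemidirectProduct.right_inr] at h1
      exact h1
  · rintro ⟨h1, h2, h3⟩
    rw [Subgroup.mem_center_iff] at h2 ⊢
    intro Y
    refine SemidirectProduct.ext ?_ ?_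
    · rw [SemidirectProduct.mul_left, SemidirectProduct.mul_left]
      have h4 : gamAct n P Y.right X.left = X.left := by
        refine MonoidHom.ext fun w => Subtype.ext ?_
        rw [gamAct_apply]
        exact h1 _ _
      rw [h4, gamAct_eq_one _ h3, MulAut.one_apply, mul_comm]
    · rw [SemidirectProduct.mul_right, SemidirectProduct.mul_right]
      exact h2 _


/-- When is the centre of one step nontrivial? -/
theorem center_psi_ne_bot {n : ℕ} (hn : Squarefree n) (hn1 : n ≠ 1) {P : Type} [Group P]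
    [Finite P] (hadm : ∀ q ∈ n.primeFactors, Adm q P) :
    Subgroup.center (Psi n P) ≠ ⊥ ↔
      (∃ z ∈ Subgroup.center P, z ≠ 1 ∧ ∀ a : MulAut P, a z = z) ∨
      ∃ a ∈ Subgroup.center (MulAut P), a ≠ 1 ∧ ∀ z ∈ Subgroup.center P, a z = z := by
  obtain ⟨q, hq⟩ : n.primeFactors.Nonempty := by
    rw [Nat.nonempty_primeFactors]
    have := Nat.pos_of_ne_zero hn.ne_zero
    omega
  have hrich := rich hn.ne_zero (Nat.dvd_of_mem_primeFactors hq) (hadm q hq)
  constructor
  · intro h
    rw [Ne, Subgroup.eq_bot_iff_forall] at h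
    push Not at h
    obtain ⟨X, hX, hX1⟩ := h
    rw [mem_center_psi hrich] at hX
    by_cases hr : X.right = 1
    · left
      have hl : X.left ≠ 1 := fun h1 => hX1 (SemidirectProduct.ext h1 hr)
      by_contra hne
      push Not at hne
      refine hl (MonoidHom.ext fun w => Subtype.ext ?_)
      by_contra h1
      obtain ⟨a, ha⟩ := hne _ (X.left w).2 h1
      exact ha (hX.1 a w)
    · exact Or.inr ⟨X.right, hX.2.1, hr, hX.2.2⟩
  · rintro (⟨z, hz, hz1, hza⟩ | ⟨a, ha, ha1, haz⟩)
    · intro hbot
      have hpr := (hadm q hq).1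
      obtain ⟨g, hg, hord⟩ := exists_gen hpr
      let F : Subgroup (Subgroup.center P) := Subgroup.zpowers ⟨z, hz⟩
      have hFfix : ∀ t ∈ F, ∀ a : MulAut P, a (t : P) = t := by
        intro t ht a
        obtain ⟨k, hk⟩ := Subgroup.mem_zpowers_iff.1 ht
        rw [← hk, Subgroup.coe_zpow, map_zpow, hza]
      have hdvd : orderOf (⟨⟨z, hz⟩, Subgroup.mem_zpowers _⟩ : F) ∣ orderOf g := by
        rw [hord]
        refine orderOf_dvd_of_pow_eq_one (Subtype.ext (Subtype.ext ?_))
        rw [SubmonoidClass.coe_pow, SubmonoidClass.coe_pow]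
        exact (hadm q hq).2.2.1 z hz
      have : NeZero n := ⟨hn.ne_zero⟩
      obtain ⟨w, hw⟩ := ZMod.unitsMap_surjective (Nat.dvd_of_mem_primeFactors hq) g
      let γ : Gam n P := F.subtype.comp
        ((monoidHomOfForallMemZpowers hg hdvd).comp
          (ZMod.unitsMap (Nat.dvd_of_mem_primeFactors hq)))
      have hγ : (γ w : P) = z := by
        show (((monoidHomOfForallMemZpowers hg hdvd)
          (ZMod.unitsMap (Nat.dvd_of_mem_primeFactors hq) w) : F) : P) = z
        rw [hw, monoidHomOfForallMemZpowers_apply_gen]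
      have h1 : (SemidirectProduct.inl γ : Psi n P) ∈ Subgroup.center (Psi n P) := by
        rw [mem_center_psi hrich]
        refine ⟨fun a w => ?_, ?_, fun z _ => ?_⟩
        · rw [SemidirectProduct.left_inl]
          exact hFfix _ (SetLike.coe_mem _) a
        · rw [SemidirectProduct.right_inl]
          exact Subgroup.one_mem _
        · rw [SemidirectProduct.right_inl, MulAut.one_apply]
      rw [hbot, Subgroup.mem_bot] at h1
      have h2 := congrArg SemidirectProduct.left h1
      rw [SemidirectProduct.left_inl] at h2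
      rw [h2] at hγ
      exact hz1 hγ.symm
    · intro hbot
      have h1 : (SemidirectProduct.inr a : Psi n P) ∈ Subgroup.center (Psi n P) := by
        rw [mem_center_psi hrich]
        refine ⟨fun b w => ?_, ?_, fun z hz => ?_⟩
        · rw [SemidirectProduct.left_inr]
          exact map_one b
        · rw [SemidirectProduct.right_inr]
          exact ha
        · rw [SemidirectProduct.right_inr]
          exact haz z hz
      rw [hbot, Subgroup.mem_bot] at h1
      have h2 := congrArg SemidirectProduct.right h1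
      rw [SemidirectProduct.right_inr] at h2
      exact ha1 h2

/-- Index two. -/
theorem no_index_two {Z Q : Type} [CommGroup Z] [Group Q] (hQ : ∀ K : Subgroup Q, K.index ≠ 2)
    (K : Subgroup (Z × Q)) (hK : K.index = 2) (hc : Subgroup.center (Z × Q) ≤ K) : False := by
  obtain ⟨a, ha⟩ := Subgroup.index_eq_two_iff.1 hK
  have hz : ∀ z : Z, ((z, 1) : Z × Q) ∈ K := by
    intro z
    refine hc ?_
    rw [Subgroup.mem_center_iff]
    intro g
    exact Prod.ext (mul_comm _ _) (by simp)
  have hiff : ∀ (z : Z) (y : Q), ((z, y) : Z × Q) ∈ K ↔ ((1, y) : Z × Q) ∈ K := by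
    intro z y
    have h1 : ((z, y) : Z × Q) = (z, 1) * (1, y) := by simp
    rw [h1, K.mul_mem_cancel_left (hz z)]
  refine hQ (K.comap (MonoidHom.inr Z Q)) (Subgroup.index_eq_two_iff.2 ⟨a.2, fun b => ?_⟩)
  rw [Subgroup.mem_comap, Subgroup.mem_comap, MonoidHom.inr_apply, MonoidHom.inr_apply]
  have h1 := ha (1, b)
  have h2 : ((1, b) : Z × Q) * a = (a.1, b * a.2) := Prod.ext (one_mul _) rfl
  rw [h2, hiff] at h1
  exact h1

end Pool.Agent.Helper38.AutTower
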