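import Pool.Agent.Helper38.AutCard

/-!
# Groups all of whose automorphisms are inner
-/

set_option autoImplicit false

namespace Pool.Agent.Helper38.AutTower

open scoped IsMulCommutative

/-- All automorphisms are inner. -/
def AllInner (Q : Type) [Group Q] : Prop := ∀ a : MulAut Q, ∃ x, a = MulAut.conj x

theorem AllInner.congr {P Q : Type} [Group P] [Group Q] (e : P ≃* Q) (h : AllInner P) :
    AllInner Q := by
  intro a
  obtain ⟨x, hx⟩ := h ((e.trans a).trans e.symm)
  refine ⟨e x, ?_⟩
  refine MulEquiv.ext fun y => ?_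
  have h1 : ((e.trans a).trans e.symm) (e.symm y) = MulAut.conj x (e.symm y) := by rw [hx]
  simp only [MulEquiv.trans_apply, MulEquiv.apply_symm_apply, MulAut.conj_apply] at h1
  rw [MulAut.conj_apply]
  have h2 := congrArg e h1
  simpa using h2

theorem center_bot_congr {P Q : Type} [Group P] [Group Q] (e : P ≃* Q)
    (h : Subgroup.center P = ⊥) : Subgroup.center Q = ⊥ := by
  rw [Subgroup.eq_bot_iff_forall] at h ⊢
  intro y hy
  have h1 : e.symm y ∈ Subgroup.center P := by
    rw [Subgroup.mem_center_iff] at hy ⊢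
    intro g
    apply e.injective
    rw [map_mul, map_mul, e.apply_symm_apply]
    exact hy (e g)
  have h2 := h _ h1
  have h3 : y = e (e.symm y) := (e.apply_symm_apply y).symm
  rw [h3, h2, map_one]

theorem IsComplete.congr {P Q : Type} [Group P] [Group Q] (e : P ≃* Q) (h : IsComplete P) :
    IsComplete Q :=
  ⟨center_bot_congr e h.1, AllInner.congr e h.2⟩

/-- A finite abelian group with no automorphism except the identity has at most two elements. -/
theorem card_le_two_of_rigid {Z : Type} [CommGroup Z] [Finite Z]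
    (h : ∀ a : MulAut Z, a = 1) : Nat.card Z ≤ 2 := by
  -- exponent two
  have h2 : ∀ z : Z, z * z = 1 := by
    intro z
    have h3 : (MulEquiv.inv Z : MulAut Z) z = z := by rw [h (MulEquiv.inv Z)]; rfl
    have h4 : z⁻¹ = z := h3
    nth_rewrite 1 [← h4]
    exact inv_mul_cancel z
  by_contra hc
  push Not at hc
  -- two different non-trivial elements
  let V := Additive Z
  let _ : Module (ZMod 2) V := AddCommGroup.zmodModule (n := 2) (fun x => by
    rw [two_nsmul]
    exact h2 (Additive.toMul x))
  obtain ⟨w, hw⟩ : ∃ w : V, w ≠ 0 := by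
    by_contra h5
    push Not at h5
    have h6 : Subsingleton Z := ⟨fun a b => by
      have ha : Additive.ofMul a = 0 := h5 _
      have hb : Additive.ofMul b = 0 := h5 _
      exact Additive.ofMul.injective (ha.trans hb.symm)⟩
    have h7 : Nat.card Z ≤ 1 := Finite.card_le_one_iff_subsingleton.2 h6
    omega
  obtain ⟨u, hu⟩ : ∃ u : V, u ∉ Submodule.span (ZMod 2) {w} := by
    by_contra h5
    push Not at h5
    have h6 : Function.Surjective (fun c : ZMod 2 => c • w) := by
      intro v
      obtain ⟨c, hc'⟩ := Submodule.mem_span_singleton.1 (h5 v)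
      exact ⟨c, hc'⟩
    have h7 := Nat.card_le_card_of_surjective _ h6
    rw [Nat.card_zmod] at h7
    have h8 : Nat.card V = Nat.card Z := rfl
    omega
  -- a functional
  obtain ⟨f, hfu, hfw⟩ : ∃ f : Module.Dual (ZMod 2) V, f u ≠ 0 ∧ f w = 0 := by
    have h5 : (Submodule.span (ZMod 2) {w}).mkQ u ≠ 0 := by
      intro h6
      rw [Submodule.mkQ_apply, Submodule.Quotient.mk_eq_zero] at h6
      exact hu h6
    have h6 : ¬ ∀ φ : Module.Dual (ZMod 2) (V ⧸ Submodule.span (ZMod 2) {w}),
        φ ((Submodule.span (ZMod 2) {w}).mkQ u) = 0 := by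
      intro h7
      exact h5 ((Module.forall_dual_apply_eq_zero_iff (ZMod 2) _).1 h7)
    push Not at h6
    obtain ⟨φ, hφ⟩ := h6
    refine ⟨φ.comp (Submodule.span (ZMod 2) {w}).mkQ, hφ, ?_⟩
    rw [LinearMap.comp_apply, Submodule.mkQ_apply,
      (Submodule.Quotient.mk_eq_zero _).2 (Submodule.mem_span_singleton_self w), map_zero]
  have hww : w + w = 0 := h2 (Additive.toMul w)
  have hinv : ∀ v : V, (v + f v • w) + f (v + f v • w) • w = v := by
    intro v
    rw [map_add, map_smul, hfw, smul_zero, add_zero, add_assoc, ← smul_add, hww, smul_zero,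
      add_zero]
  have hadd : ∀ v v' : V, (v + v') + f (v + v') • w = (v + f v • w) + (v' + f v' • w) := by
    intro v v'
    rw [map_add, add_smul]
    abel
  let a : Z ≃* Z :=
    { toFun := fun z => Additive.toMul (Additive.ofMul z + f (Additive.ofMul z) • w)
      invFun := fun z => Additive.toMul (Additive.ofMul z + f (Additive.ofMul z) • w)
      left_inv := fun z => hinv (Additive.ofMul z)
      right_inv := fun z => hinv (Additive.ofMul z)
      map_mul' := fun x y => hadd (Additive.ofMul x) (Additive.ofMul y) }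
  have h9 : a (Additive.toMul u) = Additive.toMul u := by rw [h a]; rfl
  have h10 : u + f u • w = u := h9
  have h11 : f u • w = 0 := by simpa using h10
  rcases smul_eq_zero.1 h11 with h12 | h12
  · exact hfu h12
  · exact hw h12

section prod

variable {Z Q : Type} [CommGroup Z] [Group Q]

theorem conj_prod (p x : Z × Q) : MulAut.conj p x = (x.1, p.2 * x.2 * p.2⁻¹) := by
  rw [MulAut.conj_apply]
  refine Prod.ext ?_ rfl
  show p.1 * x.1 * p.1⁻¹ = x.1
  rw [mul_comm p.1, mul_assoc, mul_inv_cancel, mul_one]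

/-- If all automorphisms of `Z × Q` are inner then `Z` is rigid. -/
theorem rigid_of_prod (h : AllInner (Z × Q)) (a : MulAut Z) : a = 1 := by
  obtain ⟨p, hp⟩ := h (MulEquiv.prodCongr a (MulEquiv.refl Q))
  refine MulEquiv.ext fun z => ?_
  have h1 : (MulEquiv.prodCongr a (MulEquiv.refl Q)) (z, 1) = MulAut.conj p (z, 1) := by rw [hp]
  rw [conj_prod] at h1
  exact congrArg Prod.fst h1

theorem hom_trivial_of_prod (h : AllInner (Z × Q)) (f : Q →* Z) : f = 1 := by
  let a : MulAut (Z × Q) :=
    { toFun := fun x => (x.1 * f x.2, x.2)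
      invFun := fun x => (x.1 * (f x.2)⁻¹, x.2)
      left_inv := fun x => by simp
      right_inv := fun x => by simp
      map_mul' := fun x y => by
        refine Prod.ext ?_ rfl
        show x.1 * y.1 * f (x.2 * y.2) = (x.1 * f x.2) * (y.1 * f y.2)
        rw [map_mul, mul_mul_mul_comm] }
  obtain ⟨p, hp⟩ := h a
  refine MonoidHom.ext fun x => ?_
  have h1 : a (1, x) = MulAut.conj p (1, x) := by rw [hp]
  rw [conj_prod] at h1
  have h2 : (1 : Z) * f x = 1 := congrArg Prod.fst h1
  rw [one_mul] at h2
  exact h2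

theorem allInner_of_prod (h : AllInner (Z × Q)) : AllInner Q := by
  intro a
  obtain ⟨p, hp⟩ := h (MulEquiv.prodCongr (MulEquiv.refl Z) a)
  refine ⟨p.2, MulEquiv.ext fun x => ?_⟩
  have h1 : (MulEquiv.prodCongr (MulEquiv.refl Z) a) (1, x) = MulAut.conj p (1, x) := by rw [hp]
  rw [conj_prod] at h1
  exact congrArg Prod.snd h1

theorem mem_center_prod (x : Z × Q) :
    x ∈ Subgroup.center (Z × Q) ↔ x.2 ∈ Subgroup.center Q := by
  rw [Subgroup.mem_center_iff, Subgroup.mem_center_iff]
  constructor
  · intro h g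
    exact congrArg Prod.snd (h (1, g))
  · intro h g
    exact Prod.ext (mul_comm _ _) (h g.2)

/-- the centre of `Z × Q` when `Q` has trivial centre -/
theorem center_prod_equiv (hQ : Subgroup.center Q = ⊥) :
    Nonempty (Subgroup.center (Z × Q) ≃* Z) := by
  have h1 : ∀ z : Z, ((z, 1) : Z × Q) ∈ Subgroup.center (Z × Q) := fun z =>
    (mem_center_prod _).2 (Subgroup.one_mem _)
  refine ⟨MulEquiv.ofBijective
    ((MonoidHom.fst Z Q).comp (Subgroup.center (Z × Q)).subtype) ⟨?_, ?_⟩⟩
  · rw [injective_iff_map_eq_one]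
    intro x hx
    have h2 : (x : Z × Q).2 ∈ Subgroup.center Q := (mem_center_prod _).1 x.2
    rw [hQ, Subgroup.mem_bot] at h2
    exact Subtype.ext (Prod.ext hx h2)
  · intro z
    exact ⟨⟨(z, 1), h1 z⟩, rfl⟩

/-- the automorphism group of `Z × Q` when all automorphisms are inner -/
theorem mulAut_prod_equiv (h : AllInner (Z × Q)) (hQ : Subgroup.center Q = ⊥) :
    Nonempty (MulAut (Z × Q) ≃* Q) := by
  refine ⟨(MulEquiv.ofBijective
    ((MulAut.conj : Z × Q →* MulAut (Z × Q)).comp (MonoidHom.inr Z Q)) ⟨?_, ?_⟩).symm⟩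
  · rw [injective_iff_map_eq_one]
    intro x hx
    have h1 : x ∈ Subgroup.center Q := by
      rw [Subgroup.mem_center_iff]
      intro g
      have h2 : MulAut.conj ((1, x) : Z × Q) (1, g) = (1, g) := by
        have h3 : MulAut.conj ((1, x) : Z × Q) = 1 := hx
        rw [h3]; rfl
      rw [conj_prod] at h2
      have h4 : x * g * x⁻¹ = g := congrArg Prod.snd h2
      exact (mul_inv_eq_iff_eq_mul.1 h4).symm
    rw [hQ, Subgroup.mem_bot] at h1
    exact h1
  · intro a
    obtain ⟨p, hp⟩ := h a
    refine ⟨p.2, ?_⟩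
    rw [hp]
    refine MulEquiv.ext fun x => ?_
    show MulAut.conj ((1, p.2) : Z × Q) x = MulAut.conj p x
    rw [conj_prod, conj_prod]

theorem card_center_prod [Finite Z] [Finite Q] :
    Nat.card (Subgroup.center (Z × Q)) = Nat.card Z * Nat.card (Subgroup.center Q) := by
  rw [← Nat.card_prod]
  refine Nat.card_congr
    { toFun := fun x => (x.1.1, ⟨x.1.2, (mem_center_prod _).1 x.2⟩)
      invFun := fun y => ⟨(y.1, y.2.1), (mem_center_prod _).2 y.2.2⟩
      left_inv := fun x => rfl
      right_inv := fun y => rfl }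

end prod

/-- `Psi` of a group all of whose automorphisms are inner. -/
theorem psi_of_allInner {q : ℕ} {P : Type} [Group P] [Finite P] (hq : Adm q P)
    (h : AllInner P) : Nonempty (Psi q P ≃* Subgroup.center P × MulAut P) := by
  obtain ⟨e⟩ := hom_equiv hq.1 (center_exp hq)
  have h1 : ∀ a : MulAut P, gamAct q P a = 1 := by
    intro a
    obtain ⟨x, hx⟩ := h a
    rw [hx]
    exact gamAct_eq_one _ (conj_fix_center x)
  refine ⟨
    { toFun := fun X => (e X.left, X.right)
      invFun := fun y => ⟨e.symm y.1, y.2⟩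
      left_inv := fun X => by simp
      right_inv := fun y => by simp
      map_mul' := fun X Y => ?_ }⟩
  refine Prod.ext ?_ rfl
  show e (X * Y).left = e X.left * e Y.left
  rw [SemidirectProduct.mul_left, h1, MulAut.one_apply, map_mul]

/-- Three consecutive groups without outer automorphisms. -/
theorem stable {q : ℕ} {X0 X1 X2 : Type} [Group X0] [Group X1] [Group X2] [Finite X0]
    [Finite X1] [Finite X2] (h0 : Adm q X0) (h1 : Adm q X1)
    (e1 : X1 ≃* Psi q X0) (e2 : X2 ≃* Psi q X1)
    (i0 : AllInner X0) (i1 : AllInner X1) (i2 : AllInner X2) :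
    Nonempty (X2 ≃* X1) ∧ ∃ (Q : Type) (_ : Group Q) (_ : Finite Q), IsComplete Q ∧
      (Nonempty (X1 ≃* Q) ∨
        ((∀ K : Subgroup Q, K.index ≠ 2) ∧ Nonempty (X1 ≃* Multiplicative (ZMod 2) × Q))) := by
  obtain ⟨f0⟩ := psi_of_allInner h0 i0
  obtain ⟨f1⟩ := psi_of_allInner h1 i1
  have g1 : X1 ≃* Subgroup.center X0 × MulAut X0 := e1.trans f0
  have g2 : X2 ≃* Subgroup.center X1 × MulAut X1 := e2.trans f1
  have j1 : AllInner (Subgroup.center X0 × MulAut X0) := i1.congr g1
  have j2 : AllInner (Subgroup.center X1 × MulAut X1) := i2.congr g2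
  have c0 : Nat.card (Subgroup.center X0) ≤ 2 := card_le_two_of_rigid (rigid_of_prod j1)
  have c1 : Nat.card (Subgroup.center X1) ≤ 2 := card_le_two_of_rigid (rigid_of_prod j2)
  have hQin : AllInner (MulAut X0) := allInner_of_prod j1
  have hpos : 0 < Nat.card (Subgroup.center X0) := Nat.card_pos
  -- the centre of the automorphism group is trivial
  have hQc : Subgroup.center (MulAut X0) = ⊥ := by
    rcases Nat.lt_or_ge (Nat.card (Subgroup.center X0)) 2 with h3 | h3
    · have h4 : Subgroup.center X0 = ⊥ :=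
        Subgroup.eq_bot_of_card_eq _ (by omega)
      have h5 : X0 ≃* MulAut X0 := MulEquiv.ofBijective (MulAut.conj : X0 →* MulAut X0) ⟨by
        rw [injective_iff_map_eq_one]
        intro x hx
        have h6 := central_of_conj hx
        rw [h4, Subgroup.mem_bot] at h6
        exact h6, fun a => by
        obtain ⟨x, hx⟩ := i0 a
        exact ⟨x, hx.symm⟩⟩
      exact center_bot_congr h5 h4
    · have h4 : Nat.card (Subgroup.center X0) = 2 := le_antisymm c0 h3
      have h5 : Nat.card (Subgroup.center X1)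
          = Nat.card (Subgroup.center X0) * Nat.card (Subgroup.center (MulAut X0)) := by
        rw [← card_center_prod]
        exact Nat.card_congr (Subgroup.centerCongr g1).toEquiv
      have h6 : 0 < Nat.card (Subgroup.center (MulAut X0)) := Nat.card_pos
      refine Subgroup.eq_bot_of_card_eq _ ?_
      rw [h4] at h5
      omega
  obtain ⟨k1⟩ := center_prod_equiv (Z := Subgroup.center X0) hQc
  obtain ⟨k2⟩ := mulAut_prod_equiv j1 hQc
  refine ⟨⟨?_⟩, MulAut X0, inferInstance, inferInstance, ⟨hQc, hQin⟩, ?_⟩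
  · have m1 : Subgroup.center X1 ≃* Subgroup.center X0 := (Subgroup.centerCongr g1).trans k1
    have m2 : MulAut X1 ≃* MulAut X0 := (MulAut.congr g1).trans k2
    exact (g2.trans (MulEquiv.prodCongr m1 m2)).trans g1.symm
  · rcases Nat.lt_or_ge (Nat.card (Subgroup.center X0)) 2 with h3 | h3
    · left
      have h4 : Subgroup.center X0 = ⊥ :=
        Subgroup.eq_bot_of_card_eq _ (by omega)
      have h5 : X0 ≃* MulAut X0 := MulEquiv.ofBijective (MulAut.conj : X0 →* MulAut X0) ⟨by
        rw [injective_iff_map_eq_one]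
        intro x hx
        have h6 := central_of_conj hx
        rw [h4, Subgroup.mem_bot] at h6
        exact h6, fun a => by
        obtain ⟨x, hx⟩ := i0 a
        exact ⟨x, hx.symm⟩⟩
      refine ⟨g1.trans ?_⟩
      exact MulEquiv.ofBijective (MonoidHom.snd (Subgroup.center X0) (MulAut X0)) ⟨by
        rw [injective_iff_map_eq_one]
        intro x hx
        have h6 : ∀ t : Subgroup.center X0, (t : X0) = 1 := fun t =>
          (Subgroup.eq_bot_iff_forall _).1 h4 t t.2
        exact Prod.ext (Subtype.ext (h6 x.1)) hx, fun y => ⟨(1, y), rfl⟩⟩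
    · right
      have h4 : Nat.card (Subgroup.center X0) = 2 := le_antisymm c0 h3
      have : Fact (Nat.Prime 2) := ⟨Nat.prime_two⟩
      have n1 : Subgroup.center X0 ≃* Multiplicative (ZMod 2) :=
        mulEquivOfPrimeCardEq (p := 2) h4 (by
          rw [Nat.card_congr Multiplicative.toAdd, Nat.card_zmod])
      refine ⟨fun K hK => ?_, ⟨g1.trans (MulEquiv.prodCongr n1 (MulEquiv.refl _))⟩⟩
      have hKn : K.Normal := Subgroup.normal_of_index_eq_two hK
      have n2 : (MulAut X0 ⧸ K) ≃* Subgroup.center X0 :=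
        mulEquivOfPrimeCardEq (p := 2) (by rw [← Subgroup.index_eq_card, hK]) h4
      have h5 := hom_trivial_of_prod j1 (n2.toMonoidHom.comp (QuotientGroup.mk' K))
      have h6 : ∀ x : MulAut X0, x ∈ K := by
        intro x
        have h7 : n2 (QuotientGroup.mk' K x) = 1 := by
          have h8 := congrArg (fun f : MulAut X0 →* Subgroup.center X0 => f x) h5
          exact h8
        have h8 : QuotientGroup.mk' K x = 1 := by
          rw [← map_one n2] at h7
          exact n2.injective h7
        exact (QuotientGroup.eq_one_iff x).1 h8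
      have h7 : K = ⊤ := (Subgroup.eq_top_iff' K).2 h6
      rw [h7, Subgroup.index_top] at hK
      omega

end Pool.Agent.Helper38.AutTower
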