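import Pool.Agent.Helper38.AutHol

/-!
# The automorphism group of `Hol (C_n) × P`
-/

set_option autoImplicit false

namespace Pool.Agent.Helper38.AutTower

open scoped IsMulCommutative

variable {n : ℕ} {P : Type} [Group P]

/-- one automorphism of the product -/
def theta (h : Hol n) (γ : Gam n P) (δ : MulAut P) : MulAut (Hol n × P) where
  toFun x := (h * x.1 * h⁻¹, (γ x.1.u : P) * δ x.2)
  invFun y := (h⁻¹ * y.1 * h, δ⁻¹ (((γ y.1.u)⁻¹ : Subgroup.center P) * y.2))
  left_inv x := by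
    have h1 : (h * x.1 * h⁻¹).u = x.1.u := by
      simp only [Hol.mul_u, Hol.inv_u]
      rw [mul_comm h.u, mul_assoc, mul_inv_cancel, mul_one]
    refine Prod.ext ?_ ?_
    · show h⁻¹ * (h * x.1 * h⁻¹) * h = x.1
      group
    · show δ⁻¹ (((γ (h * x.1 * h⁻¹).u)⁻¹ : Subgroup.center P) * ((γ x.1.u : P) * δ x.2)) = x.2
      rw [h1, ← mul_assoc, ← Subgroup.coe_mul, inv_mul_cancel, Subgroup.coe_one, one_mul]
      rw [← MulAut.mul_apply, inv_mul_cancel, MulAut.one_apply]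
  right_inv y := by
    have h1 : (h⁻¹ * y.1 * h).u = y.1.u := by
      simp only [Hol.mul_u, Hol.inv_u]
      rw [mul_comm h.u⁻¹, mul_assoc, inv_mul_cancel, mul_one]
    refine Prod.ext ?_ ?_
    · show h * (h⁻¹ * y.1 * h) * h⁻¹ = y.1
      group
    · show (γ (h⁻¹ * y.1 * h).u : P) * δ (δ⁻¹ (((γ y.1.u)⁻¹ : Subgroup.center P) * y.2)) = y.2
      rw [h1, ← MulAut.mul_apply, mul_inv_cancel, MulAut.one_apply, ← mul_assoc,
        ← Subgroup.coe_mul, mul_inv_cancel, Subgroup.coe_one, one_mul]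
  map_mul' x y := by
    refine Prod.ext ?_ ?_
    · show h * (x.1 * y.1) * h⁻¹ = (h * x.1 * h⁻¹) * (h * y.1 * h⁻¹)
      group
    · show (γ (x.1 * y.1).u : P) * δ (x.2 * y.2)
        = ((γ x.1.u : P) * δ x.2) * ((γ y.1.u : P) * δ y.2)
      rw [Hol.mul_u, map_mul, map_mul, Subgroup.coe_mul]
      have hc : (γ y.1.u : P) * δ x.2 = δ x.2 * (γ y.1.u : P) :=
        (Subgroup.mem_center_iff.1 (γ y.1.u).2 (δ x.2)).symm
      calc (γ x.1.u : P) * (γ y.1.u : P) * (δ x.2 * δ y.2)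
          = (γ x.1.u : P) * ((γ y.1.u : P) * δ x.2) * δ y.2 := by group
        _ = (γ x.1.u : P) * (δ x.2 * (γ y.1.u : P)) * δ y.2 := by rw [hc]
        _ = _ := by group

theorem theta_apply (h : Hol n) (γ : Gam n P) (δ : MulAut P) (x : Hol n × P) :
    theta h γ δ x = (h * x.1 * h⁻¹, (γ x.1.u : P) * δ x.2) := rfl

/-- all these automorphisms form a group -/
def thetaHom (n : ℕ) (P : Type) [Group P] : Hol n × Psi n P →* MulAut (Hol n × P) where
  toFun x := theta x.1 x.2.left x.2.right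
  map_one' := by
    ext x
    · simp [theta_apply]
    · simp [theta_apply]
    · simp [theta_apply]
  map_mul' x y := by
    refine MulEquiv.ext fun z => ?_
    rw [MulAut.mul_apply, theta_apply, theta_apply, theta_apply]
    have h1 : (y.1 * z.1 * y.1⁻¹).u = z.1.u := by
      simp only [Hol.mul_u, Hol.inv_u]
      rw [mul_comm y.1.u, mul_assoc, mul_inv_cancel, mul_one]
    refine Prod.ext ?_ ?_
    · show (x.1 * y.1) * z.1 * (x.1 * y.1)⁻¹ = x.1 * (y.1 * z.1 * y.1⁻¹) * x.1⁻¹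
      group
    · show (((x.2 * y.2).left z.1.u : Subgroup.center P) : P) * (x.2 * y.2).right z.2
        = (x.2.left (y.1 * z.1 * y.1⁻¹).u : P)
          * x.2.right ((y.2.left z.1.u : P) * y.2.right z.2)
      rw [h1, SemidirectProduct.mul_left, SemidirectProduct.mul_right, MonoidHom.mul_apply,
        Subgroup.coe_mul, gamAct_apply, MulAut.mul_apply, map_mul, mul_assoc]

theorem thetaHom_apply (x : Hol n × Psi n P) (z : Hol n × P) :
    thetaHom n P x z = (x.1 * z.1 * x.1⁻¹, (x.2.left z.1.u : P) * x.2.right z.2) := rfl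

theorem thetaHom_injective (hn : IsUnit (2 : ZMod n)) : Function.Injective (thetaHom n P) := by
  rw [injective_iff_map_eq_one]
  intro x hx
  have h1 : ∀ z : Hol n × P, (x.1 * z.1 * x.1⁻¹, (x.2.left z.1.u : P) * x.2.right z.2) = z := by
    intro z
    rw [← thetaHom_apply, hx, MulAut.one_apply]
  have h2 : x.1 = 1 := by
    refine Hol.eq_one_of_central hn fun y => ?_
    have h3 := congrArg Prod.fst (h1 (y, 1))
    simp only at h3
    rw [mul_inv_eq_iff_eq_mul] at h3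
    exact h3
  have h3 : x.2.left = 1 := by
    refine MonoidHom.ext fun w => Subtype.ext ?_
    have h4 := congrArg Prod.snd (h1 (⟨0, w⟩, 1))
    simpa using h4
  have h5 : x.2.right = 1 := by
    refine MulEquiv.ext fun p => ?_
    have h4 := congrArg Prod.snd (h1 (1, p))
    simpa using h4
  refine Prod.ext h2 (SemidirectProduct.ext h3 h5)

/-- Every automorphism which keeps the translations is of this form. -/
theorem exists_theta [NeZero n] [Finite P] (hn : IsUnit (2 : ZMod n)) (φ : MulAut (Hol n × P))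
    (h1 : ∀ x : Hol n, x.u = 1 → (φ (x, 1)).1.u = 1 ∧ (φ (x, 1)).2 = 1)
    (h2 : ∀ x : Hol n, x.u = 1 → (φ⁻¹ (x, 1)).1.u = 1 ∧ (φ⁻¹ (x, 1)).2 = 1) :
    ∃ x : Hol n × Psi n P, thetaHom n P x = φ := by
  have hinv : ∀ z, φ (φ⁻¹ z) = z := fun z => by
    rw [← MulAut.mul_apply, mul_inv_cancel, MulAut.one_apply]
  have hprod : ∀ (x : Hol n) (p : P), ((x, p) : Hol n × P) = (x, 1) * (1, p) := fun x p => by simp
  have hcomm : ∀ (x : Hol n) (p : P), φ (x, 1) * φ (1, p) = φ (1, p) * φ (x, 1) := fun x p => by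
    rw [← map_mul, ← map_mul]; simp
  -- the translation pulled back
  have hpull : ∀ y : Hol n, y.u = 1 → ∃ t : Hol n, t.u = 1 ∧ φ (t, 1) = (y, 1) := by
    intro y hy
    refine ⟨(φ⁻¹ (y, 1)).1, (h2 y hy).1, ?_⟩
    have h3 : (((φ⁻¹ (y, 1)).1, 1) : Hol n × P) = φ⁻¹ (y, 1) := Prod.ext rfl (h2 y hy).2.symm
    rw [h3, hinv]
  -- step 1: the component in the holomorph of the image of `P` is a translation
  have hβu : ∀ p : P, (φ (1, p)).1.u = 1 := by
    intro p
    obtain ⟨t, _, ht⟩ := hpull ⟨1, 1⟩ rfl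
    have h3 := hcomm t p
    rw [ht] at h3
    exact Hol.u_eq_one_of_commute (congrArg Prod.fst h3).symm
  have hβ : ∀ p : P, (φ (1, p)).1 = 1 := by
    intro p
    refine Hol.eq_one_of_central hn fun y => ?_
    obtain ⟨⟨x, p'⟩, hx⟩ : ∃ z, φ z = (y, 1) := ⟨φ⁻¹ (y, 1), hinv _⟩
    have h3 : y = (φ (x, 1)).1 * (φ (1, p')).1 := by
      rw [hprod x p', map_mul] at hx
      exact (congrArg Prod.fst hx).symm
    have h4 : (φ (1, p)).1 * (φ (x, 1)).1 = (φ (x, 1)).1 * (φ (1, p)).1 :=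
      (congrArg Prod.fst (hcomm x p)).symm
    have h5 : (φ (1, p)).1 * (φ (1, p')).1 = (φ (1, p')).1 * (φ (1, p)).1 :=
      Hol.trans_commute (hβu p) (hβu p')
    rw [h3, ← mul_assoc, h4, mul_assoc, h5, mul_assoc]
  -- step 2: the automorphism of `P`
  let δ : P →* P := ((MonoidHom.snd (Hol n) P).comp φ.toMonoidHom).comp (MonoidHom.inr (Hol n) P)
  have hδ : ∀ p, δ p = (φ (1, p)).2 := fun p => rfl
  have hφp : ∀ p, φ (1, p) = (1, δ p) := fun p => Prod.ext (hβ p) rfl
  have hδinj : Function.Injective δ := by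
    rw [injective_iff_map_eq_one]
    intro p hp
    have h3 : φ (1, p) = φ 1 := by rw [hφp, hp, map_one]; rfl
    have h4 := φ.injective h3
    exact congrArg Prod.snd h4
  have hδbij : Function.Bijective δ := Finite.injective_iff_bijective.1 hδinj
  let δE : MulAut P := MulEquiv.ofBijective δ hδbij
  -- step 3: the automorphism of the holomorph
  let α : Hol n →* Hol n :=
    ((MonoidHom.fst (Hol n) P).comp φ.toMonoidHom).comp (MonoidHom.inl (Hol n) P)
  have hα : ∀ x, α x = (φ (x, 1)).1 := fun x => rfl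
  have hαinj : Function.Injective α := by
    rw [injective_iff_map_eq_one]
    intro x hx
    obtain ⟨p1, hp1⟩ := hδbij.2 (φ (x, 1)).2
    have h3 : φ (x, 1) = φ (1, p1) := by
      rw [hφp, hp1]
      exact Prod.ext hx rfl
    exact congrArg Prod.fst (φ.injective h3)
  have hαbij : Function.Bijective α := Finite.injective_iff_bijective.1 hαinj
  let αE : MulAut (Hol n) := MulEquiv.ofBijective α hαbij
  have hαE : ∀ x, αE x = α x := fun x => rfl
  obtain ⟨h, hh⟩ := Hol.inner_of_trans hn αE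
    (fun x hx => by rw [hαE, hα]; exact (h1 x hx).1)
    (fun x hx => by
      obtain ⟨t, ht, ht1⟩ := hpull x hx
      have h3 : αE t = x := by rw [hαE, hα, ht1]
      have h4 : αE⁻¹ x = t := by
        rw [← h3, ← MulAut.mul_apply, inv_mul_cancel, MulAut.one_apply]
      rw [h4]; exact ht)
  -- step 4: the homomorphism to the centre
  have hγc : ∀ x : Hol n, (φ (x, 1)).2 ∈ Subgroup.center P := by
    intro x
    rw [Subgroup.mem_center_iff]
    intro p
    obtain ⟨p1, hp1⟩ := hδbij.2 p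
    have h3 := congrArg Prod.snd (hcomm x p1)
    rw [Prod.snd_mul, Prod.snd_mul, ← hδ, hp1] at h3
    exact h3.symm
  let γ : Gam n P :=
    { toFun := fun w => ⟨(φ (⟨0, w⟩, 1)).2, hγc _⟩
      map_one' := by
        refine Subtype.ext ?_
        have h3 : ((⟨0, 1⟩, 1) : Hol n × P) = 1 := rfl
        show (φ (⟨0, 1⟩, 1)).2 = 1
        rw [h3, map_one]; rfl
      map_mul' := by
        intro w w'
        refine Subtype.ext ?_
        show (φ (⟨0, w * w'⟩, 1)).2 = (φ (⟨0, w⟩, 1)).2 * (φ (⟨0, w'⟩, 1)).2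
        have h3 : ((⟨0, w * w'⟩, 1) : Hol n × P) = (⟨0, w⟩, 1) * (⟨0, w'⟩, 1) := by
          refine Prod.ext ?_ ?_
          · ext <;> simp
          · simp
        rw [h3, map_mul, Prod.snd_mul] }
  have hγ : ∀ x : Hol n, (φ (x, 1)).2 = (γ x.u : P) := by
    intro x
    have h3 : ((x, 1) : Hol n × P) = (⟨x.a, 1⟩, 1) * (⟨0, x.u⟩, 1) := by
      refine Prod.ext ?_ ?_
      · ext <;> simp
      · simp
    rw [h3, map_mul, Prod.snd_mul, (h1 ⟨x.a, 1⟩ rfl).2, one_mul]
    rfl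
  -- step 5
  refine ⟨(h, ⟨γ, δE⟩), ?_⟩
  refine MulEquiv.ext fun z => ?_
  obtain ⟨x, p⟩ := z
  have hz : φ (x, p) = φ (x, 1) * φ (1, p) := by rw [← map_mul, ← hprod]
  rw [thetaHom_apply, hz, hφp]
  refine Prod.ext ?_ ?_
  · have h3 : αE x = MulAut.conj h x := by rw [hh]
    rw [MulAut.conj_apply, hαE, hα] at h3
    simp [h3]
  · show (γ x.u : P) * δE p = (φ (x, 1)).2 * δ p
    rw [hγ]
    rfl

/-- A normal subgroup of prime order of the product consists of translations. -/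
theorem trans_of_normal {q : ℕ} (hq : q.Prime) [Finite P]
    (hP : ∀ M : Subgroup P, M.Normal → Nat.card M ≠ q) (N : Subgroup (Hol n × P)) [hN : N.Normal]
    (hc : Nat.card N = q) (g : Hol n × P) (hg : g ∈ N) : g.1.u = 1 ∧ g.2 = 1 := by
  have : Fact q.Prime := ⟨hq⟩
  have hsnd : g.2 = 1 := by
    have h1 : (N.map (MonoidHom.snd (Hol n) P)).Normal :=
      hN.map _ (fun p => ⟨(1, p), rfl⟩)
    have h2 : Nat.card (N.map (MonoidHom.snd (Hol n) P)) ∣ q := by
      rw [← hc]; exact Subgroup.card_map_dvd _ _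
    rcases (Nat.dvd_prime hq).1 h2 with h3 | h3
    · have h4 := Subgroup.eq_bot_of_card_eq _ h3
      have h5 : g.2 ∈ N.map (MonoidHom.snd (Hol n) P) := ⟨g, hg, rfl⟩
      rw [h4, Subgroup.mem_bot] at h5
      exact h5
    · exact absurd h3 (hP _ h1)
  refine ⟨?_, hsnd⟩
  by_contra hu
  let t : Hol n × P := (⟨1, 1⟩, 1)
  have hcN : g * t * g⁻¹ * t⁻¹ ∈ N := by
    have h1 : t * g⁻¹ * t⁻¹ ∈ N := hN.conj_mem _ (N.inv_mem hg) t
    have h2 : g * (t * g⁻¹ * t⁻¹) ∈ N := N.mul_mem hg h1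
    have h3 : g * t * g⁻¹ * t⁻¹ = g * (t * g⁻¹ * t⁻¹) := by group
    rw [h3]; exact h2
  have hc1 : (g * t * g⁻¹ * t⁻¹).1.u = 1 := by simp [t]
  have hcne : g * t * g⁻¹ * t⁻¹ ≠ 1 := by
    intro h1
    have h2 : g * t = t * g := by
      have h3 := mul_inv_eq_one.1 h1
      exact mul_inv_eq_iff_eq_mul.1 h3
    exact hu (Hol.u_eq_one_of_commute (congrArg Prod.fst h2))
  have h1 : (⟨g, hg⟩ : N) ∈ Subgroup.zpowers (⟨g * t * g⁻¹ * t⁻¹, hcN⟩ : N) :=
    mem_zpowers_of_prime_card hc (by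
      intro h2
      exact hcne (congrArg Subtype.val h2))
  obtain ⟨k, hk⟩ := Subgroup.mem_zpowers_iff.1 h1
  have h2 : (g * t * g⁻¹ * t⁻¹) ^ k = g := by
    have h3 := congrArg Subtype.val hk
    simpa using h3
  have h3 : ((g * t * g⁻¹ * t⁻¹) ^ k).1.u = 1 := by
    have h4 : ((g * t * g⁻¹ * t⁻¹) ^ k).1.u
        = (Hol.lin.comp (MonoidHom.fst (Hol n) P)) ((g * t * g⁻¹ * t⁻¹) ^ k) := rfl
    rw [h4, map_zpow]
    have h5 : (Hol.lin.comp (MonoidHom.fst (Hol n) P)) (g * t * g⁻¹ * t⁻¹) = 1 := hc1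
    rw [h5, one_zpow]
  rw [h2] at h3
  exact hu h3

/-- Translations of prime order stay translations. -/
theorem trans_image [NeZero n] {q : ℕ} (hq : q.Prime) [Finite P]
    (hP : ∀ M : Subgroup P, M.Normal → Nat.card M ≠ q) (φ : MulAut (Hol n × P)) (b : ZMod n)
    (hb : (q : ZMod n) * b = 0) :
    (φ (⟨b, 1⟩, 1)).1.u = 1 ∧ (φ (⟨b, 1⟩, 1)).2 = 1 := by
  by_cases hb0 : b = 0
  · have h1 : ((⟨b, 1⟩, 1) : Hol n × P) = 1 := by rw [hb0]; rfl
    rw [h1, map_one]
    exact ⟨rfl, rfl⟩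
  have hpow : ∀ k : ℕ, ((⟨b, 1⟩, 1) : Hol n × P) ^ k = (⟨(k : ZMod n) * b, 1⟩, 1) := by
    intro k
    induction k with
    | zero => simp; rfl
    | succ k ih =>
      rw [pow_succ, ih]
      refine Prod.ext ?_ ?_
      · ext
        · simp; ring
        · simp
      · simp
  let g : Hol n × P := (⟨b, 1⟩, 1)
  have hgq : g ^ q = 1 := by
    show ((⟨b, 1⟩, 1) : Hol n × P) ^ q = 1
    rw [hpow, hb]; rfl
  have hg1 : g ≠ 1 := by
    intro h1
    exact hb0 (congrArg (fun z : Hol n × P => z.1.a) h1)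
  have hord : orderOf g = q := by
    have : Fact q.Prime := ⟨hq⟩
    exact orderOf_eq_prime hgq hg1
  have hnorm : (Subgroup.zpowers g).Normal := by
    constructor
    intro y hy x
    obtain ⟨k, hk⟩ := Subgroup.mem_zpowers_iff.1 hy
    have h1 : x * g * x⁻¹ ∈ Subgroup.zpowers g := by
      have h2 : x * g * x⁻¹ = g ^ ((x.1.u : ZMod n)).val := by
        show _ = ((⟨b, 1⟩, 1) : Hol n × P) ^ ((x.1.u : ZMod n)).val
        rw [hpow, ZMod.natCast_zmod_val]
        refine Prod.ext ?_ ?_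
        · exact Hol.conj_trans x.1 b
        · show x.2 * 1 * x.2⁻¹ = 1
          simp
      rw [h2]
      exact Subgroup.npow_mem_zpowers g _
    have h3 : x * y * x⁻¹ = (x * g * x⁻¹) ^ k := by
      rw [← hk, conj_zpow]
    rw [h3]
    exact Subgroup.zpow_mem _ h1 k
  have hnorm' : ((Subgroup.zpowers g).map φ.toMonoidHom).Normal :=
    hnorm.map _ φ.surjective
  have hcard : Nat.card ((Subgroup.zpowers g).map φ.toMonoidHom) = q := by
    rw [← hord, ← Nat.card_zpowers g]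
    exact (Nat.card_congr ((Subgroup.zpowers g).equivMapOfInjective φ.toMonoidHom
      φ.injective).toEquiv).symm
  exact trans_of_normal hq hP _ hcard (φ g) ⟨g, Subgroup.mem_zpowers g, rfl⟩

end Pool.Agent.Helper38.AutTower
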