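import Pool.Agent.Helper38.AutMain

/-!
# The automorphism tower of a product with the holomorph of a cyclic group
-/

set_option autoImplicit false

namespace Pool.Agent.Helper38.AutTower

open scoped IsMulCommutative

theorem prime_of_card_one {n : ℕ} (hn : Squarefree n) (h : n.primeFactors.card = 1) :
    n.Prime := by
  obtain ⟨q, hq⟩ := Finset.card_eq_one.1 h
  have h1 := Nat.prod_primeFactors_of_squarefree hn
  rw [hq, Finset.prod_singleton] at h1
  have h2 : q ∈ n.primeFactors := by rw [hq]; exact Finset.mem_singleton_self q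
  rw [← h1]
  exact Nat.prime_of_mem_primeFactors h2

theorem center_prod_ne_bot {G X A : Type} [Group G] [Group X] [Group A]
    (hG : Subgroup.center G = ⊥) (e : A ≃* G × X) :
    Subgroup.center A ≠ ⊥ ↔ Subgroup.center X ≠ ⊥ := by
  constructor
  · intro h hX
    exact h (center_bot_congr e.symm (center_prod_bot hG hX))
  · intro h hA
    apply h
    have h1 : Subgroup.center (G × X) = ⊥ := center_bot_congr e hA
    rw [Subgroup.eq_bot_iff_forall]
    intro x hx
    rw [Subgroup.mem_center_iff] at hx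
    have h2 : ((1, x) : G × X) ∈ Subgroup.center (G × X) := by
      rw [Subgroup.mem_center_iff]
      intro g
      exact Prod.ext (by simp) (hx g.2)
    rw [h1, Subgroup.mem_bot] at h2
    exact congrArg Prod.snd h2

/-- The automorphism tower of `Hol n × P`, where `n ≠ 1` is squarefree and all its prime factors
are admissible for `P`. -/
theorem tower_sq (P : Type) [hP : Group P] [hF : Finite P] (n : ℕ) (hn : Squarefree n)
    (hn1 : n ≠ 1) (hadm : ∀ q ∈ n.primeFactors, Adm q P)
    (A : ℕ → Type) [∀ i, Group (A i)] (hA : IsTower A (Hol n × P)) :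
    ∃ (X : ℕ → Type) (_ : ∀ i, Group (X i)) (_ : ∀ i, Finite (X i)),
      Nonempty (X 0 ≃* P) ∧
      (∀ i, Nonempty (A i ≃* Hol n × X i) ∧ Nonempty (X (i + 1) ≃* Psi n (X i)) ∧
        Nat.card (A (i + 1)) = Nat.card (A i)
          * (Nat.card (Subgroup.center (X i)) ^ (n.primeFactors.card - 1) * outCard (X i)) ∧
        (Subgroup.center (A (i + 1)) ≠ ⊥ ↔
          (∃ z ∈ Subgroup.center (X i), z ≠ 1 ∧ ∀ a : MulAut (X i), a z = z) ∨
          ∃ a ∈ Subgroup.center (MulAut (X i)), a ≠ 1 ∧
            ∀ z ∈ Subgroup.center (X i), a z = z)) ∧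
      ((InfinitelyMany A ∧ (∀ i, 2 * Nat.card (A i) ≤ Nat.card (A (i + 3))) ∧
          (¬ n.Prime → ∀ i, 2 * Nat.card (A i) ≤ Nat.card (A (i + 1)))) ∨
        ∃ (N : ℕ) (Q : Type) (_ : Group Q) (_ : Finite Q), IsComplete Q ∧
          ((∀ i, N ≤ i → Nonempty (A i ≃* Hol n × Q)) ∨
            (n.Prime ∧ (∀ K : Subgroup Q, K.index ≠ 2) ∧
              ∀ i, N ≤ i → Nonempty (A i ≃* Hol n × (Multiplicative (ZMod 2) × Q))))) ∧
      ((∀ i, Subgroup.center (A i) ≠ ⊥ ∧
          (n.Prime → ∃ K : Subgroup (X i), K.index = 2 ∧ Subgroup.center (X i) ≤ K)) →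
        InfinitelyMany A) ∧
      (∀ p : ℕ, p.Prime → 2 < Nat.card P → (∀ i, IsPGroup p (X i)) → InfinitelyMany A) := by
  have hn0 : n ≠ 0 := hn.ne_zero
  have : NeZero n := ⟨hn0⟩
  have h2 : IsUnit (2 : ZMod n) := by
    refine isUnit_two (Nat.not_even_iff_odd.1 fun h => ?_)
    exact (hadm 2 (Nat.mem_primeFactors.2 ⟨Nat.prime_two, h.two_dvd, hn0⟩)).2.1 rfl
  let G : FG := ⟨P, hP, hF⟩
  let X : ℕ → Type := fun i => (FG.seq n G i).α
  have hs : ∀ i, (∀ q ∈ n.primeFactors, Adm q (FG.seq n G i).α) ∧
      Nonempty (A i ≃* Hol n × (FG.seq n G i).α) := tower_struct hn hn1 G hadm A hA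
  have hcardA : ∀ i, Nat.card (A i) = Nat.card (Hol n) * Nat.card (FG.seq n G i).α := by
    intro i
    obtain ⟨e⟩ := (hs i).2
    rw [Nat.card_congr e.toEquiv, Nat.card_prod]
  have hcardX : ∀ i, Nat.card (FG.seq n G (i + 1)).α
      = Nat.card (FG.seq n G i).α
        * (Nat.card (Subgroup.center (FG.seq n G i).α) ^ (n.primeFactors.card - 1)
          * outCard (FG.seq n G i).α) :=
    fun i => card_psi_sq hn hn1 (hs i).1
  have hstep : ∀ i, Nat.card (A (i + 1)) = Nat.card (A i)
      * (Nat.card (Subgroup.center (FG.seq n G i).α) ^ (n.primeFactors.card - 1)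
          * outCard (FG.seq n G i).α) := by
    intro i
    rw [hcardA, hcardA, hcardX, mul_assoc]
  have hpos : ∀ i, 0 < Nat.card (A i) := by
    intro i
    rw [hcardA]
    exact Nat.mul_pos Nat.card_pos Nat.card_pos
  have hdvd : ∀ i, Nat.card (A i) ∣ Nat.card (A (i + 1)) := fun i => ⟨_, hstep i⟩
  have hmono : ∀ i, Nat.card (A i) ≤ Nat.card (A (i + 1)) :=
    fun i => Nat.le_of_dvd (hpos _) (hdvd i)
  have hcenter : ∀ i, Subgroup.center (A i) ≠ ⊥ ↔ Subgroup.center (FG.seq n G i).α ≠ ⊥ := by
    intro i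
    obtain ⟨e⟩ := (hs i).2
    exact center_prod_ne_bot (center_hol h2) e
  have hcp : ∀ i, 0 < Nat.card (Subgroup.center (FG.seq n G i).α) := fun i => Nat.card_pos
  have hop : ∀ i, 0 < outCard (FG.seq n G i).α := fun i => outCard_pos _
  -- growth
  have hgrow : (∀ i, 2 ≤ Nat.card (Subgroup.center (FG.seq n G i).α)
        ^ (n.primeFactors.card - 1) * outCard (FG.seq n G i).α) →
      ∀ i, 2 * Nat.card (A i) ≤ Nat.card (A (i + 1)) := by
    intro h i
    rw [hstep i, mul_comm]
    exact Nat.mul_le_mul_left _ (h i)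
  -- the two cases
  have key : ((InfinitelyMany A ∧ (∀ i, 2 * Nat.card (A i) ≤ Nat.card (A (i + 3))) ∧
          (¬ n.Prime → ∀ i, 2 * Nat.card (A i) ≤ Nat.card (A (i + 1)))) ∨
        ∃ (N : ℕ) (Q : Type) (_ : Group Q) (_ : Finite Q), IsComplete Q ∧
          ((Subgroup.center (A N) = ⊥ ∧ (∀ i, N ≤ i → Nonempty (A i ≃* Hol n × Q))) ∨
            (n.Prime ∧ (∀ K : Subgroup Q, K.index ≠ 2) ∧
              Nonempty ((FG.seq n G N).α ≃* Multiplicative (ZMod 2) × Q) ∧
              ∀ i, N ≤ i → Nonempty (A i ≃* Hol n × (Multiplicative (ZMod 2) × Q))))) := by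
    by_cases hp : n.Prime
    · -- one prime
      have hadm' : ∀ i, Adm n (FG.seq n G i).α := fun i =>
        (hs i).1 n (by rw [hp.primeFactors]; exact Finset.mem_singleton_self n)
      have hr : n.primeFactors.card - 1 = 0 := by
        rw [hp.primeFactors, Finset.card_singleton]
      have hstep1 : ∀ i, Nat.card (A (i + 1)) = Nat.card (A i) * outCard (FG.seq n G i).α := by
        intro i
        rw [hstep, hr, pow_zero, one_mul]
      by_cases hall : ∀ i, ¬ (outCard (FG.seq n G i).α = 1 ∧ outCard (FG.seq n G (i + 1)).α = 1 ∧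
          outCard (FG.seq n G (i + 2)).α = 1)
      · left
        have h2 : ∀ i, 2 * Nat.card (A i) ≤ Nat.card (A (i + 3)) := by
          intro i
          have h3 : Nat.card (A (i + 3)) = Nat.card (A i) * (outCard (FG.seq n G i).α
              * outCard (FG.seq n G (i + 1)).α * outCard (FG.seq n G (i + 2)).α) := by
            rw [hstep1 (i + 2), hstep1 (i + 1), hstep1 i]; ring
          have h4 := hop i
          have h5 := hop (i + 1)
          have h6 := hop (i + 2)
          have h7 : 2 ≤ outCard (FG.seq n G i).α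
              * outCard (FG.seq n G (i + 1)).α * outCard (FG.seq n G (i + 2)).α := by
            by_contra h8
            push Not at h8
            have h9 := Nat.mul_pos (Nat.mul_pos h4 h5) h6
            have h10 : outCard (FG.seq n G i).α
              * outCard (FG.seq n G (i + 1)).α * outCard (FG.seq n G (i + 2)).α = 1 := by omega
            rw [mul_eq_one, mul_eq_one] at h10
            exact hall i ⟨h10.1.1, h10.1.2, h10.2⟩
          rw [h3, mul_comm]
          exact Nat.mul_le_mul_left _ h7
        exact ⟨infinitelyMany_of_card A 3 (by norm_num) hpos hdvd h2, h2, fun h => absurd hp h⟩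
      · right
        push Not at hall
        obtain ⟨i, o0, o1, o2⟩ := hall
        obtain ⟨⟨est⟩, Q, hQg, hQf, hQc, hQ⟩ := stable (X0 := (FG.seq n G i).α)
          (X1 := (FG.seq n G (i + 1)).α) (X2 := (FG.seq n G (i + 2)).α) (hadm' i)
          (hadm' (i + 1))
          (MulEquiv.refl _) (MulEquiv.refl _) (inner_of_outCard _ o0) (inner_of_outCard _ o1)
          (inner_of_outCard _ o2)
        obtain ⟨a1⟩ := (hs (i + 1)).2
        obtain ⟨a2⟩ := (hs (i + 2)).2
        have hAA : Nonempty (A (i + 1 + 1) ≃* A (i + 1)) :=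
          ⟨(a2.trans (MulEquiv.prodCongr (MulEquiv.refl _) est)).trans a1.symm⟩
        have hconst := tower_const A hA (i + 1) hAA
        refine ⟨i + 1, Q, hQg, hQf, hQc, ?_⟩
        rcases hQ with ⟨⟨g⟩⟩ | ⟨hno, ⟨g⟩⟩
        · left
          refine ⟨?_, fun j hj => ?_⟩
          · by_contra hne
            exact (hcenter (i + 1)).1 hne (center_bot_congr g.symm hQc.1)
          · obtain ⟨c⟩ := hconst j hj
            exact ⟨(c.trans a1).trans (MulEquiv.prodCongr (MulEquiv.refl _) g)⟩
        · right
          refine ⟨hp, hno, ⟨g⟩, fun j hj => ?_⟩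
          obtain ⟨c⟩ := hconst j hj
          exact ⟨(c.trans a1).trans (MulEquiv.prodCongr (MulEquiv.refl _) g)⟩
    · by_cases hall : ∀ i, 2 ≤ Nat.card (Subgroup.center (FG.seq n G i).α)
          ^ (n.primeFactors.card - 1) * outCard (FG.seq n G i).α
      · left
        have h2 := hgrow hall
        exact ⟨infinitelyMany_of_card A 1 (by norm_num) hpos hdvd h2,
          fun i => (h2 i).trans ((hmono _).trans (hmono _)), fun _ => h2⟩
      · right
        push Not at hall
        obtain ⟨i, hi⟩ := hall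
        have h3 : 0 < n.primeFactors.card := by
          rw [Finset.card_pos, Nat.nonempty_primeFactors]
          omega
        have h4 : n.primeFactors.card ≠ 1 := fun h => hp (prime_of_card_one hn h)
        have h5 : n.primeFactors.card - 1 ≠ 0 := by omega
        have h6 := Nat.mul_pos (pow_pos (hcp i) (n.primeFactors.card - 1)) (hop i)
        have h7 : Nat.card (Subgroup.center (FG.seq n G i).α)
          ^ (n.primeFactors.card - 1) * outCard (FG.seq n G i).α = 1 := by omega
        have h8 := mul_eq_one.1 h7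
        have hc : Subgroup.center (FG.seq n G i).α = ⊥ :=
          Subgroup.eq_bot_of_card_eq _ (((Nat.pow_eq_one).1 h8.1).resolve_right h5)
        have hin := inner_of_outCard (FG.seq n G i).α h8.2
        obtain ⟨a⟩ := (hs i).2
        have hcA : Subgroup.center (A i) = ⊥ := by
          by_contra hne
          exact (hcenter i).1 hne hc
        have hfin : Finite (A i) := Nat.finite_of_card_ne_zero (hpos i).ne'
        obtain ⟨b⟩ := hA.2 i
        have hcM : Nat.card (MulAut (A i)) = Nat.card (A i) := by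
          rw [← Nat.card_congr b.toEquiv, hstep, h7, mul_one]
        have hinj : Function.Injective (MulAut.conj : A i →* MulAut (A i)) := by
          rw [injective_iff_map_eq_one]
          intro x hx
          have h6 := central_of_conj hx
          rw [hcA, Subgroup.mem_bot] at h6
          exact h6
        have hbij : Function.Bijective (MulAut.conj : A i →* MulAut (A i)) :=
          (Nat.bijective_iff_injective_and_card _).2 ⟨hinj, hcM.symm⟩
        have hAA : Nonempty (A (i + 1) ≃* A i) :=
          ⟨b.trans (MulEquiv.ofBijective _ hbij).symm⟩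
        refine ⟨i, (FG.seq n G i).α, (FG.seq n G i).grp,
          (FG.seq n G i).fin, ⟨hc, hin⟩, Or.inl ⟨hcA, fun j hj => ?_⟩⟩
        obtain ⟨c⟩ := tower_const A hA i hAA j hj
        exact ⟨c.trans a⟩
  refine ⟨X, fun i => (FG.seq n G i).grp, fun i => (FG.seq n G i).fin, ⟨MulEquiv.refl _⟩,
    fun i => ⟨(hs i).2, ⟨MulEquiv.refl _⟩, hstep i, ?_⟩, ?_, ?_, ?_⟩
  · rw [hcenter]
    exact center_psi_ne_bot hn hn1 (hs i).1
  · rcases key with h | ⟨N, Q, hQg, hQf, hQc, h | h⟩
    · exact Or.inl h
    · exact Or.inr ⟨N, Q, hQg, hQf, hQc, Or.inl h.2⟩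
    · exact Or.inr ⟨N, Q, hQg, hQf, hQc, Or.inr ⟨h.1, h.2.1, h.2.2.2⟩⟩
  · intro hcr
    rcases key with h | ⟨N, Q, hQg, hQf, hQc, h | ⟨hp, hno, ⟨g⟩, _⟩⟩
    · exact h.1
    · exact absurd h.1 (hcr N).1
    · exfalso
      obtain ⟨K, hK, hcK⟩ := (hcr N).2 hp
      refine no_index_two hno (K.map g.toMonoidHom) ?_ ?_
      · exact (Subgroup.index_map_equiv K g).trans hK
      · intro y hy
        refine ⟨g.symm y, hcK ?_, g.apply_symm_apply y⟩
        rw [Subgroup.mem_center_iff] at hy ⊢
        intro x
        apply g.injective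
        rw [map_mul, map_mul, g.apply_symm_apply]
        exact hy (g x)
  · intro p hp hcard hpg
    rcases key with h | ⟨N, Q, hQg, hQf, hQc, hQ⟩
    · exact h.1
    exfalso
    have : Fact p.Prime := ⟨hp⟩
    have hdvdX : ∀ i, Nat.card P ∣ Nat.card (FG.seq n G i).α := by
      intro i
      induction i with
      | zero => exact dvd_rfl
      | succ i ih => exact ih.trans ⟨_, hcardX i⟩
    have hhol : 0 < Nat.card (Hol n) := Nat.card_pos
    -- the complete group is a `p`-group
    have hQp : Nat.card Q ∣ Nat.card (FG.seq n G N).α ∧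
        (Nat.card (FG.seq n G N).α ≤ 2 * Nat.card Q) := by
      rcases hQ with h | ⟨_, _, _, h⟩
      · obtain ⟨e⟩ := h.2 N le_rfl
        have h1 : Nat.card (A N) = Nat.card (Hol n) * Nat.card Q := by
          rw [Nat.card_congr e.toEquiv, Nat.card_prod]
        rw [hcardA] at h1
        have h2 := Nat.eq_of_mul_eq_mul_left hhol h1
        exact ⟨h2 ▸ dvd_rfl, by omega⟩
      · obtain ⟨e⟩ := h N le_rfl
        have h1 : Nat.card (A N) = Nat.card (Hol n) * (2 * Nat.card Q) := by
          rw [Nat.card_congr e.toEquiv, Nat.card_prod, Nat.card_prod,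
            Nat.card_congr Multiplicative.toAdd, Nat.card_zmod]
        rw [hcardA] at h1
        have h2 := Nat.eq_of_mul_eq_mul_left hhol h1
        exact ⟨⟨2, by rw [h2, mul_comm]⟩, by omega⟩
    obtain ⟨k, hk⟩ := (IsPGroup.iff_card (G := (FG.seq n G N).α)).1 (hpg N)
    have hQP : IsPGroup p Q := by
      obtain ⟨l, _, hl⟩ := (Nat.dvd_prime_pow hp).1 (hk ▸ hQp.1)
      exact IsPGroup.of_card hl
    have hQ1 : Nat.card Q = 1 := by
      by_contra hne
      have hnt : Nontrivial Q := by
        rw [← Finite.one_lt_card_iff_nontrivial]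
        have : 0 < Nat.card Q := Nat.card_pos
        omega
      have h3 := hQP.center_nontrivial
      rw [hQc.1] at h3
      exact not_nontrivial (⊥ : Subgroup Q) h3
    have h4 : Nat.card (FG.seq n G N).α ≤ 2 := by
      have := hQp.2
      omega
    have h5 : Nat.card P ≤ Nat.card (FG.seq n G N).α := Nat.le_of_dvd Nat.card_pos (hdvdX N)
    omega

end Pool.Agent.Helper38.AutTower
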