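import Pool.Agent.Helper44.JefVort

/-! # Difference of two solutions: the hypotheses of the variance inequality (module P6c) -/

open MeasureTheory Set Filter Topology
open scoped ENNReal NNReal ContDiff

namespace Pool.Agent.Helper38.JefDiff

open Pool.Agent.Helper42.Jef Pool.Agent.Helper44.Vort

variable {n : ℕ}

theorem norm_hvec_le (v : ST n → Eu n) (G : ST n → Mt n) (z : ST n) :
    ‖hvec v G z‖ ≤ ‖v z‖ * ‖G z‖ := by
  have h1 : ‖hvec v G z‖ ^ 2 ≤ (‖v z‖ * ‖G z‖) ^ 2 := by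
    rw [mul_pow, EuclideanSpace.real_norm_sq_eq, EuclideanSpace.real_norm_sq_eq,
      EuclideanSpace.real_norm_sq_eq, Fintype.sum_prod_type, Finset.mul_sum]
    refine Finset.sum_le_sum fun i _ => ?_
    exact Finset.sum_mul_sq_le_sq_mul_sq Finset.univ (fun l => v z l) fun l => G z (i, l)
  exact le_of_sq_le_sq h1 (by positivity)

theorem hvec_integrable {v : ST n → Eu n} {G : ST n → Mt n} (hv : MemLp v 2 volume)
    (hG : MemLp G 2 volume) : Integrable (hvec v G) := by
  have h1 : Integrable (fun z => ‖v z‖ * ‖G z‖) := hv.norm.integrable_mul hG.norm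
  refine h1.mono' ?_ (Eventually.of_forall fun z => norm_hvec_le v G z)
  have h2 : AEStronglyMeasurable (fun z => (v z, G z)) volume := hv.1.prodMk hG.1
  have h3 : Continuous fun p : Eu n × Mt n =>
      (WithLp.toLp 2 fun i => ∑ l, p.1 l * p.2 (i, l) : Eu n) := by fun_prop
  exact h3.comp_aestronglyMeasurable h2

theorem hvec_bound {v : ST n → Eu n} {G : ST n → Mt n} (hv : MemLp v 2 volume)
    (hG : MemLp G 2 volume) : ∫ z, ‖hvec v G z‖ ≤
      (eLpNorm v 2 volume).toReal * (eLpNorm G 2 volume).toReal := by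
  have h1 : Integrable (fun z => ‖v z‖ * ‖G z‖) := hv.norm.integrable_mul hG.norm
  refine (integral_mono (hvec_integrable hv hG).norm h1 fun z => norm_hvec_le v G z).trans ?_
  have h2 := (le_abs_self _).trans (integral_inner_le hv.norm hG.norm)
  rw [eLpNorm_norm, eLpNorm_norm] at h2
  refine le_trans (le_of_eq ?_) h2
  refine integral_congr_ae (Eventually.of_forall fun x => ?_)
  simp only [RCLike.inner_apply, conj_trivial]
  ring

/-- P6c: the hypotheses of `ReprStar` for two converging sequences of solutions -/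
theorem diff_facts {Ω : Set (Eu n)} (hΩ : IsOpen Ω) {T μ a c : ℝ} (hT : 0 < T)
    {f : ℝ → (Eu n → Eu n) → ℝ} {v0 : Eu n → Eu n}
    {τ0 : Eu n → Mt n} {Ss : ℕ → ST n → Mt n} {vs : ℕ → ST n → Eu n} {Gs τs : ℕ → ST n → Mt n}
    {v : ST n → Eu n} {G τ : ST n → Mt n}
    (h : ∀ m, IsSol Ω T μ a c f v0 τ0 (Ss m) (vs m) (Gs m) (τs m))
    (wv : WC volume vs v) (wG : WC volume Gs G) (wτ : WC volume τs τ)
    (hs : Tendsto (fun m => eLpNorm (fun z => vs m z - v z) 2 volume) atTop (𝓝 0))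
    (hmom : ∀ (η : ℝ → ℝ) (φ : Eu n → Eu n), IsTime (-1) T η → IsVT Ω φ →
    (∫ z : ST n, (deriv η z.1 * inner ℝ (v z) (φ z.2) +
      η z.1 * (inner ℝ (v z) (fderiv ℝ φ z.2 (v z)) - μ * inner ℝ (G z) (grad φ z.2) -
        c * inner ℝ (τ z) (sy (grad φ z.2))))) + (∫ t in Ioo 0 T, η t * f t φ) +
      η 0 * ∫ x, inner ℝ (v0 x) (φ x) = 0) :
    (∀ m, IsVel Ω T (fun z => vs m z - v z) (fun z => Gs m z - G z)) ∧
    (∀ m, Integrable (fun z => hvec (vs m) (Gs m) z - hvec v G z)) ∧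
    (∃ M : ℝ, ∀ m, ∫ z, ‖hvec (vs m) (Gs m) z - hvec v G z‖ ≤ M) ∧
    (∀ ψ, IsTestST Ω T ψ → ∀ i, Tendsto (fun m =>
      ∫ z, (hvec (vs m) (Gs m) z - hvec v G z) i * ψ z) atTop (𝓝 0)) ∧
    (∀ m, ∀ i j : Fin n, ∀ ψ, IsTestST Ω T ψ →
      ∫ z, ((Gs m z - G z) (i, j) - (Gs m z - G z) (j, i)) *
        (dt ψ z + μ * ∑ l, dx l (dx l ψ) z) =
      ∫ z, (-((hvec (vs m) (Gs m) z - hvec v G z) i * dx j ψ z) +
        (hvec (vs m) (Gs m) z - hvec v G z) j * dx i ψ z - c * ∑ l,
        (sy (τs m z - τ z) (l, i) * dx l (dx j ψ) z -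
          sy (τs m z - τ z) (l, j) * dx l (dx i ψ) z))) := by
  have hV : IsVel Ω T v G := IsVel.of_wc (fun m => (h m).vel) wv wG
  have I1 : ∀ m, Integrable (hvec (vs m) (Gs m)) := fun m =>
    hvec_integrable (h m).vel.memv (h m).vel.memG
  have I2 : Integrable (hvec v G) := hvec_integrable hV.memv hV.memG
  refine ⟨fun m => (h m).vel.sub hV, fun m => (I1 m).sub I2, ?_, ?_, ?_⟩
  · obtain ⟨C1, hC1⟩ := wv.bdd
    obtain ⟨C2, hC2⟩ := wG.bdd
    refine ⟨max C1 0 * max C2 0 + ∫ z, ‖hvec v G z‖, fun m => ?_⟩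
    have b1 : (eLpNorm (vs m) 2 volume).toReal ≤ max C1 0 := by
      refine ENNReal.toReal_le_of_le_ofReal (le_max_right _ _) ((hC1 m).trans ?_)
      exact ENNReal.ofReal_le_ofReal (le_max_left _ _)
    have b2 : (eLpNorm (Gs m) 2 volume).toReal ≤ max C2 0 := by
      refine ENNReal.toReal_le_of_le_ofReal (le_max_right _ _) ((hC2 m).trans ?_)
      exact ENNReal.ofReal_le_ofReal (le_max_left _ _)
    calc ∫ z, ‖hvec (vs m) (Gs m) z - hvec v G z‖
        ≤ ∫ z, (‖hvec (vs m) (Gs m) z‖ + ‖hvec v G z‖) :=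
          integral_mono ((I1 m).sub I2).norm ((I1 m).norm.add I2.norm) fun z => norm_sub_le _ _
      _ = (∫ z, ‖hvec (vs m) (Gs m) z‖) + ∫ z, ‖hvec v G z‖ :=
          integral_add (I1 m).norm I2.norm
      _ ≤ _ := by
          refine add_le_add ((hvec_bound (h m).vel.memv (h m).vel.memG).trans ?_) le_rfl
          exact mul_le_mul b1 b2 ENNReal.toReal_nonneg (le_max_right _ _)
  · intro ψ hψ i
    have hS : SC ψ := ⟨hψ.smooth, hψ.cpt⟩
    obtain ⟨C, hC⟩ := hS.bdd
    have e : ∀ (w : ST n → Eu n) (W : ST n → Mt n), MemLp w 2 volume → MemLp W 2 volume →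
        ∫ z, hvec w W z i * ψ z = ∑ l, ∫ z, ψ z • bl (i, l) l (W z) (w z) := by
      intro w W hw hW
      rw [← integral_finsetSum]
      · refine integral_congr_ae (Eventually.of_forall fun z => ?_)
        simp only [hvec, bl_apply, smul_eq_mul]
        rw [Finset.sum_mul]
        exact Finset.sum_congr rfl fun l _ => by ring
      · intro l _
        exact int3 (comp_mem hW (i, l)) (comp_mem hw l) hS
    have lim : Tendsto (fun m => ∫ z, hvec (vs m) (Gs m) z i * ψ z) atTop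
        (𝓝 (∫ z, hvec v G z i * ψ z)) := by
      rw [e v G hV.memv hV.memG]
      simp only [fun m => e (vs m) (Gs m) (h m).vel.memv (h m).vel.memG]
      exact tendsto_finsetSum _ fun l _ => wc_mul_strong wG (fun m => (h m).vel.memv) hV.memv hs
        (bl (i, l) l) ψ hS.aesm C hC
    have lim2 := lim.sub_const (∫ z, hvec v G z i * ψ z)
    rw [sub_self] at lim2
    refine lim2.congr fun m => ?_
    rw [← integral_sub (hvec_int (h m).vel hS i) (hvec_int hV hS i)]
    refine integral_congr_ae (Eventually.of_forall fun z => ?_)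
    simp only [PiLp.sub_apply]
    ring
  · intro m
    refine vorticity hΩ hT (h m).vel hV (h m).memτ wτ.memU ?_
    intro η φ hη hφ
    have hη' : IsTime (-1) T η := ⟨hη.smooth, hη.cpt, hη.supp.trans (Ioo_subset_Ioo_left (by norm_num))⟩
    have h0 : η 0 = 0 := image_eq_zero_of_notMem_tsupport fun h0 => absurd (hη.supp h0).1 (lt_irrefl _)
    have e1 := (h m).mom η φ hη' hφ
    have e2 := hmom η φ hη' hφ
    rw [h0, zero_mul, add_zero] at e1 e2
    linarith

end Pool.Agent.Helper38.JefDiff
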