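import Pool.Agent.Helper38.SnevU

set_option autoImplicit false
set_option linter.unusedSectionVars false

namespace Pool.Agent.Helper38.SnevK

open Finset Equiv

section E

variable {l : ℕ}

/-- The two surviving labellings. -/
def eE (l : ℕ) (x : ZMod 2) (w : Fin l × ZMod 2) : ZMod 2 := x + ((w.1 : ℕ) : ZMod 2)

theorem par0 {y : ℕ} (h : (y : ZMod 2) = 0) : ∃ k, y = 2 * k := by
  rw [ZMod.natCast_eq_zero_iff] at h
  exact h

theorem par1 {y : ℕ} (h : (y : ZMod 2) = 1) : ∃ k, y = 2 * k + 1 := by
  rcases Nat.even_or_odd' y with ⟨k, hk | hk⟩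
  · exfalso
    rw [hk] at h
    push_cast at h
    rw [show (2 : ZMod 2) = 0 from by decide, zero_mul] at h
    exact absurd h (by decide)
  · exact ⟨k, hk⟩

theorem card_snd (x : ZMod 2) :
    (univ.filter fun w : Fin l × ZMod 2 => w.2 = x).card = l := by
  have : (univ.filter fun w : Fin l × ZMod 2 => w.2 = x) = (univ : Finset (Fin l)) ×ˢ {x} := by
    ext w
    rw [mem_filter, Finset.mem_product, mem_singleton]
    simp only [mem_univ, true_and]
  rw [this, Finset.card_product]
  simp

variable {F : Type*} [Field F]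

/-- exponents in the first matrix -/
def hE (e : Fin l × ZMod 2 → ZMod 2) (w : Fin l × ZMod 2) : ℕ :=
  (w.1 : ℕ) + if w.2 + e w = 1 then 1 else 0

theorem nvE_A (hl : Even l) (x : ZMod 2) (α : Fin l × ZMod 2 → F) (hα0 : ∀ i, α i ≠ 0)
    (hα : ∀ i j : Fin l × ZMod 2, i.2 = j.2 → α i = α j → i = j) :
    (Matrix.of fun w i => if i.2 = eE l x w then α i ^ hE (eE l x) w else 0 :
      Matrix (Fin l × ZMod 2) (Fin l × ZMod 2) F).det ≠ 0 := by
  obtain ⟨k, hk⟩ := hl
  apply nv (fun i : Fin l × ZMod 2 => i.2) (eE l x) α (hE (eE l x))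
    (fun e => if e + x = 0 then 0 else 1) hα0 hα
  · rintro ⟨y, c⟩ ⟨y', c'⟩ h h'
    unfold eE at h
    unfold hE at h'
    simp only at h h'
    have h2 : ((y : ℕ) : ZMod 2) = ((y' : ℕ) : ZMod 2) := add_left_cancel h
    have h3 : (y : ℕ) = y' := by
      rcases zc ((y : ℕ) : ZMod 2) with h4 | h4
      · obtain ⟨a, ha⟩ := par0 h4
        obtain ⟨a', ha'⟩ := par0 (h2.symm.trans h4)
        split_ifs at h' <;> omega
      · obtain ⟨a, ha⟩ := par1 h4
        obtain ⟨a', ha'⟩ := par1 (h2.symm.trans h4)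
        split_ifs at h' <;> omega
    have h5 : y = y' := Fin.ext h3
    subst h5
    have h6 : c = c' := by
      unfold eE at h'
      simp only at h'
      revert h'
      generalize x + ((y : ℕ) : ZMod 2) = z
      intro h'
      rcases zc c with rfl | rfl <;> rcases zc c' with rfl | rfl <;> rcases zc z with rfl | rfl <;>
        first
        | rfl
        | (exfalso; revert h'; simp)
    rw [h6]
  · rintro ⟨y, c⟩
    unfold eE hE
    simp only
    split_ifs with h1 h2 h2
    · omega
    · omega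
    · omega
    · have h3 : ((y : ℕ) : ZMod 2) = 1 := by
        rw [← zne]
        intro h4
        apply h1
        rw [h4, add_zero, zaa]
      obtain ⟨a, ha⟩ := par1 h3
      omega
  · rintro ⟨y, c⟩
    rw [card_snd]
    unfold eE hE
    simp only
    have hy := y.2
    rcases zc ((y : ℕ) : ZMod 2) with h4 | h4
    · obtain ⟨a, ha⟩ := par0 h4
      split_ifs <;> omega
    · rw [if_neg (show ¬ (x + ((y : ℕ) : ZMod 2) + x = 0) by
        rw [h4]; revert x; decide)]
      split_ifs <;> omega

/-- second matrix -/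
def ME (β : Fin l × ZMod 2 → F) (e : Fin l × ZMod 2 → ZMod 2) :
    Matrix (Fin l × ZMod 2) (Fin l × ZMod 2) F :=
  Matrix.of fun w u => if u.2 = w.2 + e w then β u ^ (w.1 : ℕ) else 0

theorem nvE_B (x : ZMod 2) (β : Fin l × ZMod 2 → F) (hβ0 : ∀ i, β i ≠ 0)
    (hβ : ∀ i j : Fin l × ZMod 2, i.2 = j.2 → β i = β j → i = j) :
    (ME β (eE l x)).det ≠ 0 := by
  apply nv (fun i : Fin l × ZMod 2 => i.2) (fun w => w.2 + eE l x w) β (fun w => (w.1 : ℕ))
    (fun e => 0) hβ0 hβ
  · rintro ⟨y, c⟩ ⟨y', c'⟩ h h'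
    have h3 : y = y' := Fin.ext h'
    subst h3
    have h4 : c = c' := add_right_cancel h
    rw [h4]
  · intro w
    exact Nat.zero_le _
  · intro w
    rw [card_snd]
    have := w.1.2
    omega

/-- Uniqueness. -/
theorem uniqE (α β : Fin l × ZMod 2 → F) (e : Fin l × ZMod 2 → ZMod 2)
    (κ : ZMod 2 → F) (p q : Fin l × ZMod 2) (hp : p.2 = 1)
    (hA : (Matrix.of fun w i => if i.2 = e w then α i ^ hE e w else 0 :
      Matrix (Fin l × ZMod 2) (Fin l × ZMod 2) F).det ≠ 0)
    (hB : (Matrix.of fun w u => if u.2 = w.2 + e w then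
        (if w = q then κ (e w) * (if u = p then 1 else 0) * β u ^ (w.1 : ℕ)
          else β u ^ (w.1 : ℕ)) else 0 :
      Matrix (Fin l × ZMod 2) (Fin l × ZMod 2) F).det ≠ 0) : ∃ x, e = eE l x := by
  obtain ⟨s, hs⟩ := exists_perm (I := fun u : Fin l × ZMod 2 => u.2) (v := fun w => w.2 + e w) hB
  have hq : q.2 + e q = 1 := by
    have h1 := hs q
    have h2 : s q = p := by
      by_contra hne
      apply h1.2
      rw [if_pos rfl, if_neg hne]
      ring
    rw [← h1.1, h2, hp]
  have hc0 := card_of_perm (fun w => (hs w).1) (0 : ZMod 2)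
  rw [card_snd] at hc0
  have hinj : ∀ w w' : Fin l × ZMod 2, w.2 + e w = 0 → w'.2 + e w' = 0 → w.1 = w'.1 →
      w = w' := by
    intro w w' hw hw' he
    have n1 : w ≠ q := by
      rintro rfl
      rw [hw] at hq
      exact absurd hq (by decide)
    have n2 : w' ≠ q := by
      rintro rfl
      rw [hw'] at hq
      exact absurd hq (by decide)
    refine eq_of_det_ne (I := fun u : Fin l × ZMod 2 => u.2) (v := fun w => w.2 + e w) hB
      (hw.trans hw'.symm) (fun u => ?_)
    rw [if_neg n1, if_neg n2, he]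
  have hf := fill (v := fun w : Fin l × ZMod 2 => w.2 + e w) (f := fun w => (w.1 : ℕ)) hc0 (by
    intro w w' hw hw' he
    exact hinj w w' hw hw' (Fin.ext he)) (by
    intro w _
    exact w.1.2)
  have hpair : ∀ y : Fin l, e (y, 0) = e (y, 1) := by
    intro y
    obtain ⟨⟨y', c⟩, hw, hfw⟩ := hf y y.2
    have h1 : y' = y := Fin.ext hfw
    subst h1
    by_contra hne
    have h2 : c + e (y', c) = 0 := hw
    have h3 : c + 1 + e (y', c + 1) = 0 := by
      rcases zc c with rfl | rfl
      · rw [zero_add] at h2 ⊢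
        revert hne
        rw [h2]
        generalize e (y', 1) = a
        revert a
        decide
      · rw [show (1 : ZMod 2) + 1 = 0 from by decide]
        revert hne h2
        generalize e (y', 1) = a
        generalize e (y', 0) = a'
        revert a a'
        decide
    have h4 := hinj (y', c) (y', c + 1) h2 h3 rfl
    have h5 : c = c + 1 := congrArg Prod.snd h4
    clear h2 h3 h4 hw hfw
    revert h5
    revert c
    decide
  have hpair' : ∀ (y : Fin l) (c : ZMod 2), e (y, c) = e (y, 0) := by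
    intro y c
    rcases zc c with rfl | rfl
    · rfl
    · exact (hpair y).symm
  have hstep : ∀ (n : ℕ) (h : n + 1 < l), e (⟨n + 1, h⟩, 0) = e (⟨n, by omega⟩, 0) + 1 := by
    intro n h
    by_contra hne
    have h1 : e (⟨n + 1, h⟩, 0) = e (⟨n, by omega⟩, 0) := by
      revert hne
      generalize e (⟨n + 1, h⟩, 0) = a
      generalize e (⟨n, _⟩, 0) = a'
      revert a a'
      decide
    set z := e (⟨n, by omega⟩, 0) with hz
    have h2 := eq_of_det_ne (I := fun u : Fin l × ZMod 2 => u.2) (v := e) hA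
      (w := (⟨n, by omega⟩, z + 1)) (w' := (⟨n + 1, h⟩, z)) (by
        rw [hpair' _ (z + 1), hpair' _ z, h1]) (fun u => by
        have e1 : hE e (⟨n, by omega⟩, z + 1) = n + 1 := by
          unfold hE
          rw [if_pos]
          rw [hpair' _ (z + 1), ← hz]
          simp only
          generalize z = z'
          revert z'
          decide
        have e2 : hE e (⟨n + 1, h⟩, z) = n + 1 := by
          unfold hE
          rw [if_neg]
          rw [hpair' _ z, h1, zaa]
          decide
        rw [e1, e2])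
    have h3 : n = n + 1 := congrArg (fun w : Fin l × ZMod 2 => (w.1 : ℕ)) h2
    omega
  have hl : 0 < l := by
    have := p.1.2
    omega
  refine ⟨e (⟨0, hl⟩, 0), ?_⟩
  have hall : ∀ (n : ℕ) (h : n < l), e (⟨n, h⟩, 0) = e (⟨0, hl⟩, 0) + (n : ZMod 2) := by
    intro n
    induction n with
    | zero => intro h; simp
    | succ n ih =>
      intro h
      rw [hstep n h, ih (by omega)]
      push_cast
      ring
  funext w
  obtain ⟨⟨y, hy⟩, c⟩ := w
  rw [hpair', hall]
  rfl

variable [CharP F 2]

theorem two_add (a b : F) (h : a + b = 0) : a = b := by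
  have h2 : b + b = 0 := CharTwo.add_self_eq_zero b
  exact add_right_cancel (h.trans h2.symm)

/-- partner -/
def rE (l : ℕ) : Perm (Fin l × ZMod 2) :=
  (Equiv.refl (Fin l)).prodCongr (Equiv.addRight 1)

theorem rE_apply (w : Fin l × ZMod 2) : rE l w = (w.1, w.2 + 1) := rfl

theorem rE_rE (w : Fin l × ZMod 2) : rE l (rE l w) = w := by
  rw [rE_apply, rE_apply]
  simp only [add_assoc]
  rw [show (1 : ZMod 2) + 1 = 0 from by decide, add_zero]

theorem ME_one (β : Fin l × ZMod 2 → F) :
    ME β (eE l 1) = (ME β (eE l 0)).submatrix (rE l) id := by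
  ext w u
  have h1 : w.2 + eE l 1 w = (rE l w).2 + eE l 0 (rE l w) := by
    rw [rE_apply]
    unfold eE
    simp only
    ring
  simp only [ME, Matrix.of_apply, Matrix.submatrix_apply, id]
  rw [h1]
  rfl

theorem det_rE (M : Matrix (Fin l × ZMod 2) (Fin l × ZMod 2) F) :
    (M.submatrix (rE l) id).det = M.det := by
  rw [Matrix.det_permute, sign_cast, one_mul]

theorem upd_rE (M : Matrix (Fin l × ZMod 2) (Fin l × ZMod 2) F) (q : Fin l × ZMod 2)
    (x : Fin l × ZMod 2 → F) :
    (M.submatrix (rE l) id).updateRow q x = (M.updateRow (rE l q) x).submatrix (rE l) id := by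
  ext w u
  by_cases h : w = q
  · subst h
    simp
  · rw [Matrix.updateRow_ne h, Matrix.submatrix_apply, Matrix.submatrix_apply,
      Matrix.updateRow_ne (fun h' => h ((rE l).injective h'))]

theorem adj_rE (M : Matrix (Fin l × ZMod 2) (Fin l × ZMod 2) F) (p q : Fin l × ZMod 2) :
    (M.submatrix (rE l) id).adjugate p q = M.adjugate p (rE l q) := by
  rw [Matrix.adjugate_apply, Matrix.adjugate_apply, upd_rE, det_rE]

theorem special_row (β : Fin l × ZMod 2 → F) (e : Fin l × ZMod 2 → ZMod 2)
    (κ : ZMod 2 → F) (p q : Fin l × ZMod 2) :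
    (Matrix.of fun w u => if u.2 = w.2 + e w then
        (if w = q then κ (e w) * (if u = p then 1 else 0) * β u ^ (w.1 : ℕ)
          else β u ^ (w.1 : ℕ)) else 0 :
      Matrix (Fin l × ZMod 2) (Fin l × ZMod 2) F).det =
      κ (e q) * (ME β e q p * (ME β e).adjugate p q) := by
  have h1 : (Matrix.of fun w u => if u.2 = w.2 + e w then
        (if w = q then κ (e w) * (if u = p then 1 else 0) * β u ^ (w.1 : ℕ)
          else β u ^ (w.1 : ℕ)) else 0 :
      Matrix (Fin l × ZMod 2) (Fin l × ZMod 2) F) =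
      (ME β e).updateRow q ((κ (e q) * ME β e q p) • (Pi.single p 1)) := by
    ext w u
    by_cases h : w = q
    · subst h
      rw [Matrix.updateRow_self, Matrix.of_apply, if_pos rfl, Pi.smul_apply, smul_eq_mul]
      by_cases h2 : u = p
      · subst h2
        rw [Pi.single_eq_same, if_pos rfl, ME, Matrix.of_apply]
        split_ifs <;> ring
      · rw [Pi.single_eq_of_ne h2, if_neg h2]
        split_ifs <;> ring
    · rw [Matrix.updateRow_ne h, Matrix.of_apply, if_neg h, ME, Matrix.of_apply]
  rw [h1, Matrix.det_updateRow_smul, Matrix.adjugate_apply]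
  ring

theorem caseE (hl : Even l) (p : Fin l × ZMod 2) (hp : p.2 = 1) (α β : Fin l × ZMod 2 → F)
    (hα0 : ∀ i, α i ≠ 0) (hβ0 : ∀ i, β i ≠ 0)
    (hα : ∀ i j : Fin l × ZMod 2, i.2 = j.2 → α i = α j → i = j)
    (hβ : ∀ i j : Fin l × ZMod 2, i.2 = j.2 → β i = β j → i = j) :
    ¬ NoTr (fun i : Fin l × ZMod 2 => i.2) (fun i : Fin l × ZMod 2 => i.2) α β := by
  intro hno
  set X : ZMod 2 → F := fun x => (Matrix.of fun w i => if i.2 = eE l x w then
    α i ^ hE (eE l x) w else 0 : Matrix (Fin l × ZMod 2) (Fin l × ZMod 2) F).det with hX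
  set t : Fin l × ZMod 2 → F := fun q => ME β (eE l 0) q p * (ME β (eE l 0)).adjugate p q with ht
  have hne01 : eE l 0 ≠ eE l 1 := by
    intro h
    have := congrFun h p
    unfold eE at this
    have h2 := add_right_cancel this
    exact absurd h2 (by decide)
  have key : ∀ κ : ZMod 2 → F, ∑ q : Fin l × ZMod 2, (X 0 * (κ ((q.1 : ℕ) : ZMod 2) * t q) +
      X 1 * (κ (1 + ((q.1 : ℕ) : ZMod 2)) * t q)) = 0 := by
    intro κ
    have h1 := formB (fun i : Fin l × ZMod 2 => i.2) (fun i : Fin l × ZMod 2 => i.2)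
      (fun i : Fin l × ZMod 2 => i.2) α β (fun w => (w.1 : ℕ))
      (fun _ v => if v = 1 then 1 else 0) κ 0 (fun u => if u = p then 1 else 0) hno
    have h2 : ∀ q : Fin l × ZMod 2, ∑ e : Fin l × ZMod 2 → ZMod 2,
        (Matrix.of fun w i => if i.2 = e w then
          α i ^ ((w.1 : ℕ) + (if w.2 + e w = 1 then 1 else 0) + if w = q then 0 else 0) else 0 :
            Matrix (Fin l × ZMod 2) (Fin l × ZMod 2) F).det *
        (Matrix.of fun w u => if u.2 = w.2 + e w then
          (if w = q then κ (e w) * (if u = p then 1 else 0) * β u ^ (w.1 : ℕ)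
            else β u ^ (w.1 : ℕ)) else 0 : Matrix (Fin l × ZMod 2) (Fin l × ZMod 2) F).det =
        X 0 * (κ ((q.1 : ℕ) : ZMod 2) * t q) +
        X 1 * (κ (1 + ((q.1 : ℕ) : ZMod 2)) * t (rE l q)) := by
      intro q
      simp only [ite_self, add_zero]
      rw [Fintype.sum_eq_add (eE l 0) (eE l 1) hne01]
      · congr 1
        · congr 1
          rw [special_row]
          simp only [eE, zero_add, ht]
        · congr 1
          rw [special_row, ME_one, adj_rE]
          simp only [ht]
          rfl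
      · intro e he
        by_contra hcon
        have h3 := mul_ne_zero_iff.1 hcon
        obtain ⟨x, hx⟩ := uniqE α β e κ p q hp h3.1 h3.2
        rcases zc x with rfl | rfl
        · exact he.1 hx
        · exact he.2 hx
    rw [Finset.sum_congr rfl fun q _ => h2 q, Finset.sum_add_distrib] at h1
    rw [Finset.sum_add_distrib, ← h1]
    congr 1
    rw [← Equiv.sum_comp (rE l) (fun q => X 1 * (κ (1 + ((q.1 : ℕ) : ZMod 2)) * t q))]
    rfl
  have hD : ∑ q, t q = (ME β (eE l 0)).det := by
    have h1 := congrFun (congrFun (Matrix.adjugate_mul (ME β (eE l 0))) p) p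
    rw [Matrix.mul_apply] at h1
    simp only [Matrix.smul_apply, Matrix.one_apply_eq, smul_eq_mul, mul_one] at h1
    rw [← h1]
    refine Finset.sum_congr rfl fun q _ => ?_
    rw [ht]
    ring
  have hD0 : (ME β (eE l 0)).det ≠ 0 := nvE_B 0 β hβ0 hβ
  have hX0 : X 0 ≠ 0 := nvE_A hl 0 α hα0 hα
  have hX01 : X 0 = X 1 := by
    have h1 := key (fun _ => 1)
    simp only [one_mul] at h1
    have h2 : (X 0 + X 1) * (ME β (eE l 0)).det = 0 := by
      rw [← hD, ← h1, Finset.mul_sum]
      refine Finset.sum_congr rfl fun q _ => ?_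
      ring
    rcases mul_eq_zero.1 h2 with h3 | h3
    · exact two_add _ _ h3
    · exact absurd h3 hD0
  have h1 := key (fun e => if e = 1 then 1 else 0)
  have h2 : X 0 * (ME β (eE l 0)).det = 0 := by
    rw [← hD, ← h1, Finset.mul_sum]
    refine Finset.sum_congr rfl fun q _ => ?_
    rw [← hX01]
    rcases zc ((q.1 : ℕ) : ZMod 2) with h4 | h4
    · rw [h4]
      simp
    · rw [h4]
      rw [show (1 : ZMod 2) + 1 = 0 from by decide]
      simp
  rcases mul_eq_zero.1 h2 with h3 | h3
  · exact hX0 h3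
  · exact hD0 h3

end E

end Pool.Agent.Helper38.SnevK
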