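import Mathlib

set_option autoImplicit false
set_option linter.unusedSectionVars false

namespace Pool.Agent.Helper38.SnevG

open Finset Equiv

/-- transversal -/
def HasTr {G : Type*} [Add G] (A B : Finset G) : Prop :=
  ∃ f : G → G, Set.BijOn f (A : Set G) (B : Set G) ∧
    Set.InjOn (fun a => a + f a) (A : Set G)

/-- both sets are cosets of one subgroup of even order -/
def Bad {G : Type*} [AddGroup G] (A B : Finset G) : Prop :=
  ∃ H : AddSubgroup G, Even (Nat.card H) ∧ ∃ a b : G,
    (∀ x : G, x ∈ A ↔ x - a ∈ H) ∧ (∀ x : G, x ∈ B ↔ x - b ∈ H)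

section Gen

variable {G : Type*} [AddCommGroup G] [DecidableEq G]

theorem hasTr_of_perm {ι : Type*} [Fintype ι] (A B : Finset G)
    (hc : A.card = B.card) (E : ι ≃ A) (E' : ι ≃ B)
    (h : ∀ i j, i ≠ j → (E i).1 + (E' i).1 ≠ (E j).1 + (E' j).1) : HasTr A B := by
  classical
  refine ⟨fun g => if h : g ∈ A then (E' (E.symm ⟨g, h⟩)).1 else 0, ?_, ?_⟩
  · have hmaps : Set.MapsTo (fun g => if h : g ∈ A then (E' (E.symm ⟨g, h⟩)).1
        else (0 : G)) (A : Set G) (B : Set G) := by
      intro g hg
      have hg' : g ∈ A := hg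
      simp only [hg', dif_pos]
      exact (E' (E.symm ⟨g, hg'⟩)).2
    have hinj : Set.InjOn (fun g => if h : g ∈ A then (E' (E.symm ⟨g, h⟩)).1
        else (0 : G)) (A : Set G) := by
      intro g hg g' hg' he
      have hgA : g ∈ A := hg
      have hgA' : g' ∈ A := hg'
      simp only [hgA, hgA', dif_pos] at he
      have h1 := E.symm.injective (E'.injective (Subtype.ext he))
      simpa using h1
    refine ⟨hmaps, hinj, ?_⟩
    exact Finset.surjOn_of_injOn_of_card_le _ hmaps hinj hc.symm.le
  · intro g hg g' hg' he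
    have hgA : g ∈ A := hg
    have hgA' : g' ∈ A := hg'
    simp only [hgA, hgA', dif_pos] at he
    by_contra hne
    have hne' : E.symm ⟨g, hgA⟩ ≠ E.symm ⟨g', hgA'⟩ := by
      intro hcon
      apply hne
      have := E.symm.injective hcon
      simpa using this
    apply h _ _ hne'
    rw [Equiv.apply_symm_apply, Equiv.apply_symm_apply]
    exact he

theorem HasTr.symm {A B : Finset G} (h : HasTr A B) : HasTr B A := by
  classical
  obtain ⟨f, hf, hs⟩ := h
  by_cases hA : A.Nonempty
  · have hA' : Nonempty G := ⟨hA.choose⟩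
    refine ⟨Function.invFunOn f (A : Set G), ?_, ?_⟩
    · exact hf.invOn_invFunOn.symm.bijOn (hf.surjOn.mapsTo_invFunOn) hf.mapsTo
    · intro b hb b' hb' he
      obtain ⟨a, ha, rfl⟩ := hf.surjOn hb
      obtain ⟨a', ha', rfl⟩ := hf.surjOn hb'
      have e1 : Function.invFunOn f (A : Set G) (f a) = a := hf.invOn_invFunOn.1 ha
      have e2 : Function.invFunOn f (A : Set G) (f a') = a' := hf.invOn_invFunOn.1 ha'
      simp only [e1, e2] at he
      have : a = a' := by
        apply hs ha ha'
        simp only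
        rw [add_comm, he, add_comm]
      rw [this]
  · rw [Finset.not_nonempty_iff_eq_empty] at hA
    subst hA
    have hB : B = ∅ := by
      have := hf.image_eq
      simpa using this.symm
    subst hB
    exact ⟨id, by simp, by simp⟩

theorem hasTr_translate {A B : Finset G} (u v : G)
    (h : HasTr (A.image fun g => g + u) (B.image fun g => g + v)) : HasTr A B := by
  obtain ⟨f, hf, hs⟩ := h
  refine ⟨fun a => f (a + u) - v, ⟨?_, ?_, ?_⟩, ?_⟩
  · intro a ha
    have h1 := hf.mapsTo (show a + u ∈ ((A.image fun g => g + u : Finset G) : Set G) by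
      rw [coe_image]; exact ⟨a, ha, rfl⟩)
    rw [coe_image] at h1
    obtain ⟨b, hb, hbe⟩ := h1
    simp only at hbe
    simp only
    rw [← hbe, add_sub_cancel_right]
    exact hb
  · intro a ha a' ha' he
    simp only [sub_left_inj] at he
    have h1 := hf.injOn (show a + u ∈ ((A.image fun g => g + u : Finset G) : Set G) by
      rw [coe_image]; exact ⟨a, ha, rfl⟩) (show a' + u ∈ ((A.image fun g => g + u : Finset G) : Set G) by
      rw [coe_image]; exact ⟨a', ha', rfl⟩) he
    exact add_right_cancel h1
  · intro b hb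
    obtain ⟨c, hc, hce⟩ := hf.surjOn (show b + v ∈ ((B.image fun g => g + v : Finset G) : Set G) by
      rw [coe_image]; exact ⟨b, hb, rfl⟩)
    rw [coe_image] at hc
    obtain ⟨a, ha, rfl⟩ := hc
    refine ⟨a, ha, ?_⟩
    simp only at hce ⊢
    rw [hce, add_sub_cancel_right]
  · intro a ha a' ha' he
    simp only at he
    have h1 := hs (show a + u ∈ ((A.image fun g => g + u : Finset G) : Set G) by
      rw [coe_image]; exact ⟨a, ha, rfl⟩) (show a' + u ∈ ((A.image fun g => g + u : Finset G) : Set G) by
      rw [coe_image]; exact ⟨a', ha', rfl⟩) (by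
        simp only
        have e1 : a + u + f (a + u) = (a + (f (a + u) - v)) + (u + v) := by abel
        have e2 : a' + u + f (a' + u) = (a' + (f (a' + u) - v)) + (u + v) := by abel
        rw [e1, e2, he])
    exact add_right_cancel h1

theorem hasTr_empty : HasTr (∅ : Finset G) ∅ := ⟨id, by simp, by simp⟩

end Gen

section Sets

variable {H : Type*} [AddCommGroup H] [DecidableEq H]

theorem z2 (a : ZMod 2) : a + a = 0 := by revert a; decide

theorem z2c (a : ZMod 2) : a = 0 ∨ a = 1 := by revert a; decide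

/-- a class of a set -/
def cl (A : Finset (ZMod 2 × H)) (e : ZMod 2) : Finset (ZMod 2 × H) := A.filter fun g => g.1 = e

theorem enum {ι : Type*} [Fintype ι] (A : Finset (ZMod 2 × H)) (ε : ι → ZMod 2)
    (h : ∀ e, (univ.filter fun i => ε i = e).card = (cl A e).card) :
    ∃ E : ι ≃ A, ∀ i, (E i).1.1 = ε i := by
  classical
  have h' : ∀ e, Nonempty ({i // ε i = e} ≃ {b : A // b.1.1 = e}) := by
    intro e
    apply Fintype.card_eq.1
    rw [Fintype.card_subtype, h e, Fintype.card_subtype]
    symm
    apply Finset.card_bij (fun (b : A) _ => b.1)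
    · intro b hb
      simp only [mem_filter, mem_univ, true_and] at hb
      simp only [cl, mem_filter]
      exact ⟨b.2, hb⟩
    · intro b _ b' _ hbb
      exact Subtype.ext hbb
    · intro g hg
      simp only [cl, mem_filter] at hg
      exact ⟨⟨g, hg.1⟩, by simpa using hg.2, rfl⟩
  let E := Equiv.ofFiberEquiv (f := ε) (g := fun b : A => b.1.1) (fun e => (h' e).some)
  exact ⟨E, fun i => Equiv.ofFiberEquiv_map (f := ε) (g := fun b : A => b.1.1) _ i⟩

theorem cl_card_add (A : Finset (ZMod 2 × H)) : (cl A 0).card + (cl A 1).card = A.card := by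
  have hz : ∀ a : ZMod 2, a ≠ 0 ↔ a = 1 := by decide
  unfold cl
  rw [← Finset.card_filter_add_card_filter_not (s := A) (fun g => g.1 = 0)]
  congr 2
  ext g
  simp only [mem_filter]
  rw [← hz]

/-- swap the two classes -/
def sw (A : Finset (ZMod 2 × H)) : Finset (ZMod 2 × H) := A.image fun g => g + (1, 0)

theorem card_cl_sw (A : Finset (ZMod 2 × H)) (e : ZMod 2) :
    (cl (sw A) e).card = (cl A (e + 1)).card := by
  symm
  apply Finset.card_bij (fun g _ => g + (1, 0))
  · intro g hg
    simp only [cl, sw, mem_filter, mem_image] at hg ⊢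
    refine ⟨⟨g, hg.1, rfl⟩, ?_⟩
    rw [Prod.fst_add, hg.2, add_assoc, z2, add_zero]
  · intro g _ g' _ h
    exact add_right_cancel h
  · intro g hg
    simp only [cl, sw, mem_filter, mem_image] at hg ⊢
    obtain ⟨⟨g', hg', rfl⟩, h2⟩ := hg
    refine ⟨g', ⟨hg', ?_⟩, rfl⟩
    rw [← h2, Prod.fst_add, add_assoc, z2, add_zero]

theorem hasTr_sw_left {A B : Finset (ZMod 2 × H)} (h : HasTr (sw A) B) : HasTr A B := by
  apply hasTr_translate (1, 0) 0
  simpa [sw] using h

theorem hasTr_sw_right {A B : Finset (ZMod 2 × H)} (h : HasTr A (sw B)) : HasTr A B := by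
  apply hasTr_translate 0 (1, 0)
  simpa [sw] using h

theorem card_sw (A : Finset (ZMod 2 × H)) : (sw A).card = A.card := by
  unfold sw
  apply Finset.card_image_of_injective
  intro g g' h
  exact add_right_cancel h

theorem mem_sw (A : Finset (ZMod 2 × H)) (g : ZMod 2 × H) (h : g ∈ A) : g + (1, 0) ∈ sw A :=
  mem_image_of_mem _ h

end Sets

section Transport

variable {G G' : Type*} [AddCommGroup G] [AddCommGroup G'] [DecidableEq G] [DecidableEq G']

theorem HasTr.transport (e : G ≃+ G') {A B : Finset G}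
    (h : HasTr (A.image e) (B.image e)) : HasTr A B := by
  obtain ⟨f, hf, hs⟩ := h
  have memA : ∀ g, g ∈ A → e g ∈ ((A.image e : Finset G') : Set G') := by
    intro g hg
    rw [coe_image]
    exact ⟨g, hg, rfl⟩
  refine ⟨fun g => e.symm (f (e g)), ⟨?_, ?_, ?_⟩, ?_⟩
  · intro g hg
    have h1 := hf.mapsTo (memA g hg)
    rw [coe_image] at h1
    obtain ⟨b, hb, hbe⟩ := h1
    simp only
    rw [← hbe, AddEquiv.symm_apply_apply]
    exact hb
  · intro g hg g' hg' he
    exact e.injective (hf.injOn (memA g hg) (memA g' hg') (e.symm.injective he))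
  · intro b hb
    obtain ⟨c, hc, hce⟩ := hf.surjOn (show e b ∈ ((B.image e : Finset G') : Set G') by
      rw [coe_image]; exact ⟨b, hb, rfl⟩)
    rw [coe_image] at hc
    obtain ⟨a, ha, rfl⟩ := hc
    refine ⟨a, ha, ?_⟩
    simp only
    rw [hce, AddEquiv.symm_apply_apply]
  · intro g hg g' hg' he
    simp only at he
    have h1 := congrArg e he
    rw [map_add, map_add, AddEquiv.apply_symm_apply, AddEquiv.apply_symm_apply] at h1
    exact e.injective (hs (memA g hg) (memA g' hg') h1)

theorem Bad.transport (e : G ≃+ G') {A B : Finset G}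
    (h : Bad (A.image e) (B.image e)) : Bad A B := by
  obtain ⟨H, hH, a, b, ha, hb⟩ := h
  have hmem : ∀ (A : Finset G) g, e g ∈ A.image e ↔ g ∈ A := by
    intro A g
    rw [mem_image]
    constructor
    · rintro ⟨g', hg', he⟩
      rw [← e.injective he]
      exact hg'
    · intro hg
      exact ⟨g, hg, rfl⟩
  refine ⟨H.comap e.toAddMonoidHom, ?_, e.symm a, e.symm b, ?_, ?_⟩
  · have : Nat.card (H.comap e.toAddMonoidHom) = Nat.card H := by
      apply Nat.card_congr
      refine ⟨fun g => ⟨e g.1, g.2⟩, fun g => ⟨e.symm g.1, ?_⟩, ?_, ?_⟩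
      · change e (e.symm g.1) ∈ H
        rw [AddEquiv.apply_symm_apply]
        exact g.2
      · intro g
        apply Subtype.ext
        simp
      · intro g
        simp
    rw [this]
    exact hH
  · intro x
    rw [← hmem A x, ha, AddSubgroup.mem_comap]
    change _ ↔ e (x - e.symm a) ∈ H
    rw [map_sub, AddEquiv.apply_symm_apply]
  · intro x
    rw [← hmem B x, hb, AddSubgroup.mem_comap]
    change _ ↔ e (x - e.symm b) ∈ H
    rw [map_sub, AddEquiv.apply_symm_apply]

end Transport

end Pool.Agent.Helper38.SnevG
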