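import Mathlib

set_option autoImplicit false
set_option linter.unusedSectionVars false

namespace Pool.Agent.Helper38.SnevK

open Finset Equiv

section Char2

variable {F : Type*} [Field F] [CharP F 2]

theorem sign_cast {ι : Type*} [Fintype ι] [DecidableEq ι] (s : Perm ι) :
    ((Perm.sign s : ℤ) : F) = 1 := by
  rcases Int.units_eq_one_or (Perm.sign s) with h | h
  · rw [h]; simp
  · rw [h]
    simp only [Units.val_neg, Units.val_one, Int.cast_neg, Int.cast_one]
    exact CharTwo.neg_eq 1

variable {ι : Type*} [Fintype ι] [DecidableEq ι]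

theorem det_char2 (M : Matrix ι ι F) : M.det = ∑ s : Perm ι, ∏ i, M i (s i) := by
  rw [← Matrix.det_transpose, Matrix.det_apply']
  refine Finset.sum_congr rfl fun s _ => ?_
  rw [sign_cast, one_mul]
  rfl

theorem det_char2' (M : Matrix ι ι F) : M.det = ∑ s : Perm ι, ∏ i, M (s i) i := by
  rw [Matrix.det_apply']
  refine Finset.sum_congr rfl fun s _ => ?_
  rw [sign_cast, one_mul]

/-- The key expansion. -/
theorem keyK (ε I C : ι → ZMod 2) (P Q : ι → ZMod 2 → ι → F) :
    ∑ e : ι → ZMod 2,
      (Matrix.of fun w i => if ε i = e w then P w (e w) i else 0).det *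
      (Matrix.of fun w u => if I u = C w + e w then Q w (e w) u else 0).det =
    ∑ g : Perm ι, ∑ h : Perm ι, ∏ w, (if I (h w) = C w + ε (g w) then
      P w (ε (g w)) (g w) * Q w (ε (g w)) (h w) else 0) := by
  have h1 : ∀ e : ι → ZMod 2,
      (Matrix.of fun w i => if ε i = e w then P w (e w) i else 0).det *
      (Matrix.of fun w u => if I u = C w + e w then Q w (e w) u else 0).det =
      ∑ g : Perm ι, ∑ h : Perm ι, ∏ w, ((if ε (g w) = e w then P w (e w) (g w) else 0) *
        (if I (h w) = C w + e w then Q w (e w) (h w) else 0)) := by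
    intro e
    rw [det_char2, det_char2, Finset.sum_mul_sum]
    refine Finset.sum_congr rfl fun g _ => Finset.sum_congr rfl fun h _ => ?_
    rw [← Finset.prod_mul_distrib]
    rfl
  simp_rw [h1]
  rw [Finset.sum_comm]
  refine Finset.sum_congr rfl fun g _ => ?_
  rw [Finset.sum_comm]
  refine Finset.sum_congr rfl fun h _ => ?_
  rw [Finset.sum_eq_single (fun w => ε (g w))]
  · refine Finset.prod_congr rfl fun w _ => ?_
    simp
  · intro e _ hne
    have : ∃ w, e w ≠ ε (g w) := by
      by_contra hcon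
      push Not at hcon
      exact hne (funext hcon)
    obtain ⟨w, hw⟩ := this
    apply Finset.prod_eq_zero (mem_univ w)
    rw [if_neg (Ne.symm hw), zero_mul]
  · intro h
    exact absurd (mem_univ _) h

/-- No transversal. -/
def NoTr (ε I : ι → ZMod 2) (α β : ι → F) : Prop :=
  ∀ s : Perm ι, ∃ i j, i ≠ j ∧ ε i + I (s i) = ε j + I (s j) ∧ α i * β (s i) = α j * β (s j)

theorem keyZ (ε I C : ι → ZMod 2) (α β : ι → F) (f : ι → ℕ) (hno : NoTr ε I α β)
    (W : Perm ι → F) :
    ∑ g : Perm ι, ∑ h : Perm ι, W (h * g⁻¹) * ∏ w, (if I (h w) = C w + ε (g w) then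
      (α (g w) * β (h w)) ^ f w else 0) = 0 := by
  have h1 : ∀ g : Perm ι, ∑ h : Perm ι, W (h * g⁻¹) * ∏ w, (if I (h w) = C w + ε (g w) then
      (α (g w) * β (h w)) ^ f w else 0) =
      ∑ s : Perm ι, W s * ∏ w, (if I (s (g w)) = C w + ε (g w) then
      (α (g w) * β (s (g w))) ^ f w else 0) := by
    intro g
    rw [← Equiv.sum_comp (Equiv.mulRight g)]
    refine Finset.sum_congr rfl fun s _ => ?_
    simp only [Equiv.coe_mulRight, mul_inv_cancel_right]
    rfl
  simp_rw [h1]
  rw [Finset.sum_comm]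
  apply Finset.sum_eq_zero
  intro s _
  rw [← Finset.mul_sum]
  have h2 : ∑ g : Perm ι, ∏ w, (if I (s (g w)) = C w + ε (g w) then
      (α (g w) * β (s (g w))) ^ f w else 0) =
      (Matrix.of fun w i => if I (s i) = C w + ε i then (α i * β (s i)) ^ f w else 0 :
        Matrix ι ι F).det := by
    rw [det_char2]
    rfl
  rw [h2]
  obtain ⟨i, j, hij, h3, h4⟩ := hno s
  have h5 : (Matrix.of fun w i => if I (s i) = C w + ε i then (α i * β (s i)) ^ f w else 0 :
        Matrix ι ι F).det = 0 := by
    apply Matrix.det_zero_of_column_eq hij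
    intro w
    simp only [Matrix.of_apply]
    have h6 : (I (s i) = C w + ε i) ↔ (I (s j) = C w + ε j) := by
      have key : ∀ a b c d x : ZMod 2, a + b = c + d → ((b = x + a) ↔ (d = x + c)) := by decide
      exact key _ _ _ _ _ h3
    by_cases h7 : I (s i) = C w + ε i
    · rw [if_pos h7, if_pos (h6.1 h7), h4]
    · rw [if_neg h7, if_neg (fun h => h7 (h6.2 h))]
  rw [h5, mul_zero]

/-- First form: weights depending on the classes only. -/
theorem formA (ε I C : ι → ZMod 2) (α β : ι → F) (f : ι → ℕ) (s : ZMod 2 → ZMod 2 → ℕ)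
    (hno : NoTr ε I α β) :
    ∑ e : ι → ZMod 2,
      (Matrix.of fun w i => if ε i = e w then α i ^ (f w + s (e w) (C w + e w)) else 0).det *
      (Matrix.of fun w u => if I u = C w + e w then β u ^ f w else 0).det = 0 := by
  have h1 := keyK ε I C (fun w e i => α i ^ (f w + s e (C w + e))) (fun w _ u => β u ^ f w)
  rw [h1]
  have h2 := keyZ ε I C α β f hno (fun t => ∏ i, α i ^ s (ε i) (I (t i)))
  refine Eq.trans ?_ h2
  refine Finset.sum_congr rfl fun g _ => Finset.sum_congr rfl fun h _ => ?_
  have h3 : ∏ i, α i ^ s (ε i) (I ((h * g⁻¹) i)) = ∏ w, α (g w) ^ s (ε (g w)) (I (h w)) := by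
    rw [← Equiv.prod_comp g]
    refine Finset.prod_congr rfl fun w _ => ?_
    simp
  rw [h3, ← Finset.prod_mul_distrib]
  refine Finset.prod_congr rfl fun w _ => ?_
  by_cases h4 : I (h w) = C w + ε (g w)
  · rw [if_pos h4, if_pos h4, ← h4, mul_pow, pow_add]
    ring
  · rw [if_neg h4, if_neg h4, mul_zero]

/-- Second form: with one special cell. -/
theorem formB (ε I C : ι → ZMod 2) (α β : ι → F) (f : ι → ℕ) (s : ZMod 2 → ZMod 2 → ℕ)
    (κ : ZMod 2 → F) (c : ℕ) (x : ι → F) (hno : NoTr ε I α β) :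
    ∑ q : ι, ∑ e : ι → ZMod 2,
      (Matrix.of fun w i => if ε i = e w then
        α i ^ (f w + s (e w) (C w + e w) + if w = q then c else 0) else 0).det *
      (Matrix.of fun w u => if I u = C w + e w then
        (if w = q then κ (e w) * x u * β u ^ f w else β u ^ f w) else 0).det = 0 := by
  have h2 := keyZ ε I C α β f hno (fun t => (∏ i, α i ^ s (ε i) (I (t i))) *
    ∑ r, κ (ε r) * α r ^ c * x (t r))
  have h1 : ∀ q : ι, ∑ e : ι → ZMod 2,
      (Matrix.of fun w i => if ε i = e w then
        α i ^ (f w + s (e w) (C w + e w) + if w = q then c else 0) else 0).det *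
      (Matrix.of fun w u => if I u = C w + e w then
        (if w = q then κ (e w) * x u * β u ^ f w else β u ^ f w) else 0).det =
      ∑ g : Perm ι, ∑ h : Perm ι, (∏ i, α i ^ s (ε i) (I ((h * g⁻¹) i))) *
        (κ (ε (g q)) * α (g q) ^ c * x (h q)) * ∏ w, (if I (h w) = C w + ε (g w) then
        (α (g w) * β (h w)) ^ f w else 0) := by
    intro q
    have h3 := keyK ε I C (fun w e i => α i ^ (f w + s e (C w + e) + if w = q then c else 0))
      (fun w e u => if w = q then κ e * x u * β u ^ f w else β u ^ f w)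
    rw [h3]
    refine Finset.sum_congr rfl fun g _ => Finset.sum_congr rfl fun h _ => ?_
    have h4 : ∏ i, α i ^ s (ε i) (I ((h * g⁻¹) i)) = ∏ w, α (g w) ^ s (ε (g w)) (I (h w)) := by
      rw [← Equiv.prod_comp g]
      refine Finset.prod_congr rfl fun w _ => ?_
      simp
    have h5 : κ (ε (g q)) * α (g q) ^ c * x (h q) =
        ∏ w, (if w = q then κ (ε (g w)) * α (g w) ^ c * x (h w) else 1) := by
      rw [Finset.prod_ite_eq' univ q, if_pos (mem_univ q)]
    rw [h4, h5, ← Finset.prod_mul_distrib, ← Finset.prod_mul_distrib]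
    refine Finset.prod_congr rfl fun w _ => ?_
    by_cases h6 : I (h w) = C w + ε (g w)
    · rw [if_pos h6, if_pos h6, ← h6]
      by_cases h7 : w = q
      · rw [if_pos h7, if_pos h7, if_pos h7, mul_pow, pow_add, pow_add]
        ring
      · rw [if_neg h7, if_neg h7, if_neg h7, mul_pow, pow_add, pow_add, pow_zero]
        ring
    · rw [if_neg h6, if_neg h6, mul_zero]
  rw [Finset.sum_congr rfl fun q _ => h1 q, Finset.sum_comm]
  refine Eq.trans ?_ h2
  refine Finset.sum_congr rfl fun g _ => ?_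
  rw [Finset.sum_comm]
  refine Finset.sum_congr rfl fun h _ => ?_
  rw [← Finset.sum_mul, ← Finset.mul_sum]
  congr 2
  rw [← Equiv.sum_comp g (fun r => κ (ε r) * α r ^ c * x ((h * g⁻¹) r))]
  refine Finset.sum_congr rfl fun q _ => ?_
  simp

end Char2

end Pool.Agent.Helper38.SnevK
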