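import Pool.Agent.Helper38.SnevK

set_option autoImplicit false
set_option linter.unusedSectionVars false

namespace Pool.Agent.Helper38.SnevK

open Finset Equiv

section NV

variable {F : Type*} [Field F] {ι : Type*} [Fintype ι] [DecidableEq ι]
variable {Q : Type*} [DecidableEq Q]

/-- Power rows are linearly independent. -/
theorem indep (ε e : ι → Q) (α : ι → F) (η : ι → ℕ) (x : Q) (sh : ℕ)
    (hα0 : ∀ i, ε i = x → α i ≠ 0) (hinj : ∀ i j, ε i = x → ε j = x → α i = α j → i = j)
    (hη : ∀ w w', e w = x → e w' = x → η w = η w' → w = w')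
    (h1 : ∀ w, e w = x → sh ≤ η w)
    (h2 : ∀ w, e w = x → η w < sh + (univ.filter fun i => ε i = x).card)
    (v : ι → F) (hv : ∀ i, ε i = x → ∑ w ∈ univ.filter (fun w => e w = x), v w * α i ^ η w = 0) :
    ∀ w, e w = x → v w = 0 := by
  classical
  intro w0 hw0
  set P : Polynomial F := ∑ w ∈ univ.filter (fun w => e w = x),
    Polynomial.C (v w) * Polynomial.X ^ (η w - sh) with hP
  have hP0 : P = 0 := by
    apply Polynomial.eq_zero_of_degree_lt_of_eval_finset_eq_zero
      ((univ.filter fun i => ε i = x).image α)
    · rw [Finset.card_image_of_injOn]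
      · refine lt_of_le_of_lt (Polynomial.degree_sum_le _ _) ?_
        rw [Finset.sup_lt_iff (WithBot.bot_lt_coe _)]
        intro w hw
        simp only [mem_filter, mem_univ, true_and] at hw
        refine lt_of_le_of_lt (Polynomial.degree_C_mul_X_pow_le _ _) ?_
        have h3 := h1 w hw
        have h4 := h2 w hw
        rw [Nat.cast_lt]
        omega
      · intro i hi j hj hij
        simp only [coe_filter, mem_univ, true_and, Set.mem_ofPred_eq] at hi hj
        exact hinj i j hi hj hij
    · intro y hy
      obtain ⟨i, hi, rfl⟩ := mem_image.1 hy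
      simp only [mem_filter, mem_univ, true_and] at hi
      have h3 := hv i hi
      have h4 : α i ^ sh * P.eval (α i) = 0 := by
        rw [← h3, hP, Polynomial.eval_finsetSum, Finset.mul_sum]
        refine Finset.sum_congr rfl fun w hw => ?_
        simp only [mem_filter, mem_univ, true_and] at hw
        simp only [Polynomial.eval_mul, Polynomial.eval_C, Polynomial.eval_pow, Polynomial.eval_X]
        have h5 := h1 w hw
        have h6 : η w = sh + (η w - sh) := by omega
        conv_rhs => rw [h6, pow_add]
        ring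
      rcases mul_eq_zero.1 h4 with h5 | h5
      · exact absurd h5 (pow_ne_zero _ (hα0 i hi))
      · exact h5
  have h4 : P.coeff (η w0 - sh) = v w0 := by
    rw [hP, Polynomial.finsetSum_coeff, Finset.sum_eq_single w0]
    · simp
    · intro w hw hne
      simp only [mem_filter, mem_univ, true_and] at hw
      rw [Polynomial.coeff_C_mul_X_pow, if_neg]
      intro h
      apply hne
      apply hη w w0 hw hw0
      have h5 := h1 w hw
      have h6 := h1 w0 hw0
      omega
    · intro h
      simp only [mem_filter, mem_univ, true_and] at h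
      exact absurd hw0 h
  rw [hP0, Polynomial.coeff_zero] at h4
  exact h4.symm

/-- Nonvanishing, general. -/
theorem nvG (I v : ι → Q) (R : ι → ι → F)
    (h : ∀ c : ι → F, (∀ u, ∑ w ∈ univ.filter (fun w => v w = I u), c w * R w u = 0) →
      ∀ w, c w = 0) :
    (Matrix.of fun w u => if I u = v w then R w u else 0 : Matrix ι ι F).det ≠ 0 := by
  intro hdet
  obtain ⟨c, hc0, hc⟩ := Matrix.exists_vecMul_eq_zero_iff.2 hdet
  apply hc0
  funext w
  apply h c
  intro u
  have h1 := congrFun hc u
  rw [Matrix.vecMul, Pi.zero_apply] at h1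
  rw [← h1, dotProduct, Finset.sum_filter]
  refine Finset.sum_congr rfl fun w _ => ?_
  rw [Matrix.of_apply]
  by_cases h2 : v w = I u
  · rw [if_pos h2, if_pos h2.symm]
  · rw [if_neg h2, if_neg (Ne.symm h2), mul_zero]

/-- Nonvanishing for power rows. -/
theorem nv (ε e : ι → Q) (α : ι → F) (η : ι → ℕ) (sh : Q → ℕ)
    (hα0 : ∀ i, α i ≠ 0) (hinj : ∀ i j, ε i = ε j → α i = α j → i = j)
    (hη : ∀ w w', e w = e w' → η w = η w' → w = w')
    (h1 : ∀ w, sh (e w) ≤ η w)
    (h2 : ∀ w, η w < sh (e w) + (univ.filter fun i => ε i = e w).card) :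
    (Matrix.of fun w i => if ε i = e w then α i ^ η w else 0 : Matrix ι ι F).det ≠ 0 := by
  apply nvG ε e (fun w i => α i ^ η w)
  intro c hc w
  apply indep ε e α η (e w) (sh (e w)) (fun i _ => hα0 i)
    (fun i j hi hj => hinj i j (hi.trans hj.symm)) (fun w1 w2 hw1 hw2 => hη w1 w2 (hw1.trans hw2.symm))
    _ _ c _ w rfl
  · intro w' hw'
    rw [← hw']
    exact h1 w'
  · intro w' hw'
    rw [← hw']
    exact h2 w'
  · intro i hi
    have := hc i
    rw [hi] at this
    exact this

/-- Equal power rows. -/
theorem eq_of_det_ne {I v : ι → Q} {R : ι → ι → F}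
    (h : (Matrix.of fun w u => if I u = v w then R w u else 0 : Matrix ι ι F).det ≠ 0)
    {w w' : ι} (h1 : v w = v w') (h2 : ∀ u, R w u = R w' u) : w = w' := by
  by_contra hne
  apply h
  apply Matrix.det_zero_of_row_eq hne
  funext u
  simp only [Matrix.of_apply, h1, h2]

theorem exists_perm {I v : ι → Q} {R : ι → ι → F}
    (h : (Matrix.of fun w u => if I u = v w then R w u else 0 : Matrix ι ι F).det ≠ 0) :
    ∃ s : Perm ι, ∀ w, I (s w) = v w ∧ R w (s w) ≠ 0 := by
  by_contra hcon
  push Not at hcon
  apply h
  rw [← Matrix.det_transpose, Matrix.det_apply']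
  apply Finset.sum_eq_zero
  intro s _
  obtain ⟨w, hw⟩ := hcon s
  rw [Finset.prod_eq_zero (mem_univ w), mul_zero]
  rw [Matrix.transpose_apply, Matrix.of_apply]
  by_cases h1 : I (s w) = v w
  · rw [if_pos h1, hw h1]
  · rw [if_neg h1]

theorem card_of_perm {I v : ι → Q} {s : Perm ι} (h : ∀ w, I (s w) = v w) (x : Q) :
    (univ.filter fun w => v w = x).card = (univ.filter fun u => I u = x).card := by
  apply Finset.card_bij (fun w _ => s w)
  · intro w hw
    simp only [mem_filter, mem_univ, true_and] at hw ⊢
    rw [h, hw]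
  · intro w _ w' _ h
    exact s.injective h
  · intro u hu
    simp only [mem_filter, mem_univ, true_and] at hu
    refine ⟨s.symm u, ?_, by simp⟩
    simp only [mem_filter, mem_univ, true_and]
    rw [← h, Equiv.apply_symm_apply, hu]

/-- A set of positions with distinct levels in a range of the right size fills the range. -/
theorem fill {v : ι → Q} {f : ι → ℕ} {x : Q} {n : ℕ}
    (hc : (univ.filter fun w => v w = x).card = n)
    (hinj : ∀ w w', v w = x → v w' = x → f w = f w' → w = w')
    (hlt : ∀ w, v w = x → f w < n) (y : ℕ) (hy : y < n) : ∃ w, v w = x ∧ f w = y := by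
  have h1 := Finset.surj_on_of_inj_on_of_card_le (s := univ.filter fun w => v w = x)
    (t := Finset.range n) (fun w _ => f w) (by
      intro w hw
      simp only [mem_filter, mem_univ, true_and] at hw
      exact Finset.mem_range.2 (hlt w hw)) (by
      intro w w' hw hw' he
      simp only [mem_filter, mem_univ, true_and] at hw hw'
      exact hinj w w' hw hw' he) (by rw [hc, Finset.card_range]) y (Finset.mem_range.2 hy)
  obtain ⟨w, hw, he⟩ := h1
  simp only [mem_filter, mem_univ, true_and] at hw
  exact ⟨w, hw, he.symm⟩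

end NV

end Pool.Agent.Helper38.SnevK
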