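import Pool.Agent.Helper38.SnevU

set_option autoImplicit false
set_option linter.unusedSectionVars false

namespace Pool.Agent.Helper38.SnevK

open Finset Equiv

section X

theorem lemX {F : Type*} [Field F] {ι : Type*} [DecidableEq ι] (k : ℕ) (U : Finset ι) (β : ι → F)
    (hU : U.card = k + 1) (h0 : ∀ u ∈ U, β u ≠ 0)
    (hinj : ∀ u ∈ U, ∀ u' ∈ U, β u = β u' → u = u') (u1 u2 : ι) (h1 : u1 ∈ U) (h2 : u2 ∈ U)
    (hne : β u1 ^ (k + 1) ≠ β u2 ^ (k + 1)) :
    ∃ (x : ι → F) (g : ℕ → F),
      (∀ u ∈ U, x u * β u ^ (k + 1) = ∑ y ∈ Icc 1 k, g y * β u ^ y) ∧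
      ∀ (c0 : F) (c : ℕ → F), (∀ u ∈ U, c0 * x u + ∑ y ∈ Icc 1 k, c y * β u ^ y = 0) →
        c0 = 0 ∧ ∀ y ∈ Icc 1 k, c y = 0 := by
  classical
  have hu12 : u1 ≠ u2 := by
    rintro rfl
    exact hne rfl
  set V : Finset ι := (U.erase u1).erase u2 with hV
  have hVc : V.card = k - 1 := by
    rw [hV, Finset.card_erase_of_mem (mem_erase.2 ⟨hu12.symm, h2⟩), Finset.card_erase_of_mem h1, hU]
    rfl
  have hk : 1 ≤ k := by
    have : 1 < U.card := Finset.one_lt_card.2 ⟨u1, h1, u2, h2, hu12⟩
    omega
  set G0 : Polynomial F := ∏ u ∈ V, (Polynomial.X - Polynomial.C (β u)) with hG0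
  set G : Polynomial F := Polynomial.X * G0 with hG
  have hG0m : G0.Monic := Polynomial.monic_prod_X_sub_C _ _
  have hG0d : G0.natDegree = k - 1 := by
    rw [hG0, Polynomial.natDegree_finsetProd_X_sub_C_eq_card, hVc]
  have hGm : G.Monic := Polynomial.monic_X.mul hG0m
  have hGd : G.natDegree = k := by
    rw [hG, Polynomial.natDegree_X_mul hG0m.ne_zero, hG0d]
    omega
  have hGc : G.coeff 0 = 0 := by
    rw [hG, Polynomial.coeff_X_mul_zero]
  have hGe : ∀ T : F, G.eval T = ∑ y ∈ Icc 1 k, G.coeff y * T ^ y := by
    intro T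
    rw [Polynomial.eval_eq_sum_range, hGd, Finset.sum_range_succ', hGc, zero_mul, add_zero]
    rw [Finset.range_eq_Ico, Finset.sum_Ico_add' (fun y => G.coeff y * T ^ y) 0 k 1]
    refine Finset.sum_congr ?_ fun _ _ => rfl
    ext y
    simp only [mem_Ico, mem_Icc]
    omega
  have hGz : ∀ u ∈ U, u ≠ u1 → u ≠ u2 → G.eval (β u) = 0 := by
    intro u hu hu1 hu2
    rw [hG, Polynomial.eval_mul, hG0, Polynomial.eval_prod]
    rw [Finset.prod_eq_zero (mem_erase.2 ⟨hu2, mem_erase.2 ⟨hu1, hu⟩⟩), mul_zero]
    simp
  refine ⟨fun u => G.eval (β u) / β u ^ (k + 1), fun y => G.coeff y, ?_, ?_⟩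
  · intro u hu
    rw [div_mul_cancel₀ _ (pow_ne_zero _ (h0 u hu)), hGe]
  · intro c0 c hc
    set H : Polynomial F := ∑ y ∈ Icc 1 k, Polynomial.C (c y) * Polynomial.X ^ y with hH
    have hHe : ∀ T : F, H.eval T = ∑ y ∈ Icc 1 k, c y * T ^ y := by
      intro T
      rw [hH, Polynomial.eval_finsetSum]
      refine Finset.sum_congr rfl fun y _ => ?_
      simp
    have hHd : H.degree < (k + 1 : ℕ) := by
      refine lt_of_le_of_lt (Polynomial.degree_sum_le _ _) ?_
      rw [Finset.sup_lt_iff (WithBot.bot_lt_coe _)]
      intro y hy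
      refine lt_of_le_of_lt (Polynomial.degree_C_mul_X_pow_le _ _) ?_
      rw [mem_Icc] at hy
      rw [Nat.cast_lt]
      omega
    have hGdd : G.degree < (k + 1 : ℕ) := by
      rw [Polynomial.degree_eq_natDegree hGm.ne_zero, hGd, Nat.cast_lt]
      omega
    have hP : ∀ i j : ι, i ∈ U → j ∈ U → i ≠ j → (∀ u ∈ U, u ≠ i → u ≠ j → G.eval (β u) = 0) →
        Polynomial.C (β i ^ (k + 1)) * H + Polynomial.C c0 * G = 0 := by
      intro i j hi hj hij hz
      apply Polynomial.eq_zero_of_degree_lt_of_eval_finset_eq_zero
        (insert 0 ((U.erase j).image β))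
      · rw [Finset.card_insert_of_notMem, Finset.card_image_of_injOn,
          Finset.card_erase_of_mem hj, hU]
        · refine lt_of_le_of_lt (Polynomial.degree_add_le _ _) ?_
          rw [max_lt_iff]
          constructor
          · rw [← Polynomial.smul_eq_C_mul]
            exact lt_of_le_of_lt (Polynomial.degree_smul_le _ _) (by simpa using hHd)
          · rw [← Polynomial.smul_eq_C_mul]
            exact lt_of_le_of_lt (Polynomial.degree_smul_le _ _) (by simpa using hGdd)
        · intro u hu u' hu' he
          rw [mem_coe, mem_erase] at hu hu'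
          exact hinj u hu.2 u' hu'.2 he
        · intro hcon
          obtain ⟨u, hu, he⟩ := mem_image.1 hcon
          exact h0 u (mem_erase.1 hu).2 he
      · intro T hT
        rw [Polynomial.eval_add, Polynomial.eval_mul, Polynomial.eval_mul, Polynomial.eval_C,
          Polynomial.eval_C]
        rcases mem_insert.1 hT with rfl | hT'
        · have e1 : H.eval 0 = 0 := by
            rw [hHe]
            apply Finset.sum_eq_zero
            intro y hy
            rw [mem_Icc] at hy
            rw [zero_pow (by omega), mul_zero]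
          have e2 : G.eval 0 = 0 := by
            rw [hG, Polynomial.eval_mul, Polynomial.eval_X, zero_mul]
          rw [e1, e2, mul_zero, mul_zero, add_zero]
        · obtain ⟨u, hu, rfl⟩ := mem_image.1 hT'
          rw [mem_erase] at hu
          have e1 := hc u hu.2
          rw [← hHe] at e1
          simp only at e1
          by_cases hui : u = i
          · subst hui
            have e3 : β u ^ (k + 1) ≠ 0 := pow_ne_zero _ (h0 u hu.2)
            have e4 : β u ^ (k + 1) * H.eval (β u) + c0 * G.eval (β u) =
                β u ^ (k + 1) * (c0 * (G.eval (β u) / β u ^ (k + 1)) + H.eval (β u)) := by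
              field_simp
              ring
            rw [e4, e1, mul_zero]
          · have e2 := hz u hu.2 hui hu.1
            rw [e2, zero_div, mul_zero, zero_add] at e1
            rw [e1, e2, mul_zero, mul_zero, add_zero]
    have hP1 := hP u1 u2 h1 h2 hu12 hGz
    have hP2 := hP u2 u1 h2 h1 hu12.symm (fun u hu a b => hGz u hu b a)
    have hH0 : H = 0 := by
      have h3 : Polynomial.C (β u1 ^ (k + 1) - β u2 ^ (k + 1)) * H = 0 := by
        rw [Polynomial.C_sub, sub_mul]
        linear_combination hP1 - hP2
      rcases mul_eq_zero.1 h3 with h4 | h4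
      · rw [Polynomial.C_eq_zero, sub_eq_zero] at h4
        exact absurd h4 hne
      · exact h4
    have hc0 : c0 = 0 := by
      rw [hH0, mul_zero, zero_add] at hP1
      rcases mul_eq_zero.1 hP1 with h4 | h4
      · rwa [Polynomial.C_eq_zero] at h4
      · exact absurd h4 hGm.ne_zero
    refine ⟨hc0, ?_⟩
    intro y hy
    have h5 : H.coeff y = c y := by
      rw [hH, Polynomial.finsetSum_coeff, Finset.sum_eq_single y]
      · simp
      · intro y' _ hne'
        rw [Polynomial.coeff_C_mul_X_pow, if_neg (Ne.symm hne')]
      · intro h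
        exact absurd hy h
    rw [hH0, Polynomial.coeff_zero] at h5
    exact h5.symm

end X

section O

variable {k : ℕ}

/-- levels -/
def fO (k : ℕ) : Fin (k + 2) ⊕ Fin k → ℕ := Sum.elim (fun y => y) (fun y => y + 1)

/-- sum classes -/
def CO (k : ℕ) : Fin (k + 2) ⊕ Fin k → ZMod 2 := Sum.elim (fun _ => 0) (fun _ => 1)

/-- row classes -/
def eO (k : ℕ) (w : Fin (k + 2) ⊕ Fin k) : ZMod 2 := 1 + (fO k w : ZMod 2)

/-- column classes -/
def IO (k : ℕ) (w : Fin (k + 2) ⊕ Fin k) : ZMod 2 := CO k w + eO k w

theorem fO_CO (w w' : Fin (k + 2) ⊕ Fin k) (h : fO k w = fO k w') (h' : CO k w = CO k w') :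
    w = w' := by
  rcases w with y | y <;> rcases w' with y' | y'
  · rw [Fin.ext h]
  · exact absurd h' (by simp [CO])
  · exact absurd h' (by simp [CO])
  · have : (y : ℕ) + 1 = y' + 1 := h
    rw [Fin.ext (Nat.succ_injective this)]

theorem fO_le (w : Fin (k + 2) ⊕ Fin k) : fO k w ≤ k + 1 := by
  rcases w with y | y
  · have := y.2
    change (y : ℕ) ≤ _
    omega
  · have := y.2
    change (y : ℕ) + 1 ≤ _
    omega

/-- exponents -/
def hO (k : ℕ) (q w : Fin (k + 2) ⊕ Fin k) : ℕ :=
  fO k w + (if CO k w = 0 then 0 else 1) + if w = q then 1 else 0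

/-- first position -/
def q0 (k : ℕ) : Fin (k + 2) ⊕ Fin k := Sum.inl 0

theorem hO_q0 : hO k (q0 k) (q0 k) = 1 := by
  unfold hO
  rw [if_pos rfl]
  simp [q0, fO, CO]

theorem hO_inl (q : Fin (k + 2) ⊕ Fin k) (y : Fin (k + 2)) (h : Sum.inl y ≠ q) :
    hO k q (Sum.inl y) = y := by
  unfold hO
  rw [if_neg h]
  simp [fO, CO]

theorem hO_inr (q : Fin (k + 2) ⊕ Fin k) (y : Fin k) (h : Sum.inr y ≠ q) :
    hO k q (Sum.inr y) = y + 2 := by
  unfold hO
  rw [if_neg h]
  simp [fO, CO]

theorem inr_ne_q0 (y : Fin k) : (Sum.inr y : Fin (k + 2) ⊕ Fin k) ≠ q0 k := by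
  simp [q0]

theorem inl_ne_q0 (y : Fin (k + 2)) (hy : (y : ℕ) ≠ 0) :
    (Sum.inl y : Fin (k + 2) ⊕ Fin k) ≠ q0 k := by
  intro h
  have h2 : y = 0 := Sum.inl.inj h
  apply hy
  rw [h2]
  rfl

theorem eO_inl (y : Fin (k + 2)) : eO k (Sum.inl y) = 1 + ((y : ℕ) : ZMod 2) := rfl

theorem eO_inr (y : Fin k) : eO k (Sum.inr y) = ((y : ℕ) : ZMod 2) := by
  unfold eO fO
  simp only [Sum.elim_inr]
  push_cast
  rw [add_comm, add_assoc, show (1 : ZMod 2) + 1 = 0 from by decide, add_zero]

theorem hO_range (w : Fin (k + 2) ⊕ Fin k) : 1 ≤ hO k (q0 k) w ∧ hO k (q0 k) w < k + 2 := by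
  rcases w with y | y
  · by_cases hy : (y : ℕ) = 0
    · have : (Sum.inl y : Fin (k + 2) ⊕ Fin k) = q0 k := by
        unfold q0
        congr 1
        exact Fin.ext hy
      rw [this, hO_q0]
      omega
    · rw [hO_inl _ _ (inl_ne_q0 y hy)]
      have := y.2
      omega
  · rw [hO_inr _ _ (inr_ne_q0 y)]
    have := y.2
    omega

theorem hO_inj (w w' : Fin (k + 2) ⊕ Fin k) (h : eO k w = eO k w')
    (h' : hO k (q0 k) w = hO k (q0 k) w') : w = w' := by
  have key : ∀ (y : Fin (k + 2)) (y' : Fin k), eO k (Sum.inl y) = eO k (Sum.inr y') →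
      hO k (q0 k) (Sum.inl y) = hO k (q0 k) (Sum.inr y') → False := by
    intro y y' h1 h2
    rw [hO_inr _ _ (inr_ne_q0 y')] at h2
    by_cases hy : (y : ℕ) = 0
    · have : (Sum.inl y : Fin (k + 2) ⊕ Fin k) = q0 k := by
        unfold q0
        congr 1
        exact Fin.ext hy
      rw [this, hO_q0] at h2
      omega
    · rw [hO_inl _ _ (inl_ne_q0 y hy)] at h2
      rw [eO_inl, eO_inr, h2] at h1
      push_cast at h1
      revert h1
      generalize ((y' : ℕ) : ZMod 2) = a
      revert a
      decide
  rcases w with y | y <;> rcases w' with y' | y'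
  · by_cases hy : (y : ℕ) = 0 <;> by_cases hy' : (y' : ℕ) = 0
    · congr 1
      apply Fin.ext
      omega
    · exfalso
      have h1 : (Sum.inl y : Fin (k + 2) ⊕ Fin k) = q0 k := by
        unfold q0
        congr 1
        exact Fin.ext hy
      rw [h1, hO_q0, hO_inl _ _ (inl_ne_q0 y' hy')] at h'
      rw [eO_inl, eO_inl, hy, ← h'] at h
      revert h
      decide
    · exfalso
      have h1 : (Sum.inl y' : Fin (k + 2) ⊕ Fin k) = q0 k := by
        unfold q0
        congr 1
        exact Fin.ext hy'
      rw [h1, hO_q0, hO_inl _ _ (inl_ne_q0 y hy)] at h'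
      rw [eO_inl, eO_inl, hy', h'] at h
      revert h
      decide
    · rw [hO_inl _ _ (inl_ne_q0 y hy), hO_inl _ _ (inl_ne_q0 y' hy')] at h'
      rw [Fin.ext h']
  · exact (key y y' h h').elim
  · exact (key y' y h.symm h'.symm).elim
  · rw [hO_inr _ _ (inr_ne_q0 y), hO_inr _ _ (inr_ne_q0 y')] at h'
    congr 1
    apply Fin.ext
    omega

theorem IO_inl (y : Fin (k + 2)) : IO k (Sum.inl y) = 1 + ((y : ℕ) : ZMod 2) := by
  unfold IO CO
  rw [eO_inl]
  simp

theorem IO_inr (y : Fin k) : IO k (Sum.inr y) = ((y + 1 : ℕ) : ZMod 2) := by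
  unfold IO CO
  rw [eO_inr]
  push_cast
  simp only [Sum.elim_inr]
  ring

theorem fO_inj (w w' : Fin (k + 2) ⊕ Fin k) (h : IO k w = IO k w') (h' : fO k w = fO k w') :
    w = w' := by
  apply fO_CO w w' h'
  unfold IO eO at h
  rw [h'] at h
  exact add_right_cancel h

theorem fO_I0 (w : Fin (k + 2) ⊕ Fin k) (h : IO k w = 0) : 1 ≤ fO k w := by
  rcases w with y | y
  · rw [IO_inl] at h
    change 1 ≤ (y : ℕ)
    by_contra hcon
    have : (y : ℕ) = 0 := by omega
    rw [this] at h
    exact absurd h (by decide)
  · change 1 ≤ (y : ℕ) + 1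
    omega

theorem fO_I1 (hk : Even k) (w : Fin (k + 2) ⊕ Fin k) (h : IO k w = 1) : fO k w < k + 1 := by
  rcases w with y | y
  · rw [IO_inl] at h
    change (y : ℕ) < k + 1
    have h1 := y.2
    by_contra hcon
    have : (y : ℕ) = k + 1 := by omega
    rw [this] at h
    obtain ⟨j, hj⟩ := hk
    rw [hj] at h
    push_cast at h
    rw [zaa, zero_add] at h
    exact absurd h (by decide)
  · change (y : ℕ) + 1 < k + 1
    have h1 := y.2
    omega

theorem two_counts (g : Fin (k + 2) ⊕ Fin k → ZMod 2)
    (h : ∀ x, (univ.filter fun w => g w = x).card ≤ k + 1) (x : ZMod 2) :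
    (univ.filter fun w => g w = x).card = k + 1 := by
  have h2 : (univ.filter fun w => g w = 0).card +
      (univ.filter fun w => g w = 1).card = (k + 2) + k := by
    have h3 := Finset.card_filter_add_card_filter_not (s := (univ : Finset (Fin (k + 2) ⊕ Fin k)))
      (fun w => g w = 0)
    have h4 : (univ.filter fun w => ¬ g w = 0) = univ.filter fun w => g w = 1 := by
      ext w
      simp only [mem_filter, mem_univ, true_and]
      exact zne _
    rw [h4, Finset.card_univ, Fintype.card_sum, Fintype.card_fin, Fintype.card_fin] at h3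
    exact h3
  have h0 := h 0
  have h1 := h 1
  rcases zc x with rfl | rfl <;> omega

theorem card_eO (x : ZMod 2) : (univ.filter fun w => eO k w = x).card = k + 1 := by
  apply two_counts
  intro x
  have : k + 1 = (Ico 1 (k + 2)).card := by
    rw [Nat.card_Ico]
    omega
  rw [this]
  apply Finset.card_le_card_of_injOn (hO k (q0 k))
  · intro w _
    rw [mem_coe, mem_Ico]
    exact hO_range w
  · intro w hw w' hw' he
    simp only [coe_filter, mem_univ, true_and, Set.mem_ofPred_eq] at hw hw'
    exact hO_inj w w' (hw.trans hw'.symm) he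

theorem card_IO (hk : Even k) (x : ZMod 2) : (univ.filter fun w => IO k w = x).card = k + 1 := by
  apply two_counts
  intro x
  rcases zc x with rfl | rfl
  · have : k + 1 = (Ico 1 (k + 2)).card := by
      rw [Nat.card_Ico]
      omega
    rw [this]
    apply Finset.card_le_card_of_injOn (fO k)
    · intro w hw
      simp only [coe_filter, mem_univ, true_and, Set.mem_ofPred_eq] at hw
      rw [mem_coe, mem_Ico]
      have h1 := fO_I0 w hw
      have h2 := fO_le w
      omega
    · intro w hw w' hw' he
      simp only [coe_filter, mem_univ, true_and, Set.mem_ofPred_eq] at hw hw'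
      exact fO_inj w w' (hw.trans hw'.symm) he
  · rw [← Finset.card_range (k + 1)]
    apply Finset.card_le_card_of_injOn (fO k)
    · intro w hw
      simp only [coe_filter, mem_univ, true_and, Set.mem_ofPred_eq] at hw
      rw [mem_coe, mem_range]
      exact fO_I1 hk w hw
    · intro w hw w' hw' he
      simp only [coe_filter, mem_univ, true_and, Set.mem_ofPred_eq] at hw hw'
      exact fO_inj w w' (hw.trans hw'.symm) he

variable {F : Type*} [Field F]

/-- second matrix -/
def NO (k : ℕ) (κ : ZMod 2 → F) (x β : Fin (k + 2) ⊕ Fin k → F)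
    (e : Fin (k + 2) ⊕ Fin k → ZMod 2) (q w u : Fin (k + 2) ⊕ Fin k) : F :=
  if w = q then κ (e w) * x u * β u ^ fO k w else β u ^ fO k w

/-- Uniqueness. -/
theorem uniqO (hk : Even k) (α β x : Fin (k + 2) ⊕ Fin k → F)
    (e : Fin (k + 2) ⊕ Fin k → ZMod 2) (q : Fin (k + 2) ⊕ Fin k)
    (hx : ∀ u, IO k u = 0 → x u = 0) (g : ℕ → F)
    (hg : ∀ u, IO k u = 1 → x u * β u ^ (k + 1) = ∑ y ∈ Icc 1 k, g y * β u ^ y)
    (hA : (Matrix.of fun w i => if eO k i = e w then α i ^ hO k q w else 0 :
        Matrix (Fin (k + 2) ⊕ Fin k) (Fin (k + 2) ⊕ Fin k) F).det ≠ 0)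
    (hB : (Matrix.of fun w u => if IO k u = CO k w + e w then
      NO k (fun e => if e = 1 then 1 else 0) x β e q w u else 0 :
        Matrix (Fin (k + 2) ⊕ Fin k) (Fin (k + 2) ⊕ Fin k) F).det ≠ 0) :
    q = q0 k ∧ e = eO k := by
  obtain ⟨s, hs⟩ := exists_perm hB
  have hsq := hs q
  unfold NO at hsq
  rw [if_pos rfl] at hsq
  have hxs : x (s q) ≠ 0 := by
    intro h
    apply hsq.2
    rw [h, mul_zero, zero_mul]
  have heq : e q = 1 := by
    by_contra h
    apply hsq.2
    simp only [if_neg h, zero_mul]
  have hIq : IO k (s q) = 1 := by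
    rw [← zne]
    intro h
    exact hxs (hx _ h)
  have hCq : CO k q = 0 := by
    have h1 := hsq.1
    rw [hIq, heq] at h1
    revert h1
    generalize CO k q = a
    revert a
    decide
  have hvq : CO k q + e q = 1 := by rw [hCq, heq, zero_add]
  -- row equalities
  have rowA : ∀ w w', e w = e w' → hO k q w = hO k q w' → w = w' := by
    intro w w' h1 h2
    exact eq_of_det_ne hA h1 (fun u => by rw [h2])
  have rowB : ∀ w w', w ≠ q → w' ≠ q → CO k w + e w = CO k w' + e w' → fO k w = fO k w' →
      w = w' := by
    intro w w' n1 n2 h1 h2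
    refine eq_of_det_ne hB h1 (fun u => ?_)
    unfold NO
    rw [if_neg n1, if_neg n2, h2]
  have hqinl : ∃ y : Fin (k + 2), q = Sum.inl y := by
    rcases q with y | y
    · exact ⟨y, rfl⟩
    · exact absurd hCq (by simp [CO])
  obtain ⟨y, hy⟩ := hqinl
  have pig : ∀ a b : ZMod 2, a ≠ b → a = b + 1 := by decide
  by_cases hy0 : (y : ℕ) = 0
  · have hq0 : q = q0 k := by
      rw [hy]
      unfold q0
      congr 1
      exact Fin.ext hy0
    refine ⟨hq0, ?_⟩
    rw [hq0] at heq rowA rowB
    have hmain : ∀ n (hn : n < k + 2), e (Sum.inl ⟨n, hn⟩) = 1 + (n : ZMod 2) := by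
      intro n
      induction n with
      | zero =>
        intro hn
        have h1 : e (Sum.inl ⟨0, hn⟩) = 1 := heq
        rw [h1]
        simp
      | succ n ih =>
        intro hn
        rcases Nat.eq_zero_or_pos n with hn0 | hn0
        · subst hn0
          have h1 : e (Sum.inl ⟨1, hn⟩) ≠ e (q0 k) := by
            intro hcon
            have h2 := rowA _ _ hcon (by
              rw [hO_q0, hO_inl _ _ (inl_ne_q0 _ (by simp))])
            exact inl_ne_q0 _ (by simp) h2
          have h3 := pig _ _ h1
          rw [heq] at h3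
          change e (Sum.inl ⟨1, hn⟩) = _
          rw [h3]
          simp
        · -- n = m + 1
          obtain ⟨m, rfl⟩ : ∃ m, n = m + 1 := ⟨n - 1, by omega⟩
          have hm : m < k := by omega
          have i1 := ih (by omega)
          have h1 : e (Sum.inl ⟨m + 1, by omega⟩) = e (Sum.inr ⟨m, hm⟩) := by
            by_contra hcon
            have h2 := rowB (Sum.inl ⟨m + 1, by omega⟩) (Sum.inr ⟨m, hm⟩)
              (inl_ne_q0 _ (by simp)) (inr_ne_q0 _) (by
                have h3 := pig _ _ hcon
                change 0 + e (Sum.inl ⟨m + 1, by omega⟩) = 1 + e (Sum.inr ⟨m, hm⟩)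
                rw [h3]
                ring) rfl
            exact absurd h2 (by simp)
          have h4 : e (Sum.inl ⟨m + 1 + 1, hn⟩) ≠ e (Sum.inr ⟨m, hm⟩) := by
            intro hcon
            have h5 := rowA _ _ hcon (by
              rw [hO_inl _ _ (inl_ne_q0 _ (by simp)), hO_inr _ _ (inr_ne_q0 _)])
            exact absurd h5 (by simp)
          have h6 := pig _ _ h4
          rw [h6, ← h1, i1]
          push_cast
          ring
    funext w
    rcases w with n | n
    · exact hmain n n.2
    · have hn := n.2
      have h1 : e (Sum.inl ⟨n + 1, by omega⟩) = e (Sum.inr n) := by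
        by_contra hcon
        have h2 := rowB (Sum.inl ⟨n + 1, by omega⟩) (Sum.inr n)
          (inl_ne_q0 _ (by simp)) (inr_ne_q0 _) (by
            have h3 := pig _ _ hcon
            change 0 + e (Sum.inl ⟨n + 1, by omega⟩) = 1 + e (Sum.inr n)
            rw [h3]
            ring) rfl
        exact absurd h2 (by simp)
      rw [← h1, hmain]
      rfl
  · exfalso
    by_cases hyk : (y : ℕ) = k + 1
    · -- q = inl (k + 1)
      apply hB
      have hqf : fO k q = k + 1 := by rw [hy]; exact hyk
      have hfne : ∀ w, w ≠ q → fO k w < k + 1 := by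
        intro w hw
        have h1 := fO_le w
        by_contra hcon
        have h2 : fO k w = k + 1 := by omega
        apply hw
        rcases w with n | n
        · rw [hy]
          congr 1
          apply Fin.ext
          have h3 : (n : ℕ) = k + 1 := h2
          omega
        · have h3 : (n : ℕ) + 1 = k + 1 := h2
          have := n.2
          omega
      have hc0 := card_of_perm (fun w => (hs w).1) (0 : ZMod 2)
      rw [card_IO hk] at hc0
      have nq : ∀ w, CO k w + e w = 0 → w ≠ q := by
        intro w hw h
        rw [h, hvq] at hw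
        exact absurd hw (by decide)
      have hf := fill hc0 (f := fO k) (by
        intro w w' hw hw' he
        exact rowB w w' (nq w hw) (nq w' hw') (hw.trans hw'.symm) he) (by
        intro w hw
        exact hfne w (nq w hw))
      -- level sets of class 1
      have himg : (univ.filter fun w => w ≠ q ∧ CO k w + e w = 1).image (fO k) = Icc 1 k := by
        ext n
        rw [mem_image, mem_Icc]
        constructor
        · rintro ⟨w, hw, rfl⟩
          simp only [mem_filter, mem_univ, true_and] at hw
          have h1 := hfne w hw.1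
          refine ⟨?_, by omega⟩
          by_contra hcon
          have h2 : fO k w = 0 := by omega
          obtain ⟨w', hw', hfw'⟩ := hf 0 (by omega)
          have h3 : w = w' := by
            rcases w with n | n
            · rcases w' with n' | n'
              · congr 1
                exact Fin.ext (h2.trans hfw'.symm)
              · have h4 : (n' : ℕ) + 1 = 0 := hfw'
                omega
            · have h4 : (n : ℕ) + 1 = 0 := h2
              omega
          rw [h3, hw'] at hw
          exact absurd hw.2 (by decide)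
        · rintro ⟨hn1, hnk⟩
          obtain ⟨w, hw, hfw⟩ := hf n (by omega)
          -- partner
          have hpart : ∃ w', fO k w' = n ∧ w' ≠ w := by
            rcases w with m | m
            · refine ⟨Sum.inr ⟨n - 1, by omega⟩, ?_, by simp⟩
              change n - 1 + 1 = n
              omega
            · exact ⟨Sum.inl ⟨n, by omega⟩, rfl, by simp⟩
          obtain ⟨w', hfw', hne⟩ := hpart
          refine ⟨w', ?_, hfw'⟩
          simp only [mem_filter, mem_univ, true_and]
          constructor
          · intro h
            rw [h, hqf] at hfw'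
            omega
          · rw [← zne]
            intro h
            apply hne
            exact rowB w' w (nq w' h) (nq w hw) (h.trans hw.symm) (hfw'.trans hfw.symm)
      have hinj1 : Set.InjOn (fO k)
          ((univ.filter fun w => w ≠ q ∧ CO k w + e w = 1 : Finset _) : Set _) := by
        intro w hw w' hw' he
        simp only [coe_filter, mem_univ, true_and, Set.mem_ofPred_eq] at hw hw'
        exact rowB w w' hw.1 hw'.1 (hw.2.trans hw'.2.symm) he
      apply Matrix.exists_vecMul_eq_zero_iff.1
      refine ⟨fun w => if w = q then -1 else if CO k w + e w = 1 then g (fO k w) else 0, ?_, ?_⟩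
      · intro h
        have h1 := congrFun h q
        simp at h1
      · funext u
        rw [Matrix.vecMul, dotProduct, Pi.zero_apply]
        simp only [Matrix.of_apply]
        rw [← Finset.add_sum_erase univ _ (mem_univ q)]
        rw [if_pos rfl, hvq]
        rcases zc (IO k u) with hu | hu
        · rw [hu, if_neg (by decide), mul_zero, zero_add]
          apply Finset.sum_eq_zero
          intro w hw
          rw [mem_erase] at hw
          rw [if_neg hw.1]
          by_cases h1 : CO k w + e w = 1
          · rw [if_pos h1, if_neg (by rw [h1]; decide), mul_zero]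
          · rw [if_neg h1, zero_mul]
        · rw [hu, if_pos rfl]
          have h1 : NO k (fun e => if e = 1 then 1 else 0) x β e q q u =
              x u * β u ^ (k + 1) := by
            unfold NO
            rw [if_pos rfl, heq, hqf]
            simp only [if_true, one_mul]
          rw [h1, hg u hu, ← himg, Finset.sum_image hinj1]
          rw [Finset.sum_filter, neg_mul, one_mul, neg_add_eq_zero]
          rw [← Finset.add_sum_erase univ _ (mem_univ q)]
          rw [if_neg (by simp), zero_add]
          refine Finset.sum_congr rfl fun w hw => ?_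
          rw [mem_erase] at hw
          rw [if_neg hw.1]
          by_cases h2 : CO k w + e w = 1
          · rw [if_pos ⟨hw.1, h2⟩, if_pos h2, if_pos h2.symm]
            unfold NO
            rw [if_neg hw.1]
          · rw [if_neg (fun h => h2 h.2), if_neg h2, zero_mul]
    · -- middle
      have hyl := y.2
      have hm : (y : ℕ) - 1 < k := by omega
      have hlt : (y : ℕ) + 1 < k + 2 := by omega
      set w1 : Fin (k + 2) ⊕ Fin k := Sum.inr ⟨y - 1, hm⟩ with hw1
      set w2 : Fin (k + 2) ⊕ Fin k := Sum.inl ⟨y + 1, hlt⟩ with hw2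
      have n1 : w1 ≠ q := by rw [hw1, hy]; simp
      have n2 : w2 ≠ q := by
        rw [hw2, hy]
        intro h
        have := congrArg Fin.val (Sum.inl.inj h)
        simp at this
      have n3 : w1 ≠ w2 := by rw [hw1, hw2]; simp
      have a1 : hO k q w1 = y + 1 := by
        rw [hO_inr _ _ n1]
        simp only
        omega
      have a2 : hO k q w2 = y + 1 := by
        rw [hO_inl _ _ n2]
      have a3 : hO k q q = y + 1 := by
        unfold hO
        rw [if_pos hCq, if_pos rfl]
        rw [hy]
        rfl
      have b1 : e w1 ≠ e q := fun h => n1 (rowA _ _ h (a1.trans a3.symm))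
      have b2 : e w2 ≠ e q := fun h => n2 (rowA _ _ h (a2.trans a3.symm))
      have b3 : e w1 ≠ e w2 := fun h => n3 (rowA _ _ h (a1.trans a2.symm))
      revert b1 b2 b3
      generalize e w1 = z1
      generalize e w2 = z2
      generalize e q = z3
      revert z1 z2 z3
      decide

variable [CharP F 2]

theorem caseO (hk : Even k) (α β : Fin (k + 2) ⊕ Fin k → F)
    (hα0 : ∀ i, α i ≠ 0) (hβ0 : ∀ i, β i ≠ 0)
    (hα : ∀ i j, eO k i = eO k j → α i = α j → i = j)
    (hβ : ∀ i j, IO k i = IO k j → β i = β j → i = j)
    (hno : NoTr (eO k) (IO k) α β) (u1 u2 : Fin (k + 2) ⊕ Fin k) (hu1 : IO k u1 = 1)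
    (hu2 : IO k u2 = 1) : β u1 ^ (k + 1) = β u2 ^ (k + 1) := by
  by_contra hne
  obtain ⟨x', g, hg, hx'⟩ := lemX k (univ.filter fun w => IO k w = 1) β (card_IO hk 1)
    (fun u _ => hβ0 u) (by
      intro u hu u' hu' he
      simp only [mem_filter, mem_univ, true_and] at hu hu'
      exact hβ u u' (hu.trans hu'.symm) he) u1 u2 (by simpa using hu1) (by simpa using hu2) hne
  set x : Fin (k + 2) ⊕ Fin k → F := fun u => if IO k u = 1 then x' u else 0 with hx
  have h1 := formB (eO k) (IO k) (CO k) α β (fO k) (fun e v => if e = v then 0 else 1)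
    (fun e => if e = 1 then 1 else 0) 1 x hno
  have hs : ∀ (w : Fin (k + 2) ⊕ Fin k) (e : ZMod 2),
      (if e = CO k w + e then (0 : ℕ) else 1) = if CO k w = 0 then 0 else 1 := by
    intro w e
    have h2 : e = CO k w + e ↔ CO k w = 0 := by
      generalize CO k w = a
      revert a e
      decide
    by_cases h3 : CO k w = 0
    · rw [if_pos h3, if_pos (h2.2 h3)]
    · rw [if_neg h3, if_neg (fun h => h3 (h2.1 h))]
  simp only [hs] at h1
  rw [Finset.sum_eq_single (q0 k), Finset.sum_eq_single (eO k)] at h1
  · have hA := nv (eO k) (eO k) α (hO k (q0 k)) (fun _ => 1) hα0 hα hO_inj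
      (fun w => (hO_range w).1) (fun w => by
        rw [card_eO]
        have := (hO_range w).2
        omega)
    rcases mul_eq_zero.1 h1 with h2 | h2
    · exact hA h2
    · -- second determinant
      refine (nvG (IO k) (IO k) (NO k (fun e => if e = 1 then 1 else 0) x β (eO k) (q0 k)) ?_) h2
      intro c hc
      have hq1 : IO k (q0 k) = 1 := by
        unfold q0
        rw [IO_inl]
        simp
      have heq1 : eO k (q0 k) = 1 := by
        unfold q0
        rw [eO_inl]
        simp
      have c0 : ∀ w, IO k w = 0 → c w = 0 := by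
        apply indep (IO k) (IO k) β (fO k) 0 1 (fun i _ => hβ0 i)
          (fun i j hi hj => hβ i j (hi.trans hj.symm))
          (fun w w' hw hw' => fO_inj w w' (hw.trans hw'.symm)) (fun w hw => fO_I0 w hw)
          (fun w hw => by
            rw [card_IO hk]
            have := fO_le w
            omega)
        intro i hi
        have h3 := hc i
        rw [hi] at h3
        rw [← h3]
        refine Finset.sum_congr rfl fun w hw => ?_
        simp only [mem_filter, mem_univ, true_and] at hw
        unfold NO
        rw [if_neg]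
        intro h
        rw [h, hq1] at hw
        exact absurd hw (by decide)
      -- class 1
      have himg : (univ.filter fun w => w ≠ q0 k ∧ IO k w = 1).image (fO k) = Icc 1 k := by
        apply Finset.eq_of_subset_of_card_le
        · intro n hn
          obtain ⟨w, hw, rfl⟩ := mem_image.1 hn
          simp only [mem_filter, mem_univ, true_and] at hw
          have h3 := fO_I1 hk w hw.2
          rw [mem_Icc]
          refine ⟨?_, by omega⟩
          by_contra hcon
          apply hw.1
          rcases w with m | m
          · unfold q0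
            congr 1
            apply Fin.ext
            have h4 : ¬ (1 ≤ (m : ℕ)) := hcon
            simp only [Fin.val_zero]
            omega
          · exfalso
            apply hcon
            change 1 ≤ (m : ℕ) + 1
            omega
        · rw [Finset.card_image_of_injOn, Nat.card_Icc]
          · have h3 : (univ.filter fun w => w ≠ q0 k ∧ IO k w = 1) =
                (univ.filter fun w => IO k w = 1).erase (q0 k) := by
              ext w
              simp only [mem_filter, mem_univ, true_and, mem_erase]
            rw [h3, Finset.card_erase_of_mem (by simpa using hq1), card_IO hk]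
          · intro w hw w' hw' he
            simp only [coe_filter, mem_univ, true_and, Set.mem_ofPred_eq] at hw hw'
            exact fO_inj w w' (hw.2.trans hw'.2.symm) he
      have hinj1 : Set.InjOn (fO k)
          ((univ.filter fun w => w ≠ q0 k ∧ IO k w = 1 : Finset _) : Set _) := by
        intro w hw w' hw' he
        simp only [coe_filter, mem_univ, true_and, Set.mem_ofPred_eq] at hw hw'
        exact fO_inj w w' (hw.2.trans hw'.2.symm) he
      -- coefficient function
      have hcoef : ∃ d : ℕ → F, ∀ w, w ≠ q0 k → IO k w = 1 → d (fO k w) = c w := by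
        classical
        refine ⟨fun n => if h : ∃ w, w ≠ q0 k ∧ IO k w = 1 ∧ fO k w = n then c h.choose else 0, ?_⟩
        intro w hw hw1
        have hex : ∃ w', w' ≠ q0 k ∧ IO k w' = 1 ∧ fO k w' = fO k w := ⟨w, hw, hw1, rfl⟩
        simp only
        rw [dif_pos hex]
        have h3 := hex.choose_spec
        rw [fO_inj _ _ (h3.2.1.trans hw1.symm) h3.2.2]
      obtain ⟨d, hd⟩ := hcoef
      have h5 := hx' (c (q0 k)) d (by
        intro u hu
        simp only [mem_filter, mem_univ, true_and] at hu
        have h3 := hc u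
        rw [hu, ← Finset.add_sum_erase _ _ (show q0 k ∈ univ.filter fun w => IO k w = 1 by
          simpa using hq1)] at h3
        rw [← h3, ← himg, Finset.sum_image hinj1]
        congr 1
        · unfold NO
          have h7 : fO k (q0 k) = 0 := rfl
          rw [if_pos rfl, heq1, hx, h7, pow_zero, mul_one]
          simp only [if_true, one_mul]
          rw [if_pos hu]
        · have h3 : (univ.filter fun w => w ≠ q0 k ∧ IO k w = 1) =
                (univ.filter fun w => IO k w = 1).erase (q0 k) := by
              ext w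
              simp only [mem_filter, mem_univ, true_and, mem_erase]
          rw [h3]
          refine Finset.sum_congr rfl fun w hw => ?_
          simp only [mem_filter, mem_univ, true_and, mem_erase] at hw
          rw [hd w hw.1 hw.2]
          unfold NO
          rw [if_neg hw.1])
      intro w
      rcases zc (IO k w) with hw | hw
      · exact c0 w hw
      · by_cases hwq : w = q0 k
        · rw [hwq]
          exact h5.1
        · rw [← hd w hwq hw]
          apply h5.2
          rw [← himg]
          apply mem_image_of_mem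
          simp only [mem_filter, mem_univ, true_and]
          exact ⟨hwq, hw⟩
  · intro e _ hne'
    by_contra hcon
    have h2 := mul_ne_zero_iff.1 hcon
    exact hne' (uniqO hk α β x e (q0 k) (fun u hu => by
      rw [hx]; simp only; rw [if_neg]; rw [hu]; decide) g (fun u hu => by
      rw [hx]; simp only; rw [if_pos hu]; exact hg u (by simpa using hu)) h2.1 h2.2).2
  · intro h
    exact absurd (mem_univ _) h
  · intro q _ hne'
    apply Finset.sum_eq_zero
    intro e _
    by_contra hcon
    have h2 := mul_ne_zero_iff.1 hcon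
    exact hne' (uniqO hk α β x e q (fun u hu => by
      rw [hx]; simp only; rw [if_neg]; rw [hu]; decide) g (fun u hu => by
      rw [hx]; simp only; rw [if_pos hu]; exact hg u (by simpa using hu)) h2.1 h2.2).1
  · intro h
    exact absurd (mem_univ _) h

end O

end Pool.Agent.Helper38.SnevK
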