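import Pool.Agent.Helper38.SnevG
import Pool.Agent.Helper38.SnevE
import Pool.Agent.Helper38.SnevO

set_option autoImplicit false
set_option linter.unusedSectionVars false

namespace Pool.Agent.Helper38.SnevG

open Finset Equiv Pool.Agent.Helper38.SnevK

section P

variable {F : Type*} [Field F] [CharP F 2]
variable {H : Type*} [AddCommGroup H] [DecidableEq H]

/-- injective homomorphism to the units -/
structure Emb (z : H → F) : Prop where
  add : ∀ a b, z (a + b) = z a * z b
  inj : Function.Injective z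
  ne : ∀ a, z a ≠ 0

theorem Emb.zero {z : H → F} (hz : Emb z) : z 0 = 1 := by
  have h := hz.add 0 0
  rw [add_zero] at h
  exact (mul_eq_left₀ (hz.ne 0)).1 h.symm

theorem Emb.nsmul {z : H → F} (hz : Emb z) (n : ℕ) (a : H) : z (n • a) = z a ^ n := by
  induction n with
  | zero => rw [zero_smul, pow_zero, hz.zero]
  | succ n ih => rw [succ_nsmul, hz.add, ih, pow_succ]

theorem Emb.two {z : H → F} (hz : Emb z) (a : H) (h : a + a = 0) : a = 0 := by
  apply hz.inj
  rw [hz.zero]
  have h1 : z a * z a = 1 := by rw [← hz.add, h, hz.zero]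
  have h2 : (z a + 1) * (z a + 1) = 0 := by
    have e1 : (z a + 1) * (z a + 1) = z a * z a + 1 + (z a + z a) := by ring
    rw [e1, h1, CharTwo.add_self_eq_zero, CharTwo.add_self_eq_zero, add_zero]
  have h3 : z a + 1 = 0 := by
    rcases mul_eq_zero.1 h2 with h3 | h3 <;> exact h3
  have h4 : (1 : F) + 1 = 0 := CharTwo.add_self_eq_zero 1
  exact add_right_cancel (h3.trans h4.symm)

theorem noTr_of {ι : Type*} [Fintype ι] [DecidableEq ι] {z : H → F} (hz : Emb z)
    (A B : Finset (ZMod 2 × H)) (hc : A.card = B.card) (ε I : ι → ZMod 2)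
    (E : ι ≃ A) (hE : ∀ i, (E i).1.1 = ε i) (E' : ι ≃ B) (hE' : ∀ i, (E' i).1.1 = I i)
    (hno : ¬ HasTr A B) : NoTr ε I (fun i => z (E i).1.2) (fun u => z (E' u).1.2) := by
  intro s
  by_contra hcon
  apply hno
  apply hasTr_of_perm A B hc E (s.trans E')
  intro i j hij he
  apply hcon
  refine ⟨i, j, hij, ?_, ?_⟩
  · rw [← hE, ← hE, ← hE', ← hE']
    exact congrArg Prod.fst he
  · rw [← hz.add, ← hz.add]
    exact congrArg z (congrArg Prod.snd he)

theorem inj_of {ι : Type*} {z : H → F} (hz : Emb z)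
    (A : Finset (ZMod 2 × H)) (ε : ι → ZMod 2)
    (E : ι ≃ A) (hE : ∀ i, (E i).1.1 = ε i) (i j : ι) (h : ε i = ε j)
    (h' : z (E i).1.2 = z (E j).1.2) : i = j := by
  apply E.injective
  apply Subtype.ext
  apply Prod.ext
  · rw [hE, hE, h]
  · exact hz.inj h'

theorem hasTrU {z : H → F} (hz : Emb z) (A B : Finset (ZMod 2 × H)) (hc : A.card = B.card)
    (b t r : ℕ) (hr : 0 < r) (hb : t + r ≤ b) (hA0 : (cl A 0).card = t + r)
    (hB0 : (cl B 0).card = b) (hB1 : (cl B 1).card = t) : HasTr A B := by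
  by_contra hno
  have hA1 : (cl A 1).card = b - r := by
    have h1 := cl_card_add A
    have h2 := cl_card_add B
    omega
  obtain ⟨E, hE⟩ := enum A (epU b t r) (by
    intro e
    have := card_epU (b := b) (t := t) hr hb
    rcases z2c e with rfl | rfl
    · rw [this.1, hA0]
    · rw [this.2, hA1])
  obtain ⟨E', hE'⟩ := enum B (IU b t) (by
    intro e
    rw [card_IU]
    rcases z2c e with rfl | rfl
    · rw [if_pos rfl, hB0]
    · rw [if_neg (by decide), hB1])
  exact caseU hr hb _ _ (fun i => hz.ne _) (fun i => hz.ne _)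
    (inj_of hz A _ E hE) (inj_of hz B _ E' hE') (noTr_of hz A B hc _ _ E hE E' hE' hno)

theorem hasTrU' {z : H → F} (hz : Emb z) (A B : Finset (ZMod 2 × H)) (hc : A.card = B.card)
    (h1 : (cl B 1).card < (cl A 0).card) (h2 : (cl B 1).card ≤ (cl A 1).card) :
    HasTr A B := by
  have h3 := cl_card_add A
  have h4 := cl_card_add B
  exact hasTrU hz A B hc (cl B 0).card (cl B 1).card ((cl A 0).card - (cl B 1).card) (by omega)
    (by omega) (by omega) rfl rfl

theorem hasTrU2 {z : H → F} (hz : Emb z) (A B : Finset (ZMod 2 × H)) (hc : A.card = B.card)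
    (h1 : (cl B 1).card ≤ (cl A 0).card) (h2 : (cl B 1).card ≤ (cl A 1).card)
    (h0 : ¬ ((cl B 1).card = (cl A 0).card ∧ (cl B 1).card = (cl A 1).card)) :
    HasTr A B := by
  have eA0 := card_cl_sw A 0
  have eA1 := card_cl_sw A 1
  have e2 : (1 : ZMod 2) + 1 = 0 := by decide
  rw [zero_add] at eA0
  rw [e2] at eA1
  rcases Nat.lt_or_ge (cl B 1).card (cl A 0).card with h3 | h3
  · exact hasTrU' hz A B hc h3 h2
  · apply hasTr_sw_left
    exact hasTrU' hz (sw A) B (by rw [card_sw, hc]) (by omega) (by omega)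

theorem hasTrU3 {z : H → F} (hz : Emb z) (A B : Finset (ZMod 2 × H)) (hc : A.card = B.card)
    (h1 : min (cl B 0).card (cl B 1).card ≤ min (cl A 0).card (cl A 1).card)
    (h0 : ¬ ((cl B 0).card = (cl A 0).card ∧ (cl B 1).card = (cl A 0).card ∧
      (cl A 0).card = (cl A 1).card)) :
    HasTr A B := by
  have eB0 := card_cl_sw B 0
  have eB1 := card_cl_sw B 1
  have e2 : (1 : ZMod 2) + 1 = 0 := by decide
  rw [zero_add] at eB0
  rw [e2] at eB1
  have h3 := cl_card_add A
  have h4 := cl_card_add B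
  rcases le_total (cl B 1).card (cl B 0).card with h | h
  · exact hasTrU2 hz A B hc (by omega) (by omega) (by omega)
  · apply hasTr_sw_right
    exact hasTrU2 hz A (sw B) (by rw [card_sw, hc]) (by omega) (by omega) (by omega)

theorem hasTrU4 {z : H → F} (hz : Emb z) (A B : Finset (ZMod 2 × H)) (hc : A.card = B.card)
    (h0 : ¬ ((cl B 0).card = (cl A 0).card ∧ (cl B 1).card = (cl A 0).card ∧
      (cl A 0).card = (cl A 1).card)) :
    HasTr A B := by
  rcases le_total (min (cl B 0).card (cl B 1).card) (min (cl A 0).card (cl A 1).card) with h | h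
  · exact hasTrU3 hz A B hc h h0
  · apply HasTr.symm
    exact hasTrU3 hz B A hc.symm h (by omega)

theorem hasTrE {z : H → F} (hz : Emb z) (A B : Finset (ZMod 2 × H)) (l : ℕ) (hl : Even l)
    (hA : ∀ e, (cl A e).card = l) (hB : ∀ e, (cl B e).card = l) : HasTr A B := by
  by_contra hno
  have hc : A.card = B.card := by
    rw [← cl_card_add A, ← cl_card_add B, hA, hA, hB, hB]
  rcases Nat.eq_zero_or_pos l with hl0 | hl0
  · have hA0 : A = ∅ := by
      rw [← Finset.card_eq_zero, ← cl_card_add A, hA, hA, hl0]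
    have hB0 : B = ∅ := by
      rw [← Finset.card_eq_zero, ← cl_card_add B, hB, hB, hl0]
    apply hno
    rw [hA0, hB0]
    exact hasTr_empty
  · obtain ⟨E, hE⟩ := enum A (fun i : Fin l × ZMod 2 => i.2) (by
      intro e
      rw [card_snd, hA])
    obtain ⟨E', hE'⟩ := enum B (fun i : Fin l × ZMod 2 => i.2) (by
      intro e
      rw [card_snd, hB])
    exact caseE hl (⟨0, hl0⟩, 1) rfl _ _ (fun i => hz.ne _) (fun i => hz.ne _)
      (inj_of hz A _ E hE) (inj_of hz B _ E' hE') (noTr_of hz A B hc _ _ E hE E' hE' hno)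

theorem oddB1 {z : H → F} (hz : Emb z) (A B : Finset (ZMod 2 × H)) (k : ℕ) (hk : Even k)
    (hA : ∀ e, (cl A e).card = k + 1) (hB : ∀ e, (cl B e).card = k + 1) (hno : ¬ HasTr A B)
    (x y : H) (hx : ((1 : ZMod 2), x) ∈ B) (hy : ((1 : ZMod 2), y) ∈ B) :
    (k + 1) • x = (k + 1) • y := by
  have hc : A.card = B.card := by
    rw [← cl_card_add A, ← cl_card_add B, hA, hA, hB, hB]
  obtain ⟨E, hE⟩ := enum A (eO k) (by
    intro e
    rw [card_eO, hA])
  obtain ⟨E', hE'⟩ := enum B (IO k) (by
    intro e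
    rw [card_IO hk, hB])
  have h1 := caseO hk _ _ (fun i => hz.ne _) (fun i => hz.ne _)
      (inj_of hz A _ E hE) (inj_of hz B _ E' hE') (noTr_of hz A B hc _ _ E hE E' hE' hno)
      (E'.symm ⟨_, hx⟩) (E'.symm ⟨_, hy⟩) (by rw [← hE']; simp) (by rw [← hE']; simp)
  rw [Equiv.apply_symm_apply, Equiv.apply_symm_apply] at h1
  apply hz.inj
  rw [hz.nsmul, hz.nsmul]
  exact h1

theorem oddB {z : H → F} (hz : Emb z) (A B : Finset (ZMod 2 × H)) (k : ℕ) (hk : Even k)
    (hA : ∀ e, (cl A e).card = k + 1) (hB : ∀ e, (cl B e).card = k + 1) (hno : ¬ HasTr A B)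
    (e : ZMod 2) (x y : H) (hx : (e, x) ∈ B) (hy : (e, y) ∈ B) :
    (k + 1) • x = (k + 1) • y := by
  rcases z2c e with rfl | rfl
  · apply oddB1 hz A (sw B) k hk hA (fun e => by rw [card_cl_sw, hB])
      (fun h => hno (hasTr_sw_right h))
    · have := mem_sw B _ hx
      simpa using this
    · have := mem_sw B _ hy
      simpa using this
  · exact oddB1 hz A B k hk hA hB hno x y hx hy

/-- kernel of multiplication by `k + 1` -/
def Kk (H : Type*) [AddCommGroup H] (k : ℕ) : AddSubgroup H where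
  carrier := {x | (k + 1) • x = 0}
  zero_mem' := smul_zero _
  add_mem' := by
    intro a b ha hb
    have ha' : (k + 1) • a = 0 := ha
    have hb' : (k + 1) • b = 0 := hb
    change (k + 1) • (a + b) = 0
    rw [smul_add, ha', hb', add_zero]
  neg_mem' := by
    intro a ha
    have ha' : (k + 1) • a = 0 := ha
    change (k + 1) • (-a) = 0
    rw [smul_neg, ha', neg_zero]

theorem mem_Kk (k : ℕ) (x : H) : x ∈ Kk H k ↔ (k + 1) • x = 0 := Iff.rfl

theorem sub_mem_iff' (K : AddSubgroup H) (x y : H) (hy : y ∈ K) : x - y ∈ K ↔ x ∈ K := by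
  constructor
  · intro h
    have := K.add_mem h hy
    simpa using this
  · intro h
    exact K.sub_mem h hy

theorem card_roots {z : H → F} (hz : Emb z) (k : ℕ) (S : Finset H)
    (hS : ∀ x ∈ S, (k + 1) • x = 0) : S.card ≤ k + 1 := by
  classical
  have h1 : S.image z ⊆ (Polynomial.nthRoots (k + 1) (1 : F)).toFinset := by
    intro y hy
    obtain ⟨x, hx, rfl⟩ := mem_image.1 hy
    rw [Multiset.mem_toFinset, Polynomial.mem_nthRoots (Nat.succ_pos k), ← hz.nsmul, hS x hx,
      hz.zero]
  calc S.card = (S.image z).card := (Finset.card_image_of_injective _ hz.inj).symm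
    _ ≤ (Polynomial.nthRoots (k + 1) (1 : F)).toFinset.card := Finset.card_le_card h1
    _ ≤ Multiset.card (Polynomial.nthRoots (k + 1) (1 : F)) := Multiset.toFinset_card_le _
    _ ≤ k + 1 := Polynomial.card_nthRoots _ _

/-- A class is a full coset. -/
theorem class_coset {z : H → F} (hz : Emb z) (A : Finset (ZMod 2 × H)) (k : ℕ) (e : ZMod 2)
    (hA : (cl A e).card = k + 1)
    (h : ∀ x y, (e, x) ∈ A → (e, y) ∈ A → (k + 1) • x = (k + 1) • y) :
    ∃ a, ∀ x, (e, x) ∈ A ↔ x - a ∈ Kk H k := by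
  have hne : (cl A e).Nonempty := by
    rw [← Finset.card_pos, hA]
    omega
  obtain ⟨g, hg⟩ := hne
  unfold cl at hg
  rw [mem_filter] at hg
  obtain ⟨e', a⟩ := g
  have he : e' = e := hg.2
  subst he
  refine ⟨a, ?_⟩
  intro x
  constructor
  · intro hx
    rw [mem_Kk, smul_sub, h x a hx hg.1, sub_self]
  · intro hx
    by_contra hcon
    have h1 : (insert (x - a) ((cl A e').image fun g => g.2 - a)).card ≤ k + 1 := by
      apply card_roots hz
      intro y hy
      rcases mem_insert.1 hy with rfl | hy'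
      · exact hx
      · obtain ⟨g, hg', rfl⟩ := mem_image.1 hy'
        unfold cl at hg'
        rw [mem_filter] at hg'
        obtain ⟨e2, b⟩ := g
        have he2 : e2 = e' := hg'.2
        subst he2
        simp only
        rw [smul_sub, h b a hg'.1 hg.1, sub_self]
    rw [Finset.card_insert_of_notMem, Finset.card_image_of_injOn, hA] at h1
    · omega
    · intro g hg1 g' hg1' heq
      unfold cl at hg1 hg1'
      simp only [coe_filter, Set.mem_ofPred_eq] at hg1 hg1'
      apply Prod.ext
      · rw [hg1.2, hg1'.2]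
      · exact sub_left_injective heq
    · intro hmem
      obtain ⟨g, hg', heq⟩ := mem_image.1 hmem
      unfold cl at hg'
      rw [mem_filter] at hg'
      apply hcon
      have h2 : g.2 = x := sub_left_injective heq
      have h3 : (e', x) = g := Prod.ext hg'.2.symm h2.symm
      rw [h3]
      exact hg'.1

/-- balanced odd case -/
theorem mainO {z : H → F} (hz : Emb z) (A B : Finset (ZMod 2 × H)) (k : ℕ) (hk : Even k)
    (hA : ∀ e, (cl A e).card = k + 1) (hB : ∀ e, (cl B e).card = k + 1) (hno : ¬ HasTr A B) :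
    Bad A B := by
  have hc : A.card = B.card := by
    rw [← cl_card_add A, ← cl_card_add B, hA, hA, hB, hB]
  have hB' : ∀ e, ∃ b, ∀ x, (e, x) ∈ B ↔ x - b ∈ Kk H k := fun e =>
    class_coset hz B k e (hB e) (oddB hz A B k hk hA hB hno e)
  have hA' : ∀ e, ∃ a, ∀ x, (e, x) ∈ A ↔ x - a ∈ Kk H k := fun e =>
    class_coset hz A k e (hA e) (oddB hz B A k hk hB hA (fun h => hno h.symm) e)
  choose a ha using hA'
  choose b hb using hB'
  -- construction
  have cons : ∀ d : ZMod 2, (a 0 + b d) - (a 1 + b (d + 1)) ∉ Kk H k → HasTr A B := by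
    intro d hd
    set f : ZMod 2 × H → ZMod 2 × H := fun g => (g.1 + d, g.2 + (b (g.1 + d) - a g.1)) with hf
    have hmaps : Set.MapsTo f (A : Set (ZMod 2 × H)) (B : Set (ZMod 2 × H)) := by
      rintro ⟨e, x⟩ hg
      rw [mem_coe, ha] at hg
      rw [mem_coe, hf]
      simp only
      rw [hb]
      have : x + (b (e + d) - a e) - b (e + d) = x - a e := by abel
      rw [this]
      exact hg
    have hinj : Set.InjOn f (A : Set (ZMod 2 × H)) := by
      rintro ⟨e, x⟩ hg ⟨e', x'⟩ hg' he
      rw [hf] at he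
      simp only [Prod.mk.injEq] at he
      have h1 : e = e' := add_right_cancel he.1
      subst h1
      rw [add_right_cancel he.2]
    refine ⟨f, ⟨hmaps, hinj, ?_⟩, ?_⟩
    · exact Finset.surjOn_of_injOn_of_card_le _ hmaps hinj hc.symm.le
    · have key : ∀ x x', ((0 : ZMod 2), x) ∈ A → ((1 : ZMod 2), x') ∈ A →
          x + (x + (b (0 + d) - a 0)) ≠ x' + (x' + (b (1 + d) - a 1)) := by
        intro x x' hx hx' he
        apply hd
        rw [ha] at hx hx'
        have e1 : (a 0 + b d) - (a 1 + b (d + 1)) =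
            ((x' - a 1) + (x' - a 1)) - ((x - a 0) + (x - a 0)) +
            ((x + (x + (b (0 + d) - a 0))) - (x' + (x' + (b (1 + d) - a 1)))) := by
          rw [zero_add, add_comm 1 d]
          abel
        rw [e1, he, sub_self, add_zero]
        exact AddSubgroup.sub_mem _ (AddSubgroup.add_mem _ hx' hx') (AddSubgroup.add_mem _ hx hx)
      rintro ⟨e, x⟩ hg ⟨e', x'⟩ hg' he
      rw [mem_coe] at hg hg'
      simp only [hf, Prod.mk_add_mk, Prod.mk.injEq] at he
      rcases z2c e with rfl | rfl <;> rcases z2c e' with rfl | rfl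
      · have h1 : (x - x') + (x - x') = 0 := by
          have := he.2
          have e2 : (x - x') + (x - x') = (x + (x + (b (0 + d) - a 0))) -
            (x' + (x' + (b (0 + d) - a 0))) := by abel
          rw [e2, this, sub_self]
        rw [sub_eq_zero.1 (hz.two _ h1)]
      · exact absurd he.2 (key x x' hg hg')
      · exact absurd he.2.symm (key x' x hg' hg)
      · have h1 : (x - x') + (x - x') = 0 := by
          have := he.2
          have e2 : (x - x') + (x - x') = (x + (x + (b (1 + d) - a 1))) -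
            (x' + (x' + (b (1 + d) - a 1))) := by abel
          rw [e2, this, sub_self]
        rw [sub_eq_zero.1 (hz.two _ h1)]
  have h0 : (a 0 + b 0) - (a 1 + b 1) ∈ Kk H k := by
    by_contra h
    apply hno
    apply cons 0
    rw [zero_add]
    exact h
  have h1 : (a 0 + b 1) - (a 1 + b 0) ∈ Kk H k := by
    by_contra h
    apply hno
    apply cons 1
    rw [show (1 : ZMod 2) + 1 = 0 from by decide]
    exact h
  have half : ∀ x : H, x + x ∈ Kk H k → x ∈ Kk H k := by
    intro x hx
    rw [mem_Kk] at hx ⊢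
    apply hz.two
    rw [← smul_add]
    exact hx
  have ha01 : a 0 - a 1 ∈ Kk H k := by
    apply half
    have e1 : (a 0 - a 1) + (a 0 - a 1) = ((a 0 + b 0) - (a 1 + b 1)) +
      ((a 0 + b 1) - (a 1 + b 0)) := by abel
    rw [e1]
    exact AddSubgroup.add_mem _ h0 h1
  have hb01 : b 0 - b 1 ∈ Kk H k := by
    apply half
    have e1 : (b 0 - b 1) + (b 0 - b 1) = ((a 0 + b 0) - (a 1 + b 1)) -
      ((a 0 + b 1) - (a 1 + b 0)) := by abel
    rw [e1]
    exact AddSubgroup.sub_mem _ h0 h1
  refine ⟨(⊤ : AddSubgroup (ZMod 2)).prod (Kk H k), ?_, (0, a 0), (0, b 0), ?_, ?_⟩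
  · rw [Nat.card_congr (AddSubgroup.prodEquiv (⊤ : AddSubgroup (ZMod 2))
      (Kk H k)).toEquiv, Nat.card_prod]
    have : Nat.card (⊤ : AddSubgroup (ZMod 2)) = 2 := by simp
    rw [this]
    exact even_two_mul _
  · rintro ⟨e, x⟩
    rw [AddSubgroup.mem_prod]
    simp only [Prod.mk_sub_mk, AddSubgroup.mem_top, true_and]
    rw [ha]
    rcases z2c e with rfl | rfl
    · rfl
    · have e1 : x - a 0 = (x - a 1) - (a 0 - a 1) := by abel
      rw [e1]
      exact (sub_mem_iff' _ _ _ ha01).symm
  · rintro ⟨e, x⟩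
    rw [AddSubgroup.mem_prod]
    simp only [Prod.mk_sub_mk, AddSubgroup.mem_top, true_and]
    rw [hb]
    rcases z2c e with rfl | rfl
    · rfl
    · have e1 : x - b 0 = (x - b 1) - (b 0 - b 1) := by abel
      rw [e1]
      exact (sub_mem_iff' _ _ _ hb01).symm

theorem main_prod {z : H → F} (hz : Emb z) (A B : Finset (ZMod 2 × H)) (hc : A.card = B.card) :
    HasTr A B ∨ Bad A B := by
  by_cases h0 : ((cl B 0).card = (cl A 0).card ∧ (cl B 1).card = (cl A 0).card ∧
      (cl A 0).card = (cl A 1).card)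
  · have hA : ∀ e, (cl A e).card = (cl A 0).card := by
      intro e
      rcases z2c e with rfl | rfl
      · rfl
      · exact h0.2.2.symm
    have hB : ∀ e, (cl B e).card = (cl A 0).card := by
      intro e
      rcases z2c e with rfl | rfl
      · exact h0.1
      · exact h0.2.1
    rcases Nat.even_or_odd (cl A 0).card with hl | ⟨j, hj⟩
    · left
      exact hasTrE hz A B _ hl hA hB
    · by_cases hno : HasTr A B
      · left
        exact hno
      · right
        exact mainO hz A B (2 * j) (even_two_mul j) (fun e => by rw [hA, hj])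
          (fun e => by rw [hB, hj]) hno
  · left
    exact hasTrU4 hz A B hc h0

end P

/-- The embedding of `ZMod m`, `m` odd. -/
theorem exists_emb (m : ℕ) (hm : Odd m) :
    ∃ z : ZMod m → AlgebraicClosure (ZMod 2), Emb z := by
  have hm0 : m ≠ 0 := by
    rintro rfl
    exact absurd hm (by decide)
  have : NeZero m := ⟨hm0⟩
  have h1 : (m : AlgebraicClosure (ZMod 2)) ≠ 0 := by
    intro h
    rw [CharP.cast_eq_zero_iff (AlgebraicClosure (ZMod 2)) 2 m] at h
    obtain ⟨j, hj⟩ := hm
    omega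
  have : NeZero (m : AlgebraicClosure (ZMod 2)) := ⟨h1⟩
  obtain ⟨ζ, hζ⟩ := HasEnoughRootsOfUnity.exists_primitiveRoot (AlgebraicClosure (ZMod 2)) m
  refine ⟨fun a => ζ ^ a.val, ?_, ?_, ?_⟩
  · intro a b
    rw [← pow_add, ZMod.val_add]
    generalize a.val + b.val = c
    conv_lhs => rw [hζ.eq_orderOf]
    exact pow_mod_orderOf ζ c
  · intro a b h
    exact ZMod.val_injective m (hζ.pow_inj (ZMod.val_lt a) (ZMod.val_lt b) h)
  · intro a
    exact pow_ne_zero _ (hζ.ne_zero hm0)

/-- The conjecture for `n = 2 m`, `m` odd. -/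
theorem snevily_twice_odd (m : ℕ) (hm : Odd m)
    (A B : Finset (ZMod (2 * m))) (hc : A.card = B.card)
    (hno : ¬ ∃ f : ZMod (2 * m) → ZMod (2 * m),
      Set.BijOn f (A : Set (ZMod (2 * m))) (B : Set (ZMod (2 * m))) ∧
      Set.InjOn (fun a => a + f a) (A : Set (ZMod (2 * m)))) :
    ∃ H : AddSubgroup (ZMod (2 * m)), Even (Nat.card H) ∧
      ∃ a b : ZMod (2 * m), (∀ x : ZMod (2 * m), x ∈ A ↔ x - a ∈ H) ∧
        (∀ x : ZMod (2 * m), x ∈ B ↔ x - b ∈ H) := by
  have hcop : Nat.Coprime 2 m := (Nat.coprime_two_left).2 hm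
  let e : ZMod (2 * m) ≃+ ZMod 2 × ZMod m := (ZMod.chineseRemainder hcop).toAddEquiv
  obtain ⟨z, hz⟩ := exists_emb m hm
  have h := main_prod hz (A.image e) (B.image e) (by
    rw [Finset.card_image_of_injective _ e.injective, Finset.card_image_of_injective _ e.injective,
      hc])
  rcases h with h | h
  · exact absurd (HasTr.transport e h) hno
  · exact Bad.transport e h

end Pool.Agent.Helper38.SnevG
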