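import Pool.Agent.Helper38.SnevN

set_option autoImplicit false
set_option linter.unusedSectionVars false

namespace Pool.Agent.Helper38.SnevK

open Finset Equiv

theorem zc (a : ZMod 2) : a = 0 ∨ a = 1 := by revert a; decide

theorem zne (a : ZMod 2) : a ≠ 0 ↔ a = 1 := by revert a; decide

theorem zne1 (a : ZMod 2) : a ≠ 1 ↔ a = 0 := by revert a; decide

theorem zaa (a : ZMod 2) : a + a = 0 := by revert a; decide

section U

/-- label -/
def lab (t r y : ℕ) : ZMod 2 := if y < t + r then ((y / r : ℕ) : ZMod 2) else 1

/-- row classes -/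
def epU (b t r : ℕ) : Fin b ⊕ Fin t → ZMod 2 :=
  Sum.elim (fun y => lab t r y) (fun y => lab t r y)

/-- column classes -/
def IU (b t : ℕ) : Fin b ⊕ Fin t → ZMod 2 := Sum.elim (fun _ => 0) (fun _ => 1)

/-- levels -/
def fU (b t : ℕ) : Fin b ⊕ Fin t → ℕ := Sum.elim (fun y => y) (fun y => y)

variable {b t r : ℕ}

theorem lab_add (hr : 0 < r) {y : ℕ} (hy : y < t) : lab t r (y + r) = lab t r y + 1 := by
  unfold lab
  rw [if_pos (by omega), if_pos (by omega), Nat.add_div_right y hr]
  push_cast
  rfl

theorem lab_small {y : ℕ} (hy : y < r) : lab t r y = 0 := by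
  unfold lab
  rw [if_pos (by omega), Nat.div_eq_of_lt hy]
  rfl

theorem lab_zero {y : ℕ} (h : lab t r y = 0) : y < t + r := by
  by_contra hcon
  unfold lab at h
  rw [if_neg hcon] at h
  exact absurd h (by decide)

/-- exponents of the base term -/
def etU (b t r : ℕ) (w : Fin b ⊕ Fin t) : ℕ := fU b t w + if IU b t w = 1 then r else 0

theorem etU_inl (y : Fin b) : etU b t r (Sum.inl y) = y := by
  unfold etU fU IU
  simp

theorem etU_inr (y : Fin t) : etU b t r (Sum.inr y) = y + r := by
  unfold etU fU IU
  simp

theorem etU_inj (hr : 0 < r) (w w' : Fin b ⊕ Fin t) (h : epU b t r w = epU b t r w')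
    (h' : etU b t r w = etU b t r w') : w = w' := by
  have key : ∀ (y : Fin b) (y' : Fin t), epU b t r (Sum.inl y) = epU b t r (Sum.inr y') →
      etU b t r (Sum.inl y) = etU b t r (Sum.inr y') → False := by
    intro y y' h1 h2
    rw [etU_inl, etU_inr] at h2
    change lab t r y = lab t r y' at h1
    rw [h2, lab_add hr y'.2] at h1
    revert h1
    generalize lab t r y' = a
    revert a
    decide
  rcases w with y | y <;> rcases w' with y' | y'
  · rw [etU_inl, etU_inl] at h'
    rw [Fin.ext h']
  · exact (key y y' h h').elim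
  · exact (key y' y h.symm h'.symm).elim
  · rw [etU_inr, etU_inr] at h'
    have : (y : ℕ) = y' := by omega
    rw [Fin.ext this]

theorem etU_lt0 (w : Fin b ⊕ Fin t) (h : epU b t r w = 0) : etU b t r w < t + r := by
  rcases w with y | y
  · rw [etU_inl]
    exact lab_zero h
  · rw [etU_inr]
    have := y.2
    omega

theorem etU_lt1 (hb : t + r ≤ b) (w : Fin b ⊕ Fin t) : etU b t r w < b := by
  rcases w with y | y
  · rw [etU_inl]
    exact y.2
  · rw [etU_inr]
    have := y.2
    omega

theorem etU_ge1 (w : Fin b ⊕ Fin t) (h : epU b t r w = 1) : r ≤ etU b t r w := by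
  rcases w with y | y
  · rw [etU_inl]
    by_contra hcon
    have h1 : lab t r y = 0 := lab_small (by omega)
    change lab t r y = 1 at h
    rw [h1] at h
    exact absurd h (by decide)
  · rw [etU_inr]
    omega

theorem card_epU (hr : 0 < r) (hb : t + r ≤ b) :
    (univ.filter fun w => epU b t r w = 0).card = t + r ∧
    (univ.filter fun w => epU b t r w = 1).card = b - r := by
  have h0 : (univ.filter fun w => epU b t r w = 0).card ≤ t + r := by
    rw [← Finset.card_range (t + r)]
    apply Finset.card_le_card_of_injOn (etU b t r)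
    · intro w hw
      simp only [coe_filter, mem_univ, true_and, Set.mem_ofPred_eq] at hw
      rw [mem_coe, Finset.mem_range]
      exact etU_lt0 w hw
    · intro w hw w' hw' he
      simp only [coe_filter, mem_univ, true_and, Set.mem_ofPred_eq] at hw hw'
      exact etU_inj hr w w' (hw.trans hw'.symm) he
  have h1 : (univ.filter fun w => epU b t r w = 1).card ≤ b - r := by
    rw [← Nat.card_Ico r b]
    apply Finset.card_le_card_of_injOn (etU b t r)
    · intro w hw
      simp only [coe_filter, mem_univ, true_and, Set.mem_ofPred_eq] at hw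
      rw [mem_coe, Finset.mem_Ico]
      exact ⟨etU_ge1 w hw, etU_lt1 hb w⟩
    · intro w hw w' hw' he
      simp only [coe_filter, mem_univ, true_and, Set.mem_ofPred_eq] at hw hw'
      exact etU_inj hr w w' (hw.trans hw'.symm) he
  have h2 : (univ.filter fun w => epU b t r w = 0).card +
      (univ.filter fun w => epU b t r w = 1).card = b + t := by
    have h3 := Finset.card_filter_add_card_filter_not (s := (univ : Finset (Fin b ⊕ Fin t)))
      (fun w => epU b t r w = 0)
    have h4 : (univ.filter fun w => ¬ epU b t r w = 0) = univ.filter fun w => epU b t r w = 1 := by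
      ext w
      simp only [mem_filter, mem_univ, true_and]
      exact zne _
    rw [h4, Finset.card_univ, Fintype.card_sum, Fintype.card_fin, Fintype.card_fin] at h3
    exact h3
  omega

theorem card_IU (x : ZMod 2) :
    (univ.filter fun w => IU b t w = x).card = if x = 0 then b else t := by
  rw [Finset.card_filter, Fintype.sum_sum_type]
  rcases zc x with rfl | rfl
  · simp [IU]
  · simp [IU]

theorem fU_lt (w : Fin b ⊕ Fin t) : fU b t w < if IU b t w = 0 then b else t := by
  rcases w with y | y
  · simp [IU, fU]
  · simp [IU, fU]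

theorem fU_inj (w w' : Fin b ⊕ Fin t) (h : IU b t w = IU b t w') (h' : fU b t w = fU b t w') :
    w = w' := by
  rcases w with y | y <;> rcases w' with y' | y'
  · rw [Fin.ext h']
  · exact absurd h (by simp [IU])
  · exact absurd h (by simp [IU])
  · rw [Fin.ext h']

variable {F : Type*} [Field F]

/-- Uniqueness of the nonvanishing term. -/
theorem uniqU (hr : 0 < r) (hb : t + r ≤ b) (α β : Fin b ⊕ Fin t → F)
    (e : Fin b ⊕ Fin t → ZMod 2)
    (hA : (Matrix.of fun w i => if epU b t r i = e w then
      α i ^ (fU b t w + if (epU b t r w + IU b t w) + e w = 1 then r else 0) else 0 :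
        Matrix (Fin b ⊕ Fin t) (Fin b ⊕ Fin t) F).det ≠ 0)
    (hB : (Matrix.of fun w u => if IU b t u = (epU b t r w + IU b t w) + e w then
      β u ^ fU b t w else 0 : Matrix (Fin b ⊕ Fin t) (Fin b ⊕ Fin t) F).det ≠ 0) :
    e = epU b t r := by
  obtain ⟨s, hs⟩ := exists_perm hB
  have hc0 := card_of_perm (fun w => (hs w).1) (0 : ZMod 2)
  rw [card_IU, if_pos rfl] at hc0
  have hf := fill hc0 (f := fU b t) (by
    intro w w' hw hw' he
    exact eq_of_det_ne hB (hw.trans hw'.symm) (fun u => by rw [he])) (by
    intro w _
    have := fU_lt w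
    split_ifs at this
    · exact this
    · omega)
  -- step 1
  have hin : ∀ y : Fin b, t ≤ (y : ℕ) → e (Sum.inl y) = epU b t r (Sum.inl y) := by
    intro y hy
    obtain ⟨w, hw, hfw⟩ := hf y y.2
    rcases w with y' | y'
    · have : y' = y := Fin.ext hfw
      subst this
      have h2 : IU b t (Sum.inl y') = 0 := rfl
      rw [h2] at hw
      revert hw
      generalize e (Sum.inl y') = a
      generalize epU b t r (Sum.inl y') = a'
      revert a a'
      decide
    · exfalso
      have h3 : (y' : ℕ) = y := hfw
      have := y'.2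
      omega
  have hpair : ∀ y : Fin t, ∀ y0 : Fin b, (y0 : ℕ) = y → e (Sum.inl y0) = e (Sum.inr y) := by
    intro y y0 hy0
    by_contra hne
    have h5 : epU b t r (Sum.inl y0) = epU b t r (Sum.inr y) := by
      change lab t r y0 = lab t r y
      rw [hy0]
    have h6 : (epU b t r (Sum.inl y0) + IU b t (Sum.inl y0)) + e (Sum.inl y0) =
        (epU b t r (Sum.inr y) + IU b t (Sum.inr y)) + e (Sum.inr y) := by
      rw [h5]
      change (_ + 0) + _ = (_ + 1) + _
      revert hne
      generalize e (Sum.inl y0) = a
      generalize e (Sum.inr y) = a'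
      generalize epU b t r (Sum.inr y) = a''
      revert a a' a''
      decide
    have h7 := eq_of_det_ne hB h6 (fun u => by
      change β u ^ (y0 : ℕ) = β u ^ (y : ℕ)
      rw [hy0])
    exact absurd h7 (by simp)
  -- step 2
  have hmain : ∀ n : ℕ, ∀ y : Fin b, b - (y : ℕ) ≤ n → e (Sum.inl y) = epU b t r (Sum.inl y) := by
    intro n
    induction n with
    | zero =>
      intro y hy
      have := y.2
      omega
    | succ n ih =>
      intro y hy
      by_cases hyt : t ≤ (y : ℕ)
      · exact hin y hyt
      · by_contra hne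
        have hlt : (y : ℕ) + r < b := by omega
        have h1 := ih ⟨y + r, hlt⟩ (by simp only; omega)
        have h2 : epU b t r (Sum.inl ⟨y + r, hlt⟩) = epU b t r (Sum.inl y) + 1 :=
          lab_add hr (by omega)
        have h3 : e (Sum.inl y) = epU b t r (Sum.inl y) + 1 := by
          revert hne
          generalize e (Sum.inl y) = a
          generalize epU b t r (Sum.inl y) = a'
          revert a a'
          decide
        have h4 := eq_of_det_ne hA (w := Sum.inl y) (w' := Sum.inl ⟨y + r, hlt⟩) (by
          rw [h1, h2, h3]) (fun u => by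
          have e1 : (epU b t r (Sum.inl y) + IU b t (Sum.inl y)) + e (Sum.inl y) = 1 := by
            rw [h3]
            change (_ + 0) + _ = _
            generalize epU b t r (Sum.inl y) = a'
            revert a'
            decide
          have e2 : (epU b t r (Sum.inl ⟨y + r, hlt⟩) + IU b t (Sum.inl ⟨y + r, hlt⟩)) +
              e (Sum.inl ⟨y + r, hlt⟩) ≠ 1 := by
            rw [h1]
            change (_ + 0) + _ ≠ _
            generalize epU b t r (Sum.inl ⟨y + r, hlt⟩) = a'
            revert a'
            decide
          rw [if_pos e1, if_neg e2]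
          rfl)
        have h5 : (y : ℕ) = y + r := congrArg Fin.val (Sum.inl.inj h4)
        omega
  funext w
  rcases w with y | y
  · exact hmain _ y le_rfl
  · have hlt : (y : ℕ) < b := by
      have := y.2
      omega
    rw [← hpair y ⟨y, hlt⟩ rfl, hmain _ ⟨y, hlt⟩ le_rfl]
    rfl

variable [CharP F 2]

theorem caseU (hr : 0 < r) (hb : t + r ≤ b) (α β : Fin b ⊕ Fin t → F)
    (hα0 : ∀ i, α i ≠ 0) (hβ0 : ∀ i, β i ≠ 0)
    (hα : ∀ i j, epU b t r i = epU b t r j → α i = α j → i = j)
    (hβ : ∀ i j, IU b t i = IU b t j → β i = β j → i = j) :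
    ¬ NoTr (epU b t r) (IU b t) α β := by
  intro hno
  have h1 := formA (epU b t r) (IU b t) (fun w => epU b t r w + IU b t w) α β (fU b t)
    (fun _ v => if v = 1 then r else 0) hno
  rw [Finset.sum_eq_single (epU b t r)] at h1
  · have hbase : ∀ w, (epU b t r w + IU b t w) + epU b t r w = IU b t w := by
      intro w
      generalize epU b t r w = a
      generalize IU b t w = a'
      revert a a'
      decide
    simp only [hbase] at h1
    have hcard := card_epU (b := b) (t := t) hr hb
    have hA := nv (epU b t r) (epU b t r) α (etU b t r) (fun x => if x = 0 then 0 else r) hα0 hα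
      (etU_inj hr) (by
        intro w
        split_ifs with h2
        · exact Nat.zero_le _
        · exact etU_ge1 w ((zne _).1 h2)) (by
        intro w
        rcases zc (epU b t r w) with h2 | h2
        · rw [h2, hcard.1, if_pos rfl, zero_add]
          exact etU_lt0 w h2
        · rw [h2, hcard.2, if_neg (by decide)]
          have := etU_lt1 (r := r) hb w
          omega)
    have hB := nv (IU b t) (IU b t) β (fU b t) (fun _ => 0) hβ0 hβ fU_inj
      (fun w => Nat.zero_le _) (by
        intro w
        rw [card_IU, zero_add]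
        exact fU_lt w)
    exact mul_ne_zero hA hB h1
  · intro e _ hne
    by_contra hcon
    apply hne
    have h2 := mul_ne_zero_iff.1 hcon
    exact uniqU hr hb α β e h2.1 h2.2
  · intro h
    exact absurd (mem_univ _) h

end U

end Pool.Agent.Helper38.SnevK
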